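import Pool.Agent.helper14.NS.TopS
import Pool.Agent.helper14.NR.Share
import Pool.Agent.helper14.NR.Single

/-!
Generated: the top of the `b` range of the piece Q20e.
-/

namespace Pool.Agent.helper14.NS.Q20e

open Pool.Agent.helper31.IA (Z)
open Pool.Agent.helper31.IX (Op XOps runX Cov CovD cov_split covD_split)
open Pool.Agent.helper31.IC (TD)
open Pool.Agent.helper63.RG (reloc)
open Pool.Agent.helper63.NF
open Pool.Agent.helper14.CF (xE covD_E)
open Pool.Agent.helper14.NR (share)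

open Pool.Agent.helper14.NR (ρ1 topB cov_single)
open Pool.Agent.helper14.NS (topPS top_ofS)

def p_x : List Op := [
  .scale ⟨700938662707200, 0, 0, 0⟩ 0,
  .const ⟨0, 97049053757440, 0, 0⟩,
  .add 1 0,
  .mul 0 3,
  .const ⟨6397354835968, 0, 0, 0⟩,
  .add 1 0,
  .pos 0,
  .mul 6 0,
  .scale ⟨2199023255552, 0, 0, 0⟩ 0,
  .neg 0,
  .exp 0,
  .const ⟨1099511627776, 0, 0, 0⟩,
  .sub 0 1,
  .scale ⟨2199023255552, 0, 0, 0⟩ 6,
  .neg 0,
  .exp 0,
  .const ⟨1099511627776, 0, 0, 0⟩,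
  .add 0 1,
  .log 0,
  .const ⟨2199023255552, 0, 0, 0⟩,
  .log 0,
  .scale ⟨2199023255552, 0, 0, 0⟩ 20,
  .sub 1 3,
  .mul 1 0,
  .exp 0,
  .mul 3 4,
  .exp 0,
  .mul 14 14,
  .mul 0 3,
  .sub 0 2,
  .const ⟨1099511627776, 0, 0, 0⟩,
  .add 1 0,
  .pos 0]

set_option maxRecDepth 1000000 in
noncomputable def c_x {α : Type} (cst : Z → α) (add sub mul : α → α → α) (scale : Z → α → α)
    (neg inv exp log : α → α) (ok : α → Bool) (isPos : Nat → α → Bool) (isLt : α → Nat → Bool)
    (ball : Nat → α → α) (rball : α → α → α) : List α → Bool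
  | [x0] =>
  let v0 := scale ⟨700938662707200, 0, 0, 0⟩ x0; ok v0 && (
  let v1 := cst ⟨0, 97049053757440, 0, 0⟩; ok v1 && (
  let v2 := add v0 v1; ok v2 && (
  let v3 := mul v2 x0; ok v3 && (
  let v4 := cst ⟨6397354835968, 0, 0, 0⟩; ok v4 && (
  let v5 := add v3 v4; ok v5 && (
  isPos 1 v5 && (
  let v6 := mul x0 v5; ok v6 && (
  let v7 := scale ⟨2199023255552, 0, 0, 0⟩ v6; ok v7 && (
  let v8 := neg v7; ok v8 && (
  let v9 := exp v8; ok v9 && (
  let v10 := cst ⟨1099511627776, 0, 0, 0⟩; ok v10 && (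
  let v11 := sub v10 v9; ok v11 && (
  let v12 := scale ⟨2199023255552, 0, 0, 0⟩ v5; ok v12 && (
  let v13 := neg v12; ok v13 && (
  let v14 := exp v13; ok v14 && (
  let v15 := cst ⟨1099511627776, 0, 0, 0⟩; ok v15 && (
  let v16 := add v15 v14; ok v16 && (
  let v17 := log v16; ok v17 && (
  let v18 := cst ⟨2199023255552, 0, 0, 0⟩; ok v18 && (
  let v19 := log v18; ok v19 && (
  let v20 := scale ⟨2199023255552, 0, 0, 0⟩ x0; ok v20 && (
  let v21 := sub v19 v17; ok v21 && (
  let v22 := mul v20 v21; ok v22 && (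
  let v23 := exp v22; ok v23 && (
  let v24 := mul v20 v19; ok v24 && (
  let v25 := exp v24; ok v25 && (
  let v26 := mul v11 v11; ok v26 && (
  let v27 := mul v26 v23; ok v27 && (
  let v28 := sub v27 v25; ok v28 && (
  let v29 := cst ⟨1099511627776, 0, 0, 0⟩; ok v29 && (
  let v30 := add v28 v29; ok v30 && (
  isPos 1 v30 && (
  true)))))))))))))))))))))))))))))))))
  | _ => false

set_option maxRecDepth 1000000 in
theorem c_x_eq (X : XOps) (m : List X.O.α)
    (h : c_x X.O.cst X.O.add X.O.sub X.O.mul X.O.scale X.O.neg X.O.inv X.O.exp X.O.log X.O.ok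
      X.O.isPos X.O.isLt X.ball X.rball m = true) :
    runX X 1 p_x m = true := by
  match m, h with
  | [x0], h => exact h

abbrev gx : List (List Op) := [p_x]

noncomputable abbrev kx : List (List xE.O.α → Bool) := [c_x xE.O.cst xE.O.add xE.O.sub xE.O.mul xE.O.scale xE.O.neg xE.O.inv xE.O.exp xE.O.log xE.O.ok
      xE.O.isPos xE.O.isLt xE.ball xE.rball]

theorem kx_eq : List.Forall₂ (fun (ops : List Op) (chk : List xE.O.α → Bool) =>
    ∀ m, chk m = true → runX xE 1 ops m = true) gx kx :=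
  List.Forall₂.cons (c_x_eq xE) List.Forall₂.nil

theorem gx_eq : gx = [comp (topPS (6397354835968) (-97049053757440) (700938662707200)) ρ1 1] := by decide +kernel

theorem x_c : CovD 0 gx [(45813334016, 9163505664)] :=
  covD_E kx_eq (.n 0 (.l 0) (.n 0 (.n 0 (.l 0) (.l 0)) (.n 0 (.l 0) (.l 0))))
    [(45813334016, 9163505664)] rfl (by decide +kernel)

theorem cov_x : Cov 0 (comp (topPS (6397354835968) (-97049053757440) (700938662707200)) ρ1 1) [(45813334016, 9163505664)] :=
  cov_single (by rw [← gx_eq]; exact x_c)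

theorem top {e κ : ℝ} (h1 : (20 : ℝ) ≤ e) (h2 : e ≤ 30)
    (hd : 2 * (Real.cosh κ - 1) / Real.cosh (e * κ / 2) ^ (2 / e) < 4 ^ (1 / e) - 1) :
    e * κ / 2 < topB (6397354835968) (-97049053757440) (700938662707200) (1 / e) := by
  have he : 0 < e := lt_of_lt_of_le (by norm_num) h1
  refine top_ofS cov_x he ?_ hd
  rw [abs_le]
  constructor
  · rw [neg_le_sub_iff_le_add, ← sub_le_iff_le_add]
    refine le_trans ?_ (one_div_le_one_div_of_le he h2)
    norm_num
  · rw [sub_le_iff_le_add]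
    refine (one_div_le_one_div_of_le (by norm_num) h1).trans ?_
    norm_num

end Pool.Agent.helper14.NS.Q20e
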