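import Pool.Agent.helper14.NS.Q20e.PN2

/-!
Generated: certificates.
-/

namespace Pool.Agent.helper14.NS.Q20e

open Pool.Agent.helper31.IA (Z)
open Pool.Agent.helper31.IX (Op XOps runX Cov CovD cov_split covD_split)
open Pool.Agent.helper31.IC (TD)
open Pool.Agent.helper63.RG (reloc)
open Pool.Agent.helper63.NF hiding TD
open Pool.Agent.helper4.NS
open Pool.Agent.helper14.CF (xE covD_E)
open Pool.Agent.helper14.NR (share)

mutual
theorem A2_c0_t4 : CovD 1 gA2 [(41231581184, 4581752832), (137438953472, 137438953472), (2199023255552, 2199023255552)] :=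
  covD_E kA2_eq (.n 0 (.n 2 (.n 2 (.n 2 (.l 0) (.l 0)) (.n 2 (.l 0) (.l 0))) (.n 2 (.n 2 (.l 0) (.l 0)) (.n 1 (.l 0) (.l 0)))) (.n 2 (.n 2 (.n 2 (.l 0) (.l 0)) (.n 2 (.l 0) (.l 0))) (.n 2 (.n 2 (.l 0) (.l 0)) (.n 1 (.l 0) (.l 0)))))
    [(41231581184, 4581752832), (137438953472, 137438953472), (2199023255552, 2199023255552)] rfl (by decide +kernel)
theorem A2_c0_t5 : CovD 1 gA2 [(41231581184, 4581752832), (412316860416, 137438953472), (2199023255552, 2199023255552)] :=
  covD_E kA2_eq (.n 2 (.n 2 (.n 2 (.l 0) (.l 0)) (.n 2 (.l 0) (.l 0))) (.n 2 (.n 2 (.l 0) (.l 0)) (.n 2 (.l 0) (.l 0))))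
    [(41231581184, 4581752832), (412316860416, 137438953472), (2199023255552, 2199023255552)] rfl (by decide +kernel)
end

mutual
theorem A2_c0_t7 : CovD 1 gA2 [(41231581184, 4581752832), (274877906944, 274877906944), (5497558138880, 1099511627776)] :=
  covD_E kA2_eq (.n 2 (.n 0 (.n 1 (.n 2 (.l 0) (.n 0 (.l 1) (.n 0 (.l 1) (.l 1)))) (.n 0 (.n 2 (.l 0) (.l 0)) (.l 0))) (.n 1 (.n 2 (.l 0) (.n 2 (.l 0) (.l 1))) (.l 0))) (.n 2 (.n 1 (.l 1) (.n 0 (.l 1) (.l 1))) (.l 1)))
    [(41231581184, 4581752832), (274877906944, 274877906944), (5497558138880, 1099511627776)] rfl (by decide +kernel)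
theorem A2_c0_t8 : CovD 1 gA2 [(41231581184, 4581752832), (274877906944, 274877906944), (7696581394432, 1099511627776)] :=
  covD_E kA2_eq (.n 0 (.l 1) (.l 1))
    [(41231581184, 4581752832), (274877906944, 274877906944), (7696581394432, 1099511627776)] rfl (by decide +kernel)
end

mutual
theorem A2_c0_t10 : CovD 1 gA2 [(41231581184, 4581752832), (824633720832, 274877906944), (2199023255552, 2199023255552)] :=
  covD_E kA2_eq (.n 1 (.n 2 (.n 2 (.n 2 (.l 0) (.l 0)) (.n 2 (.l 0) (.l 0))) (.n 0 (.n 2 (.l 0) (.l 0)) (.n 2 (.l 0) (.l 0)))) (.n 0 (.n 2 (.n 2 (.l 0) (.l 0)) (.n 2 (.l 0) (.l 0))) (.n 2 (.n 2 (.l 0) (.l 0)) (.n 2 (.l 0) (.l 0)))))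
    [(41231581184, 4581752832), (824633720832, 274877906944), (2199023255552, 2199023255552)] rfl (by decide +kernel)
theorem A2_c0_t11 : CovD 1 gA2 [(41231581184, 4581752832), (824633720832, 274877906944), (6597069766656, 2199023255552)] :=
  covD_E kA2_eq (.n 2 (.n 0 (.n 1 (.n 2 (.l 0) (.n 2 (.l 0) (.l 1))) (.n 2 (.l 0) (.l 0))) (.n 1 (.n 2 (.l 0) (.n 2 (.l 0) (.l 1))) (.n 2 (.l 0) (.l 0)))) (.n 2 (.n 1 (.l 1) (.n 0 (.l 1) (.l 1))) (.l 1)))
    [(41231581184, 4581752832), (824633720832, 274877906944), (6597069766656, 2199023255552)] rfl (by decide +kernel)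
end

mutual
theorem A2_c0_t15 : CovD 1 gA2 [(50395086848, 4581752832), (137438953472, 137438953472), (2199023255552, 2199023255552)] :=
  covD_E kA2_eq (.n 2 (.n 2 (.n 2 (.l 0) (.n 0 (.l 0) (.l 0))) (.n 0 (.n 2 (.l 0) (.l 0)) (.n 2 (.l 0) (.l 0)))) (.n 2 (.n 0 (.n 2 (.l 0) (.l 0)) (.n 2 (.l 0) (.l 0))) (.n 2 (.l 0) (.l 0))))
    [(50395086848, 4581752832), (137438953472, 137438953472), (2199023255552, 2199023255552)] rfl (by decide +kernel)
theorem A2_c0_t16 : CovD 1 gA2 [(50395086848, 4581752832), (137438953472, 137438953472), (6597069766656, 2199023255552)] :=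
  covD_E kA2_eq (.n 2 (.n 2 (.n 2 (.l 0) (.l 0)) (.n 0 (.l 1) (.n 0 (.l 1) (.l 1)))) (.l 1))
    [(50395086848, 4581752832), (137438953472, 137438953472), (6597069766656, 2199023255552)] rfl (by decide +kernel)
end

mutual
theorem A2_c0_t17 : CovD 1 gA2 [(50395086848, 4581752832), (412316860416, 137438953472), (4398046511104, 4398046511104)] :=
  covD_E kA2_eq (.n 2 (.n 2 (.n 2 (.n 2 (.l 0) (.l 0)) (.n 2 (.l 0) (.l 0))) (.n 2 (.n 2 (.l 0) (.l 0)) (.n 2 (.l 0) (.l 0)))) (.n 2 (.n 2 (.n 0 (.l 0) (.l 0)) (.n 2 (.l 0) (.l 1))) (.l 1)))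
    [(50395086848, 4581752832), (412316860416, 137438953472), (4398046511104, 4398046511104)] rfl (by decide +kernel)
theorem A2_c0_t19 : CovD 1 gA2 [(50395086848, 4581752832), (824633720832, 274877906944), (2199023255552, 2199023255552)] :=
  covD_E kA2_eq (.n 0 (.n 2 (.n 2 (.n 2 (.l 0) (.l 0)) (.n 2 (.l 0) (.l 0))) (.n 2 (.n 2 (.l 0) (.l 0)) (.n 1 (.l 0) (.l 0)))) (.n 2 (.n 2 (.n 2 (.l 0) (.l 0)) (.n 2 (.l 0) (.l 0))) (.n 2 (.n 2 (.l 0) (.l 0)) (.n 1 (.l 0) (.l 0)))))
    [(50395086848, 4581752832), (824633720832, 274877906944), (2199023255552, 2199023255552)] rfl (by decide +kernel)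
end

mutual
theorem A2_c0_t20 : CovD 1 gA2 [(50395086848, 4581752832), (824633720832, 274877906944), (6597069766656, 2199023255552)] :=
  covD_E kA2_eq (.n 2 (.n 0 (.n 1 (.n 2 (.l 0) (.l 0)) (.n 2 (.l 0) (.l 0))) (.n 1 (.n 2 (.l 0) (.l 0)) (.n 2 (.l 0) (.l 0)))) (.n 2 (.n 1 (.l 1) (.n 0 (.l 0) (.l 0))) (.l 1)))
    [(50395086848, 4581752832), (824633720832, 274877906944), (6597069766656, 2199023255552)] rfl (by decide +kernel)
theorem B2_c0_t1 : CovD 1 gB2 [(41231581184, 4581752832), (549755813888, 549755813888), (68719476736, 68719476736)] :=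
  covD_E kB2_eq (.n 2 (.n 2 (.n 2 (.n 2 (.l 1) (.l 1)) (.n 2 (.l 1) (.l 1))) (.n 2 (.n 2 (.l 1) (.l 1)) (.n 0 (.l 1) (.l 1)))) (.n 2 (.n 2 (.n 0 (.l 1) (.l 1)) (.l 1)) (.n 2 (.l 1) (.n 0 (.l 1) (.l 1)))))
    [(41231581184, 4581752832), (549755813888, 549755813888), (68719476736, 68719476736)] rfl (by decide +kernel)
end

mutual
theorem B2_c0_t2 : CovD 1 gB2 [(50395086848, 4581752832), (549755813888, 549755813888), (68719476736, 68719476736)] :=
  covD_E kB2_eq (.n 2 (.n 2 (.n 2 (.n 2 (.l 1) (.l 1)) (.n 0 (.l 1) (.l 1))) (.n 2 (.n 0 (.l 1) (.l 1)) (.l 1))) (.n 2 (.n 2 (.l 1) (.l 1)) (.n 2 (.l 1) (.l 1))))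
    [(50395086848, 4581752832), (549755813888, 549755813888), (68719476736, 68719476736)] rfl (by decide +kernel)
theorem D2_c0_t3 : CovD 1 gD2 [(41231581184, 4581752832), (137438953472, 137438953472), (863610339328, 863610339328)] :=
  covD_E kD2_eq (.n 1 (.n 2 (.n 2 (.l 0) (.n 0 (.l 0) (.l 0))) (.n 0 (.n 2 (.l 0) (.l 0)) (.n 2 (.l 0) (.l 0)))) (.n 2 (.n 2 (.l 0) (.n 0 (.l 0) (.l 0))) (.n 2 (.n 0 (.l 0) (.l 0)) (.n 2 (.l 0) (.l 0)))))
    [(41231581184, 4581752832), (137438953472, 137438953472), (863610339328, 863610339328)] rfl (by decide +kernel)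
end

mutual
theorem D2_c0_t4 : CovD 1 gD2 [(50395086848, 4581752832), (137438953472, 137438953472), (863610339328, 863610339328)] :=
  covD_E kD2_eq (.n 2 (.n 1 (.n 2 (.l 0) (.l 0)) (.n 2 (.l 0) (.l 0))) (.n 2 (.n 2 (.l 0) (.l 0)) (.n 2 (.l 0) (.l 0))))
    [(50395086848, 4581752832), (137438953472, 137438953472), (863610339328, 863610339328)] rfl (by decide +kernel)
theorem D2_c0_t6 : CovD 1 gD2 [(41231581184, 4581752832), (412316860416, 137438953472), (863610339328, 863610339328)] :=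
  covD_E kD2_eq (.n 0 (.n 2 (.n 1 (.n 2 (.l 0) (.l 0)) (.n 2 (.l 0) (.l 0))) (.n 2 (.n 2 (.l 0) (.l 0)) (.n 2 (.l 0) (.l 0)))) (.n 2 (.n 1 (.n 2 (.l 0) (.l 0)) (.n 2 (.l 0) (.l 0))) (.n 2 (.n 1 (.l 0) (.l 0)) (.n 2 (.l 0) (.l 0)))))
    [(41231581184, 4581752832), (412316860416, 137438953472), (863610339328, 863610339328)] rfl (by decide +kernel)
end

mutual
theorem D2_c0_t7 : CovD 1 gD2 [(50395086848, 4581752832), (412316860416, 137438953472), (863610339328, 863610339328)] :=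
  covD_E kD2_eq (.n 2 (.n 2 (.n 1 (.l 0) (.l 0)) (.n 2 (.l 0) (.l 0))) (.n 2 (.n 2 (.l 0) (.l 0)) (.n 2 (.l 0) (.n 0 (.l 0) (.l 0)))))
    [(50395086848, 4581752832), (412316860416, 137438953472), (863610339328, 863610339328)] rfl (by decide +kernel)
theorem D2_c0_t11 : CovD 1 gD2 [(38940704768, 2290876416), (687194767360, 137438953472), (863610339328, 863610339328)] :=
  covD_E kD2_eq (.n 2 (.n 2 (.n 1 (.l 0) (.l 0)) (.n 2 (.l 0) (.l 0))) (.n 2 (.n 2 (.l 0) (.l 0)) (.n 2 (.l 0) (.l 0))))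
    [(38940704768, 2290876416), (687194767360, 137438953472), (863610339328, 863610339328)] rfl (by decide +kernel)
end

mutual
theorem D2_c0_t12 : CovD 1 gD2 [(38940704768, 2290876416), (962072674304, 137438953472), (863610339328, 863610339328)] :=
  covD_E kD2_eq (.n 2 (.n 2 (.n 2 (.l 0) (.l 0)) (.n 2 (.l 0) (.n 0 (.l 0) (.l 0)))) (.n 0 (.n 2 (.n 1 (.l 0) (.l 0)) (.n 2 (.l 0) (.l 0))) (.n 2 (.n 1 (.l 0) (.l 0)) (.n 2 (.l 0) (.l 0)))))
    [(38940704768, 2290876416), (962072674304, 137438953472), (863610339328, 863610339328)] rfl (by decide +kernel)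
theorem D2_c0_t13 : CovD 1 gD2 [(43522457600, 2290876416), (824633720832, 274877906944), (863610339328, 863610339328)] :=
  covD_E kD2_eq (.n 1 (.n 2 (.n 1 (.n 2 (.l 0) (.l 0)) (.n 2 (.l 0) (.l 0))) (.n 2 (.n 2 (.l 0) (.l 0)) (.n 2 (.l 0) (.l 0)))) (.n 2 (.n 2 (.n 1 (.l 0) (.l 0)) (.n 2 (.l 0) (.l 0))) (.n 2 (.n 2 (.l 0) (.l 0)) (.n 2 (.l 0) (.l 0)))))
    [(43522457600, 2290876416), (824633720832, 274877906944), (863610339328, 863610339328)] rfl (by decide +kernel)
end

mutual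
theorem D2_c0_t15 : CovD 1 gD2 [(50395086848, 4581752832), (687194767360, 137438953472), (863610339328, 863610339328)] :=
  covD_E kD2_eq (.n 2 (.n 2 (.n 2 (.l 0) (.n 0 (.l 0) (.l 0))) (.n 0 (.n 1 (.l 0) (.l 0)) (.n 1 (.l 0) (.l 0)))) (.n 0 (.n 2 (.n 1 (.l 0) (.l 0)) (.n 2 (.l 0) (.l 0))) (.n 1 (.n 2 (.l 0) (.l 0)) (.n 2 (.l 0) (.l 0)))))
    [(50395086848, 4581752832), (687194767360, 137438953472), (863610339328, 863610339328)] rfl (by decide +kernel)
theorem D2_c0_t16 : CovD 1 gD2 [(50395086848, 4581752832), (962072674304, 137438953472), (863610339328, 863610339328)] :=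
  covD_E kD2_eq (.n 0 (.n 2 (.n 1 (.n 2 (.l 0) (.l 0)) (.n 2 (.l 0) (.l 0))) (.n 2 (.n 2 (.l 0) (.l 0)) (.n 2 (.l 0) (.l 0)))) (.n 2 (.n 1 (.n 2 (.l 0) (.l 0)) (.n 2 (.l 0) (.l 0))) (.n 2 (.n 1 (.l 0) (.l 0)) (.n 2 (.l 0) (.l 0)))))
    [(50395086848, 4581752832), (962072674304, 137438953472), (863610339328, 863610339328)] rfl (by decide +kernel)
end

mutual
theorem E2_c0_t3 : CovD 1 gE2 [(45813334016, 9163505664), (274877906944, 274877906944), (215902584832, 215902584832)] :=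
  covD_E kE2_eq (.n 2 (.l 1) (.n 2 (.l 1) (.n 0 (.n 0 (.n 2 (.l 1) (.n 1 (.l 0) (.l 0))) (.l 1)) (.l 1))))
    [(45813334016, 9163505664), (274877906944, 274877906944), (215902584832, 215902584832)] rfl (by decide +kernel)
theorem E2_c0_t5 : CovD 1 gE2 [(45813334016, 9163505664), (137438953472, 137438953472), (647707754496, 215902584832)] :=
  covD_E kE2_eq (.n 0 (.n 2 (.n 0 (.n 1 (.l 0) (.l 0)) (.n 2 (.l 0) (.l 0))) (.n 2 (.l 0) (.l 0))) (.n 1 (.n 2 (.n 2 (.l 1) (.l 0)) (.l 0)) (.n 2 (.n 2 (.l 1) (.l 0)) (.l 0))))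
    [(45813334016, 9163505664), (137438953472, 137438953472), (647707754496, 215902584832)] rfl (by decide +kernel)
end

mutual
theorem E2_c0_t6 : CovD 1 gE2 [(45813334016, 9163505664), (412316860416, 137438953472), (647707754496, 215902584832)] :=
  covD_E kE2_eq (.n 0 (.n 1 (.n 2 (.n 2 (.l 0) (.l 0)) (.n 0 (.l 0) (.l 0))) (.n 2 (.n 2 (.l 0) (.l 0)) (.n 0 (.l 0) (.l 0)))) (.n 2 (.n 2 (.l 1) (.n 0 (.l 0) (.l 0))) (.n 2 (.l 0) (.l 0))))
    [(45813334016, 9163505664), (412316860416, 137438953472), (647707754496, 215902584832)] rfl (by decide +kernel)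
theorem E2_c0_t9 : CovD 1 gE2 [(41231581184, 4581752832), (274877906944, 274877906944), (1079512924160, 215902584832)] :=
  covD_E kE2_eq (.n 2 (.n 1 (.n 1 (.l 0) (.l 0)) (.n 1 (.l 0) (.n 0 (.l 0) (.l 0)))) (.n 1 (.n 1 (.l 0) (.l 0)) (.n 1 (.l 0) (.n 0 (.l 0) (.l 0)))))
    [(41231581184, 4581752832), (274877906944, 274877906944), (1079512924160, 215902584832)] rfl (by decide +kernel)
end

mutual
theorem E2_c0_t10 : CovD 1 gE2 [(41231581184, 4581752832), (274877906944, 274877906944), (1511318093824, 215902584832)] :=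
  covD_E kE2_eq (.n 1 (.n 1 (.n 2 (.l 0) (.l 0)) (.n 2 (.l 0) (.l 0))) (.n 1 (.n 2 (.l 0) (.l 0)) (.n 2 (.l 0) (.l 0))))
    [(41231581184, 4581752832), (274877906944, 274877906944), (1511318093824, 215902584832)] rfl (by decide +kernel)
theorem E2_c0_t11 : CovD 1 gE2 [(50395086848, 4581752832), (274877906944, 274877906944), (1295415508992, 431805169664)] :=
  covD_E kE2_eq (.n 1 (.n 2 (.n 0 (.n 2 (.l 0) (.l 0)) (.n 2 (.l 0) (.l 0))) (.n 2 (.n 0 (.l 0) (.l 0)) (.l 0))) (.n 0 (.n 2 (.n 2 (.l 0) (.l 0)) (.n 2 (.l 0) (.l 0))) (.n 2 (.n 2 (.l 0) (.l 0)) (.n 2 (.l 0) (.l 0)))))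
    [(50395086848, 4581752832), (274877906944, 274877906944), (1295415508992, 431805169664)] rfl (by decide +kernel)
end

mutual
theorem E2_c0_t14 : CovD 1 gE2 [(45813334016, 9163505664), (824633720832, 274877906944), (215902584832, 215902584832)] :=
  covD_E kE2_eq (.n 2 (.n 2 (.l 1) (.l 1)) (.n 0 (.n 2 (.l 1) (.n 1 (.l 1) (.l 1))) (.n 1 (.l 1) (.l 1))))
    [(45813334016, 9163505664), (824633720832, 274877906944), (215902584832, 215902584832)] rfl (by decide +kernel)
theorem E2_c0_t17 : CovD 1 gE2 [(38940704768, 2290876416), (824633720832, 274877906944), (647707754496, 215902584832)] :=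
  covD_E kE2_eq (.n 1 (.n 2 (.n 2 (.n 0 (.l 0) (.l 0)) (.l 0)) (.n 1 (.l 0) (.l 0))) (.n 2 (.n 0 (.n 2 (.l 0) (.l 0)) (.n 2 (.l 0) (.l 0))) (.n 2 (.l 0) (.l 0))))
    [(38940704768, 2290876416), (824633720832, 274877906944), (647707754496, 215902584832)] rfl (by decide +kernel)
end

mutual
theorem E2_c0_t18 : CovD 1 gE2 [(43522457600, 2290876416), (824633720832, 274877906944), (647707754496, 215902584832)] :=
  covD_E kE2_eq (.n 1 (.n 2 (.n 2 (.n 0 (.l 0) (.l 0)) (.l 0)) (.n 1 (.l 0) (.l 0))) (.n 2 (.n 2 (.n 0 (.l 0) (.l 1)) (.l 0)) (.n 1 (.l 0) (.l 0))))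
    [(43522457600, 2290876416), (824633720832, 274877906944), (647707754496, 215902584832)] rfl (by decide +kernel)
theorem E2_c0_t19 : CovD 1 gE2 [(50395086848, 4581752832), (824633720832, 274877906944), (647707754496, 215902584832)] :=
  covD_E kE2_eq (.n 1 (.n 2 (.n 2 (.l 1) (.n 0 (.l 0) (.n 0 (.l 0) (.l 0)))) (.n 2 (.n 0 (.l 0) (.l 0)) (.l 0))) (.n 2 (.n 2 (.l 1) (.n 0 (.n 0 (.l 0) (.l 0)) (.l 1))) (.n 0 (.n 1 (.l 0) (.l 0)) (.n 1 (.l 0) (.l 0)))))
    [(50395086848, 4581752832), (824633720832, 274877906944), (647707754496, 215902584832)] rfl (by decide +kernel)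
end

mutual
theorem E2_c0_t22 : CovD 1 gE2 [(38940704768, 2290876416), (824633720832, 274877906944), (1295415508992, 431805169664)] :=
  covD_E kE2_eq (.n 1 (.n 1 (.n 2 (.n 2 (.l 0) (.l 0)) (.n 2 (.l 0) (.l 0))) (.n 2 (.n 2 (.l 0) (.l 0)) (.n 2 (.l 0) (.l 0)))) (.n 1 (.n 2 (.n 2 (.l 0) (.l 0)) (.n 2 (.l 0) (.l 0))) (.n 2 (.n 2 (.l 0) (.l 0)) (.n 2 (.l 0) (.l 0)))))
    [(38940704768, 2290876416), (824633720832, 274877906944), (1295415508992, 431805169664)] rfl (by decide +kernel)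
theorem E2_c0_t23 : CovD 1 gE2 [(43522457600, 2290876416), (824633720832, 274877906944), (1295415508992, 431805169664)] :=
  covD_E kE2_eq (.n 1 (.n 2 (.n 0 (.n 2 (.l 0) (.l 0)) (.n 2 (.l 0) (.l 0))) (.n 2 (.n 0 (.l 0) (.l 0)) (.l 0))) (.n 1 (.n 2 (.n 2 (.l 0) (.l 0)) (.n 2 (.l 0) (.l 0))) (.n 2 (.n 2 (.l 0) (.l 0)) (.n 2 (.l 0) (.l 0)))))
    [(43522457600, 2290876416), (824633720832, 274877906944), (1295415508992, 431805169664)] rfl (by decide +kernel)
end

mutual
theorem E2_c0_t25 : CovD 1 gE2 [(50395086848, 4581752832), (687194767360, 137438953472), (1295415508992, 431805169664)] :=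
  covD_E kE2_eq (.n 2 (.n 2 (.n 2 (.l 0) (.l 0)) (.n 2 (.l 0) (.l 0))) (.n 0 (.n 2 (.l 0) (.l 0)) (.n 2 (.l 0) (.l 0))))
    [(50395086848, 4581752832), (687194767360, 137438953472), (1295415508992, 431805169664)] rfl (by decide +kernel)
theorem E2_c0_t26 : CovD 1 gE2 [(50395086848, 4581752832), (962072674304, 137438953472), (1295415508992, 431805169664)] :=
  covD_E kE2_eq (.n 0 (.n 2 (.n 0 (.n 2 (.l 0) (.l 0)) (.n 2 (.l 0) (.l 0))) (.n 2 (.n 0 (.l 0) (.l 0)) (.l 0))) (.n 2 (.n 2 (.n 0 (.l 0) (.l 0)) (.l 0)) (.n 2 (.l 0) (.l 0))))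
    [(50395086848, 4581752832), (962072674304, 137438953472), (1295415508992, 431805169664)] rfl (by decide +kernel)
end

theorem A2_c0_t3 : CovD 1 gA2 [(41231581184, 4581752832), (274877906944, 274877906944), (2199023255552, 2199023255552)] :=
  covD_split 1 (by decide +kernel) A2_c0_t4 A2_c0_t5

theorem A2_c0_t6 : CovD 1 gA2 [(41231581184, 4581752832), (274877906944, 274877906944), (6597069766656, 2199023255552)] :=
  covD_split 2 (by decide +kernel) A2_c0_t7 A2_c0_t8

theorem A2_c0_t2 : CovD 1 gA2 [(41231581184, 4581752832), (274877906944, 274877906944), (4398046511104, 4398046511104)] :=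
  covD_split 2 (by decide +kernel) A2_c0_t3 A2_c0_t6

theorem A2_c0_t9 : CovD 1 gA2 [(41231581184, 4581752832), (824633720832, 274877906944), (4398046511104, 4398046511104)] :=
  covD_split 2 (by decide +kernel) A2_c0_t10 A2_c0_t11

theorem A2_c0_t1 : CovD 1 gA2 [(41231581184, 4581752832), (549755813888, 549755813888), (4398046511104, 4398046511104)] :=
  covD_split 1 (by decide +kernel) A2_c0_t2 A2_c0_t9

theorem A2_c0_t14 : CovD 1 gA2 [(50395086848, 4581752832), (137438953472, 137438953472), (4398046511104, 4398046511104)] :=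
  covD_split 2 (by decide +kernel) A2_c0_t15 A2_c0_t16

theorem A2_c0_t13 : CovD 1 gA2 [(50395086848, 4581752832), (274877906944, 274877906944), (4398046511104, 4398046511104)] :=
  covD_split 1 (by decide +kernel) A2_c0_t14 A2_c0_t17

theorem A2_c0_t18 : CovD 1 gA2 [(50395086848, 4581752832), (824633720832, 274877906944), (4398046511104, 4398046511104)] :=
  covD_split 2 (by decide +kernel) A2_c0_t19 A2_c0_t20

theorem A2_c0_t12 : CovD 1 gA2 [(50395086848, 4581752832), (549755813888, 549755813888), (4398046511104, 4398046511104)] :=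
  covD_split 1 (by decide +kernel) A2_c0_t13 A2_c0_t18

theorem A2_c0 : CovD 1 gA2 [(45813334016, 9163505664), (549755813888, 549755813888), (4398046511104, 4398046511104)] :=
  covD_split 0 (by decide +kernel) A2_c0_t1 A2_c0_t12

theorem B2_c0 : CovD 1 gB2 [(45813334016, 9163505664), (549755813888, 549755813888), (68719476736, 68719476736)] :=
  covD_split 0 (by decide +kernel) B2_c0_t1 B2_c0_t2

theorem D2_c0_t2 : CovD 1 gD2 [(45813334016, 9163505664), (137438953472, 137438953472), (863610339328, 863610339328)] :=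
  covD_split 0 (by decide +kernel) D2_c0_t3 D2_c0_t4

theorem D2_c0_t5 : CovD 1 gD2 [(45813334016, 9163505664), (412316860416, 137438953472), (863610339328, 863610339328)] :=
  covD_split 0 (by decide +kernel) D2_c0_t6 D2_c0_t7

theorem D2_c0_t1 : CovD 1 gD2 [(45813334016, 9163505664), (274877906944, 274877906944), (863610339328, 863610339328)] :=
  covD_split 1 (by decide +kernel) D2_c0_t2 D2_c0_t5

theorem D2_c0_t10 : CovD 1 gD2 [(38940704768, 2290876416), (824633720832, 274877906944), (863610339328, 863610339328)] :=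
  covD_split 1 (by decide +kernel) D2_c0_t11 D2_c0_t12

theorem D2_c0_t9 : CovD 1 gD2 [(41231581184, 4581752832), (824633720832, 274877906944), (863610339328, 863610339328)] :=
  covD_split 0 (by decide +kernel) D2_c0_t10 D2_c0_t13

theorem D2_c0_t14 : CovD 1 gD2 [(50395086848, 4581752832), (824633720832, 274877906944), (863610339328, 863610339328)] :=
  covD_split 1 (by decide +kernel) D2_c0_t15 D2_c0_t16

theorem D2_c0_t8 : CovD 1 gD2 [(45813334016, 9163505664), (824633720832, 274877906944), (863610339328, 863610339328)] :=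
  covD_split 0 (by decide +kernel) D2_c0_t9 D2_c0_t14

theorem D2_c0 : CovD 1 gD2 [(45813334016, 9163505664), (549755813888, 549755813888), (863610339328, 863610339328)] :=
  covD_split 1 (by decide +kernel) D2_c0_t1 D2_c0_t8

theorem E2_c0_t4 : CovD 1 gE2 [(45813334016, 9163505664), (274877906944, 274877906944), (647707754496, 215902584832)] :=
  covD_split 1 (by decide +kernel) E2_c0_t5 E2_c0_t6

theorem E2_c0_t2 : CovD 1 gE2 [(45813334016, 9163505664), (274877906944, 274877906944), (431805169664, 431805169664)] :=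
  covD_split 2 (by decide +kernel) E2_c0_t3 E2_c0_t4

theorem E2_c0_t8 : CovD 1 gE2 [(41231581184, 4581752832), (274877906944, 274877906944), (1295415508992, 431805169664)] :=
  covD_split 2 (by decide +kernel) E2_c0_t9 E2_c0_t10

theorem E2_c0_t7 : CovD 1 gE2 [(45813334016, 9163505664), (274877906944, 274877906944), (1295415508992, 431805169664)] :=
  covD_split 0 (by decide +kernel) E2_c0_t8 E2_c0_t11

theorem E2_c0_t1 : CovD 1 gE2 [(45813334016, 9163505664), (274877906944, 274877906944), (863610339328, 863610339328)] :=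
  covD_split 2 (by decide +kernel) E2_c0_t2 E2_c0_t7

theorem E2_c0_t16 : CovD 1 gE2 [(41231581184, 4581752832), (824633720832, 274877906944), (647707754496, 215902584832)] :=
  covD_split 0 (by decide +kernel) E2_c0_t17 E2_c0_t18

theorem E2_c0_t15 : CovD 1 gE2 [(45813334016, 9163505664), (824633720832, 274877906944), (647707754496, 215902584832)] :=
  covD_split 0 (by decide +kernel) E2_c0_t16 E2_c0_t19

theorem E2_c0_t13 : CovD 1 gE2 [(45813334016, 9163505664), (824633720832, 274877906944), (431805169664, 431805169664)] :=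
  covD_split 2 (by decide +kernel) E2_c0_t14 E2_c0_t15

theorem E2_c0_t21 : CovD 1 gE2 [(41231581184, 4581752832), (824633720832, 274877906944), (1295415508992, 431805169664)] :=
  covD_split 0 (by decide +kernel) E2_c0_t22 E2_c0_t23

theorem E2_c0_t24 : CovD 1 gE2 [(50395086848, 4581752832), (824633720832, 274877906944), (1295415508992, 431805169664)] :=
  covD_split 1 (by decide +kernel) E2_c0_t25 E2_c0_t26

theorem E2_c0_t20 : CovD 1 gE2 [(45813334016, 9163505664), (824633720832, 274877906944), (1295415508992, 431805169664)] :=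
  covD_split 0 (by decide +kernel) E2_c0_t21 E2_c0_t24

theorem E2_c0_t12 : CovD 1 gE2 [(45813334016, 9163505664), (824633720832, 274877906944), (863610339328, 863610339328)] :=
  covD_split 2 (by decide +kernel) E2_c0_t13 E2_c0_t20

theorem E2_c0 : CovD 1 gE2 [(45813334016, 9163505664), (549755813888, 549755813888), (863610339328, 863610339328)] :=
  covD_split 1 (by decide +kernel) E2_c0_t1 E2_c0_t12

end Pool.Agent.helper14.NS.Q20e
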