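import Pool.Agent.helper14.NS.Q20e.PN3

/-!
Generated: certificates.
-/

namespace Pool.Agent.helper14.NS.Q20e

open Pool.Agent.helper31.IA (Z)
open Pool.Agent.helper31.IX (Op XOps runX Cov CovD cov_split covD_split)
open Pool.Agent.helper31.IC (TD)
open Pool.Agent.helper63.RG (reloc)
open Pool.Agent.helper63.NF hiding TD
open Pool.Agent.helper4.NS
open Pool.Agent.helper14.CF (xE covD_E)
open Pool.Agent.helper14.NR (share)

mutual
theorem A3_c0_t4 : CovD 1 gA3 [(41231581184, 4581752832), (137438953472, 137438953472), (2199023255552, 2199023255552)] :=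
  covD_E kA3_eq (.n 0 (.n 2 (.n 2 (.n 2 (.l 0) (.l 0)) (.n 2 (.l 0) (.l 0))) (.n 2 (.n 2 (.l 0) (.l 0)) (.n 0 (.l 0) (.l 0)))) (.n 2 (.n 2 (.n 2 (.l 0) (.l 0)) (.n 2 (.l 0) (.l 0))) (.n 2 (.n 2 (.l 0) (.l 0)) (.n 0 (.l 0) (.l 0)))))
    [(41231581184, 4581752832), (137438953472, 137438953472), (2199023255552, 2199023255552)] rfl (by decide +kernel)
theorem A3_c0_t6 : CovD 1 gA3 [(41231581184, 4581752832), (137438953472, 137438953472), (5497558138880, 1099511627776)] :=
  covD_E kA3_eq (.n 0 (.n 0 (.n 2 (.l 0) (.n 2 (.n 2 (.l 0) (.l 0)) (.n 1 (.l 1) (.n 0 (.l 1) (.l 0))))) (.n 2 (.l 0) (.n 1 (.n 2 (.l 0) (.l 1)) (.l 0)))) (.n 2 (.n 0 (.l 0) (.l 0)) (.n 2 (.l 0) (.l 0))))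
    [(41231581184, 4581752832), (137438953472, 137438953472), (5497558138880, 1099511627776)] rfl (by decide +kernel)
end

mutual
theorem A3_c0_t7 : CovD 1 gA3 [(41231581184, 4581752832), (137438953472, 137438953472), (7696581394432, 1099511627776)] :=
  covD_E kA3_eq (.n 2 (.n 0 (.n 0 (.l 1) (.l 1)) (.n 2 (.n 1 (.l 1) (.l 0)) (.l 1))) (.l 1))
    [(41231581184, 4581752832), (137438953472, 137438953472), (7696581394432, 1099511627776)] rfl (by decide +kernel)
theorem A3_c0_t9 : CovD 1 gA3 [(41231581184, 4581752832), (412316860416, 137438953472), (2199023255552, 2199023255552)] :=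
  covD_E kA3_eq (.n 2 (.n 2 (.n 2 (.l 0) (.l 0)) (.n 0 (.n 1 (.l 0) (.l 0)) (.n 1 (.l 0) (.l 0)))) (.n 0 (.n 0 (.n 2 (.l 0) (.l 0)) (.n 2 (.l 0) (.l 0))) (.n 0 (.n 2 (.l 0) (.l 0)) (.n 2 (.l 0) (.l 0)))))
    [(41231581184, 4581752832), (412316860416, 137438953472), (2199023255552, 2199023255552)] rfl (by decide +kernel)
end

mutual
theorem A3_c0_t10 : CovD 1 gA3 [(41231581184, 4581752832), (412316860416, 137438953472), (6597069766656, 2199023255552)] :=
  covD_E kA3_eq (.n 0 (.n 2 (.n 2 (.l 0) (.l 0)) (.n 2 (.n 0 (.n 1 (.n 2 (.l 0) (.l 1)) (.l 0)) (.n 2 (.l 0) (.l 0))) (.l 1))) (.n 2 (.n 2 (.l 0) (.l 0)) (.n 2 (.l 0) (.n 1 (.l 1) (.l 0)))))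
    [(41231581184, 4581752832), (412316860416, 137438953472), (6597069766656, 2199023255552)] rfl (by decide +kernel)
theorem A3_c0_t13 : CovD 1 gA3 [(38940704768, 2290876416), (687194767360, 137438953472), (4398046511104, 4398046511104)] :=
  covD_E kA3_eq (.n 2 (.n 2 (.n 2 (.l 0) (.l 0)) (.n 2 (.l 0) (.l 0))) (.n 2 (.n 2 (.l 0) (.l 0)) (.n 2 (.l 0) (.n 0 (.l 0) (.l 0)))))
    [(38940704768, 2290876416), (687194767360, 137438953472), (4398046511104, 4398046511104)] rfl (by decide +kernel)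
end

mutual
theorem A3_c0_t14 : CovD 1 gA3 [(38940704768, 2290876416), (962072674304, 137438953472), (4398046511104, 4398046511104)] :=
  covD_E kA3_eq (.n 2 (.n 2 (.n 2 (.l 0) (.l 0)) (.n 2 (.l 0) (.l 0))) (.n 2 (.n 2 (.l 0) (.l 0)) (.n 0 (.l 0) (.l 0))))
    [(38940704768, 2290876416), (962072674304, 137438953472), (4398046511104, 4398046511104)] rfl (by decide +kernel)
theorem A3_c0_t16 : CovD 1 gA3 [(43522457600, 2290876416), (687194767360, 137438953472), (4398046511104, 4398046511104)] :=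
  covD_E kA3_eq (.n 2 (.n 2 (.n 2 (.l 0) (.n 0 (.l 0) (.l 0))) (.n 2 (.l 0) (.l 0))) (.n 2 (.n 2 (.l 0) (.l 0)) (.n 2 (.l 0) (.l 0))))
    [(43522457600, 2290876416), (687194767360, 137438953472), (4398046511104, 4398046511104)] rfl (by decide +kernel)
end

mutual
theorem A3_c0_t17 : CovD 1 gA3 [(43522457600, 2290876416), (962072674304, 137438953472), (4398046511104, 4398046511104)] :=
  covD_E kA3_eq (.n 2 (.n 2 (.n 2 (.l 0) (.l 0)) (.n 2 (.l 0) (.l 0))) (.n 2 (.n 2 (.l 0) (.l 0)) (.n 0 (.l 0) (.l 0))))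
    [(43522457600, 2290876416), (962072674304, 137438953472), (4398046511104, 4398046511104)] rfl (by decide +kernel)
theorem A3_c0_t21 : CovD 1 gA3 [(50395086848, 4581752832), (137438953472, 137438953472), (2199023255552, 2199023255552)] :=
  covD_E kA3_eq (.n 2 (.n 2 (.n 2 (.l 0) (.n 0 (.l 0) (.l 0))) (.n 0 (.n 2 (.l 0) (.l 0)) (.n 2 (.l 0) (.l 0)))) (.n 0 (.n 2 (.n 2 (.l 0) (.l 0)) (.n 1 (.l 0) (.l 0))) (.n 2 (.n 2 (.l 0) (.l 0)) (.n 1 (.l 0) (.l 0)))))
    [(50395086848, 4581752832), (137438953472, 137438953472), (2199023255552, 2199023255552)] rfl (by decide +kernel)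
end

mutual
theorem A3_c0_t22 : CovD 1 gA3 [(50395086848, 4581752832), (137438953472, 137438953472), (6597069766656, 2199023255552)] :=
  covD_E kA3_eq (.n 0 (.n 2 (.n 2 (.n 0 (.l 0) (.l 0)) (.l 0)) (.n 2 (.l 0) (.n 0 (.l 1) (.l 1)))) (.n 2 (.n 2 (.n 0 (.l 0) (.l 0)) (.l 0)) (.n 2 (.l 0) (.l 0))))
    [(50395086848, 4581752832), (137438953472, 137438953472), (6597069766656, 2199023255552)] rfl (by decide +kernel)
theorem A3_c0_t24 : CovD 1 gA3 [(50395086848, 4581752832), (412316860416, 137438953472), (2199023255552, 2199023255552)] :=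
  covD_E kA3_eq (.n 2 (.n 2 (.n 2 (.l 0) (.l 0)) (.n 0 (.n 2 (.l 0) (.l 0)) (.n 2 (.l 0) (.l 0)))) (.n 0 (.n 0 (.n 2 (.l 0) (.l 0)) (.n 2 (.l 0) (.l 0))) (.n 1 (.n 2 (.l 0) (.l 0)) (.n 2 (.l 0) (.l 0)))))
    [(50395086848, 4581752832), (412316860416, 137438953472), (2199023255552, 2199023255552)] rfl (by decide +kernel)
end

mutual
theorem A3_c0_t25 : CovD 1 gA3 [(50395086848, 4581752832), (412316860416, 137438953472), (6597069766656, 2199023255552)] :=
  covD_E kA3_eq (.n 0 (.n 2 (.n 2 (.l 0) (.l 0)) (.n 2 (.l 0) (.l 0))) (.n 2 (.n 2 (.l 0) (.l 0)) (.n 2 (.l 0) (.l 0))))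
    [(50395086848, 4581752832), (412316860416, 137438953472), (6597069766656, 2199023255552)] rfl (by decide +kernel)
theorem A3_c0_t28 : CovD 1 gA3 [(50395086848, 4581752832), (687194767360, 137438953472), (2199023255552, 2199023255552)] :=
  covD_E kA3_eq (.n 2 (.n 2 (.n 2 (.l 0) (.l 0)) (.n 2 (.l 0) (.l 0))) (.n 2 (.n 2 (.l 0) (.n 0 (.l 0) (.l 0))) (.n 0 (.l 0) (.l 0))))
    [(50395086848, 4581752832), (687194767360, 137438953472), (2199023255552, 2199023255552)] rfl (by decide +kernel)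
end

mutual
theorem A3_c0_t29 : CovD 1 gA3 [(50395086848, 4581752832), (687194767360, 137438953472), (6597069766656, 2199023255552)] :=
  covD_E kA3_eq (.n 0 (.n 2 (.n 2 (.l 0) (.l 0)) (.n 2 (.l 0) (.l 0))) (.n 2 (.n 2 (.l 0) (.l 0)) (.n 2 (.l 0) (.l 0))))
    [(50395086848, 4581752832), (687194767360, 137438953472), (6597069766656, 2199023255552)] rfl (by decide +kernel)
theorem A3_c0_t30 : CovD 1 gA3 [(50395086848, 4581752832), (962072674304, 137438953472), (4398046511104, 4398046511104)] :=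
  covD_E kA3_eq (.n 0 (.n 2 (.n 2 (.n 2 (.l 0) (.l 0)) (.n 2 (.l 0) (.l 0))) (.n 2 (.n 2 (.l 0) (.l 0)) (.n 0 (.l 0) (.l 0)))) (.n 2 (.n 2 (.n 2 (.l 0) (.l 0)) (.n 2 (.l 0) (.l 0))) (.n 2 (.n 2 (.l 0) (.l 0)) (.n 0 (.l 0) (.l 0)))))
    [(50395086848, 4581752832), (962072674304, 137438953472), (4398046511104, 4398046511104)] rfl (by decide +kernel)
end

mutual
theorem B3_c0_t2 : CovD 1 gB3 [(41231581184, 4581752832), (549755813888, 549755813888), (34359738368, 34359738368)] :=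
  covD_E kB3_eq (.n 2 (.n 2 (.n 2 (.l 1) (.l 1)) (.n 2 (.l 1) (.l 1))) (.n 0 (.n 2 (.l 1) (.l 1)) (.n 2 (.l 1) (.n 0 (.l 1) (.l 1)))))
    [(41231581184, 4581752832), (549755813888, 549755813888), (34359738368, 34359738368)] rfl (by decide +kernel)
theorem B3_c0_t4 : CovD 1 gB3 [(41231581184, 4581752832), (274877906944, 274877906944), (103079215104, 34359738368)] :=
  covD_E kB3_eq (.n 2 (.n 0 (.l 1) (.l 1)) (.n 2 (.l 1) (.n 0 (.l 1) (.l 1))))
    [(41231581184, 4581752832), (274877906944, 274877906944), (103079215104, 34359738368)] rfl (by decide +kernel)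
end

mutual
theorem B3_c0_t5 : CovD 1 gB3 [(41231581184, 4581752832), (824633720832, 274877906944), (103079215104, 34359738368)] :=
  covD_E kB3_eq (.n 0 (.n 2 (.n 2 (.l 1) (.l 1)) (.n 1 (.n 2 (.l 1) (.n 0 (.l 1) (.l 1))) (.n 2 (.n 0 (.l 0) (.l 0)) (.l 0)))) (.n 2 (.n 2 (.l 1) (.n 1 (.l 1) (.l 0))) (.n 1 (.n 2 (.l 1) (.l 0)) (.n 2 (.l 0) (.l 0)))))
    [(41231581184, 4581752832), (824633720832, 274877906944), (103079215104, 34359738368)] rfl (by decide +kernel)
theorem B3_c0_t7 : CovD 1 gB3 [(50395086848, 4581752832), (549755813888, 549755813888), (34359738368, 34359738368)] :=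
  covD_E kB3_eq (.n 2 (.n 0 (.n 2 (.l 1) (.l 1)) (.n 2 (.l 1) (.n 0 (.l 1) (.l 1)))) (.n 1 (.n 2 (.l 1) (.l 1)) (.n 0 (.n 2 (.l 1) (.l 1)) (.n 2 (.l 1) (.n 1 (.l 0) (.l 0))))))
    [(50395086848, 4581752832), (549755813888, 549755813888), (34359738368, 34359738368)] rfl (by decide +kernel)
end

mutual
theorem B3_c0_t9 : CovD 1 gB3 [(50395086848, 4581752832), (274877906944, 274877906944), (103079215104, 34359738368)] :=
  covD_E kB3_eq (.n 2 (.n 2 (.l 1) (.l 1)) (.n 0 (.n 1 (.l 1) (.n 2 (.l 1) (.l 0))) (.n 1 (.n 2 (.l 1) (.l 1)) (.n 2 (.l 0) (.l 0)))))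
    [(50395086848, 4581752832), (274877906944, 274877906944), (103079215104, 34359738368)] rfl (by decide +kernel)
theorem B3_c0_t10 : CovD 1 gB3 [(50395086848, 4581752832), (824633720832, 274877906944), (103079215104, 34359738368)] :=
  covD_E kB3_eq (.n 0 (.n 1 (.n 2 (.n 2 (.l 1) (.l 0)) (.n 2 (.l 0) (.l 0))) (.n 2 (.n 2 (.l 0) (.l 0)) (.n 2 (.l 0) (.l 0)))) (.n 1 (.n 2 (.n 2 (.l 0) (.l 0)) (.n 2 (.l 0) (.l 0))) (.n 2 (.n 2 (.l 0) (.l 0)) (.n 2 (.l 0) (.l 0)))))
    [(50395086848, 4581752832), (824633720832, 274877906944), (103079215104, 34359738368)] rfl (by decide +kernel)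
end

mutual
theorem D3_c0_t3 : CovD 1 gD3 [(41231581184, 4581752832), (137438953472, 137438953472), (863610339328, 863610339328)] :=
  covD_E kD3_eq (.n 1 (.n 2 (.n 2 (.l 0) (.n 0 (.l 0) (.l 0))) (.n 1 (.n 2 (.l 0) (.l 0)) (.n 2 (.l 0) (.l 0)))) (.n 2 (.n 0 (.n 2 (.l 0) (.l 0)) (.n 2 (.l 0) (.l 0))) (.n 2 (.n 0 (.l 0) (.l 0)) (.n 2 (.l 0) (.l 0)))))
    [(41231581184, 4581752832), (137438953472, 137438953472), (863610339328, 863610339328)] rfl (by decide +kernel)
theorem D3_c0_t4 : CovD 1 gD3 [(50395086848, 4581752832), (137438953472, 137438953472), (863610339328, 863610339328)] :=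
  covD_E kD3_eq (.n 2 (.n 2 (.n 1 (.l 0) (.l 0)) (.n 2 (.l 0) (.l 0))) (.n 2 (.n 2 (.l 0) (.l 0)) (.n 2 (.l 0) (.l 0))))
    [(50395086848, 4581752832), (137438953472, 137438953472), (863610339328, 863610339328)] rfl (by decide +kernel)
end

mutual
theorem D3_c0_t6 : CovD 1 gD3 [(41231581184, 4581752832), (412316860416, 137438953472), (863610339328, 863610339328)] :=
  covD_E kD3_eq (.n 0 (.n 2 (.n 2 (.n 1 (.l 0) (.l 0)) (.n 2 (.l 0) (.l 0))) (.n 2 (.n 2 (.l 0) (.l 0)) (.n 2 (.l 0) (.l 0)))) (.n 2 (.n 1 (.n 2 (.l 0) (.l 0)) (.n 2 (.l 0) (.l 0))) (.n 2 (.n 1 (.l 0) (.l 0)) (.n 2 (.l 0) (.l 0)))))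
    [(41231581184, 4581752832), (412316860416, 137438953472), (863610339328, 863610339328)] rfl (by decide +kernel)
theorem D3_c0_t7 : CovD 1 gD3 [(50395086848, 4581752832), (412316860416, 137438953472), (863610339328, 863610339328)] :=
  covD_E kD3_eq (.n 2 (.n 2 (.n 2 (.l 0) (.l 0)) (.n 2 (.l 0) (.n 0 (.l 0) (.l 0)))) (.n 0 (.n 2 (.n 1 (.l 0) (.l 0)) (.n 2 (.l 0) (.l 0))) (.n 1 (.n 2 (.l 0) (.l 0)) (.n 2 (.l 0) (.l 0)))))
    [(50395086848, 4581752832), (412316860416, 137438953472), (863610339328, 863610339328)] rfl (by decide +kernel)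
end

mutual
theorem D3_c0_t11 : CovD 1 gD3 [(38940704768, 2290876416), (687194767360, 137438953472), (863610339328, 863610339328)] :=
  covD_E kD3_eq (.n 2 (.n 2 (.n 1 (.l 0) (.l 0)) (.n 2 (.l 0) (.l 0))) (.n 2 (.n 2 (.l 0) (.l 0)) (.n 2 (.l 0) (.n 0 (.l 0) (.l 0)))))
    [(38940704768, 2290876416), (687194767360, 137438953472), (863610339328, 863610339328)] rfl (by decide +kernel)
theorem D3_c0_t12 : CovD 1 gD3 [(43522457600, 2290876416), (687194767360, 137438953472), (863610339328, 863610339328)] :=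
  covD_E kD3_eq (.n 2 (.n 2 (.n 1 (.l 0) (.l 0)) (.n 2 (.l 0) (.l 0))) (.n 2 (.n 2 (.l 0) (.l 0)) (.n 2 (.l 0) (.l 0))))
    [(43522457600, 2290876416), (687194767360, 137438953472), (863610339328, 863610339328)] rfl (by decide +kernel)
end

mutual
theorem D3_c0_t13 : CovD 1 gD3 [(50395086848, 4581752832), (687194767360, 137438953472), (863610339328, 863610339328)] :=
  covD_E kD3_eq (.n 2 (.n 2 (.n 2 (.l 0) (.n 0 (.l 0) (.l 0))) (.n 0 (.n 1 (.l 0) (.l 0)) (.n 1 (.l 0) (.l 0)))) (.n 0 (.n 2 (.n 2 (.l 0) (.l 0)) (.n 2 (.l 0) (.l 0))) (.n 2 (.n 1 (.l 0) (.l 0)) (.n 2 (.l 0) (.l 0)))))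
    [(50395086848, 4581752832), (687194767360, 137438953472), (863610339328, 863610339328)] rfl (by decide +kernel)
theorem D3_c0_t16 : CovD 1 gD3 [(38940704768, 2290876416), (962072674304, 137438953472), (863610339328, 863610339328)] :=
  covD_E kD3_eq (.n 2 (.n 2 (.n 2 (.l 0) (.l 0)) (.n 0 (.n 1 (.l 0) (.l 0)) (.n 1 (.l 0) (.l 0)))) (.n 0 (.n 2 (.n 2 (.l 0) (.l 0)) (.n 2 (.l 0) (.l 0))) (.n 2 (.n 1 (.l 0) (.l 0)) (.n 2 (.l 0) (.l 0)))))
    [(38940704768, 2290876416), (962072674304, 137438953472), (863610339328, 863610339328)] rfl (by decide +kernel)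
end

mutual
theorem D3_c0_t17 : CovD 1 gD3 [(43522457600, 2290876416), (962072674304, 137438953472), (863610339328, 863610339328)] :=
  covD_E kD3_eq (.n 2 (.n 2 (.n 1 (.l 0) (.l 0)) (.n 2 (.l 0) (.l 0))) (.n 2 (.n 2 (.l 0) (.l 0)) (.n 2 (.l 0) (.l 0))))
    [(43522457600, 2290876416), (962072674304, 137438953472), (863610339328, 863610339328)] rfl (by decide +kernel)
theorem D3_c0_t18 : CovD 1 gD3 [(50395086848, 4581752832), (962072674304, 137438953472), (863610339328, 863610339328)] :=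
  covD_E kD3_eq (.n 0 (.n 2 (.n 2 (.n 1 (.l 0) (.l 0)) (.n 2 (.l 0) (.l 0))) (.n 2 (.n 2 (.l 0) (.l 0)) (.n 2 (.l 0) (.l 0)))) (.n 2 (.n 1 (.n 2 (.l 0) (.l 0)) (.n 2 (.l 0) (.l 0))) (.n 2 (.n 2 (.l 0) (.l 0)) (.n 2 (.l 0) (.l 0)))))
    [(50395086848, 4581752832), (962072674304, 137438953472), (863610339328, 863610339328)] rfl (by decide +kernel)
end

mutual
theorem E3_c0_t3 : CovD 1 gE3 [(41231581184, 4581752832), (274877906944, 274877906944), (431805169664, 431805169664)] :=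
  covD_E kE3_eq (.n 2 (.n 2 (.l 1) (.l 1)) (.n 1 (.n 2 (.l 1) (.n 1 (.n 2 (.n 0 (.l 0) (.l 1)) (.l 0)) (.n 2 (.l 1) (.l 0)))) (.n 2 (.l 1) (.n 0 (.n 2 (.l 1) (.n 0 (.l 0) (.l 0))) (.l 1)))))
    [(41231581184, 4581752832), (274877906944, 274877906944), (431805169664, 431805169664)] rfl (by decide +kernel)
theorem E3_c0_t5 : CovD 1 gE3 [(41231581184, 4581752832), (137438953472, 137438953472), (1295415508992, 431805169664)] :=
  covD_E kE3_eq (.n 1 (.n 2 (.n 2 (.n 0 (.l 0) (.l 0)) (.l 0)) (.n 2 (.l 0) (.l 0))) (.n 2 (.n 2 (.n 0 (.l 0) (.l 0)) (.l 0)) (.n 2 (.l 0) (.l 0))))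
    [(41231581184, 4581752832), (137438953472, 137438953472), (1295415508992, 431805169664)] rfl (by decide +kernel)
end

mutual
theorem E3_c0_t6 : CovD 1 gE3 [(41231581184, 4581752832), (412316860416, 137438953472), (1295415508992, 431805169664)] :=
  covD_E kE3_eq (.n 1 (.n 2 (.n 2 (.n 0 (.l 0) (.l 0)) (.l 0)) (.n 2 (.l 0) (.l 0))) (.n 2 (.n 2 (.n 2 (.l 0) (.l 0)) (.n 0 (.l 0) (.l 0))) (.n 2 (.l 0) (.l 0))))
    [(41231581184, 4581752832), (412316860416, 137438953472), (1295415508992, 431805169664)] rfl (by decide +kernel)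
theorem E3_c0_t8 : CovD 1 gE3 [(50395086848, 4581752832), (274877906944, 274877906944), (431805169664, 431805169664)] :=
  covD_E kE3_eq (.n 2 (.n 2 (.l 1) (.l 1)) (.n 2 (.l 1) (.n 1 (.l 1) (.l 1))))
    [(50395086848, 4581752832), (274877906944, 274877906944), (431805169664, 431805169664)] rfl (by decide +kernel)
end

mutual
theorem E3_c0_t10 : CovD 1 gE3 [(48104210432, 2290876416), (274877906944, 274877906944), (1295415508992, 431805169664)] :=
  covD_E kE3_eq (.n 1 (.n 2 (.n 2 (.n 2 (.l 1) (.l 0)) (.n 0 (.l 0) (.l 0))) (.n 2 (.l 0) (.l 0))) (.n 2 (.n 2 (.n 2 (.l 1) (.l 0)) (.n 1 (.l 0) (.l 0))) (.n 2 (.l 0) (.l 0))))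
    [(48104210432, 2290876416), (274877906944, 274877906944), (1295415508992, 431805169664)] rfl (by decide +kernel)
theorem E3_c0_t11 : CovD 1 gE3 [(52685963264, 2290876416), (274877906944, 274877906944), (1295415508992, 431805169664)] :=
  covD_E kE3_eq (.n 1 (.n 2 (.n 2 (.l 1) (.n 1 (.l 0) (.l 0))) (.n 2 (.l 0) (.l 0))) (.n 2 (.n 2 (.l 1) (.n 2 (.l 1) (.l 0))) (.n 2 (.n 0 (.l 0) (.l 0)) (.l 0))))
    [(52685963264, 2290876416), (274877906944, 274877906944), (1295415508992, 431805169664)] rfl (by decide +kernel)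
end

mutual
theorem E3_c0_t13 : CovD 1 gE3 [(45813334016, 9163505664), (824633720832, 274877906944), (431805169664, 431805169664)] :=
  covD_E kE3_eq (.n 2 (.n 2 (.n 2 (.l 1) (.l 1)) (.n 2 (.l 1) (.l 1))) (.n 0 (.n 1 (.n 2 (.l 1) (.n 0 (.n 0 (.n 2 (.l 1) (.l 0)) (.l 1)) (.l 1))) (.n 2 (.l 1) (.n 0 (.l 1) (.l 1)))) (.n 0 (.n 2 (.l 1) (.l 1)) (.n 2 (.l 1) (.l 1)))))
    [(45813334016, 9163505664), (824633720832, 274877906944), (431805169664, 431805169664)] rfl (by decide +kernel)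
theorem E3_c0_t17 : CovD 1 gE3 [(38940704768, 2290876416), (687194767360, 137438953472), (1295415508992, 431805169664)] :=
  covD_E kE3_eq (.n 2 (.n 2 (.n 2 (.l 0) (.l 0)) (.n 1 (.l 0) (.l 0))) (.n 0 (.n 2 (.l 0) (.l 0)) (.n 2 (.l 0) (.l 0))))
    [(38940704768, 2290876416), (687194767360, 137438953472), (1295415508992, 431805169664)] rfl (by decide +kernel)
end

mutual
theorem E3_c0_t18 : CovD 1 gE3 [(38940704768, 2290876416), (962072674304, 137438953472), (1295415508992, 431805169664)] :=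
  covD_E kE3_eq (.n 1 (.n 2 (.n 2 (.n 0 (.l 0) (.l 0)) (.l 0)) (.n 2 (.l 0) (.l 0))) (.n 2 (.n 2 (.n 2 (.l 0) (.l 0)) (.l 0)) (.n 2 (.l 0) (.l 0))))
    [(38940704768, 2290876416), (962072674304, 137438953472), (1295415508992, 431805169664)] rfl (by decide +kernel)
theorem E3_c0_t19 : CovD 1 gE3 [(43522457600, 2290876416), (824633720832, 274877906944), (1295415508992, 431805169664)] :=
  covD_E kE3_eq (.n 1 (.n 2 (.n 2 (.n 2 (.l 1) (.l 0)) (.n 1 (.l 0) (.l 0))) (.n 2 (.n 0 (.l 0) (.l 0)) (.l 0))) (.n 2 (.n 2 (.n 1 (.l 1) (.l 1)) (.n 2 (.l 0) (.l 0))) (.n 0 (.n 2 (.l 0) (.l 0)) (.n 2 (.l 0) (.l 0)))))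
    [(43522457600, 2290876416), (824633720832, 274877906944), (1295415508992, 431805169664)] rfl (by decide +kernel)
end

mutual
theorem E3_c0_t21 : CovD 1 gE3 [(50395086848, 4581752832), (687194767360, 137438953472), (1295415508992, 431805169664)] :=
  covD_E kE3_eq (.n 2 (.n 2 (.l 1) (.n 0 (.n 2 (.l 0) (.l 0)) (.l 1))) (.n 0 (.n 2 (.n 0 (.l 0) (.l 0)) (.l 0)) (.n 2 (.n 1 (.l 0) (.l 0)) (.l 0))))
    [(50395086848, 4581752832), (687194767360, 137438953472), (1295415508992, 431805169664)] rfl (by decide +kernel)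
theorem E3_c0_t22 : CovD 1 gE3 [(50395086848, 4581752832), (962072674304, 137438953472), (1295415508992, 431805169664)] :=
  covD_E kE3_eq (.n 2 (.n 2 (.l 1) (.n 0 (.n 0 (.n 1 (.l 0) (.l 1)) (.l 1)) (.l 1))) (.n 0 (.n 2 (.n 1 (.l 0) (.l 0)) (.l 0)) (.n 2 (.n 2 (.l 1) (.l 0)) (.n 0 (.l 0) (.l 0)))))
    [(50395086848, 4581752832), (962072674304, 137438953472), (1295415508992, 431805169664)] rfl (by decide +kernel)
end

theorem A3_c0_t5 : CovD 1 gA3 [(41231581184, 4581752832), (137438953472, 137438953472), (6597069766656, 2199023255552)] :=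
  covD_split 2 (by decide +kernel) A3_c0_t6 A3_c0_t7

theorem A3_c0_t3 : CovD 1 gA3 [(41231581184, 4581752832), (137438953472, 137438953472), (4398046511104, 4398046511104)] :=
  covD_split 2 (by decide +kernel) A3_c0_t4 A3_c0_t5

theorem A3_c0_t8 : CovD 1 gA3 [(41231581184, 4581752832), (412316860416, 137438953472), (4398046511104, 4398046511104)] :=
  covD_split 2 (by decide +kernel) A3_c0_t9 A3_c0_t10

theorem A3_c0_t2 : CovD 1 gA3 [(41231581184, 4581752832), (274877906944, 274877906944), (4398046511104, 4398046511104)] :=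
  covD_split 1 (by decide +kernel) A3_c0_t3 A3_c0_t8

theorem A3_c0_t12 : CovD 1 gA3 [(38940704768, 2290876416), (824633720832, 274877906944), (4398046511104, 4398046511104)] :=
  covD_split 1 (by decide +kernel) A3_c0_t13 A3_c0_t14

theorem A3_c0_t15 : CovD 1 gA3 [(43522457600, 2290876416), (824633720832, 274877906944), (4398046511104, 4398046511104)] :=
  covD_split 1 (by decide +kernel) A3_c0_t16 A3_c0_t17

theorem A3_c0_t11 : CovD 1 gA3 [(41231581184, 4581752832), (824633720832, 274877906944), (4398046511104, 4398046511104)] :=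
  covD_split 0 (by decide +kernel) A3_c0_t12 A3_c0_t15

theorem A3_c0_t1 : CovD 1 gA3 [(41231581184, 4581752832), (549755813888, 549755813888), (4398046511104, 4398046511104)] :=
  covD_split 1 (by decide +kernel) A3_c0_t2 A3_c0_t11

theorem A3_c0_t20 : CovD 1 gA3 [(50395086848, 4581752832), (137438953472, 137438953472), (4398046511104, 4398046511104)] :=
  covD_split 2 (by decide +kernel) A3_c0_t21 A3_c0_t22

theorem A3_c0_t23 : CovD 1 gA3 [(50395086848, 4581752832), (412316860416, 137438953472), (4398046511104, 4398046511104)] :=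
  covD_split 2 (by decide +kernel) A3_c0_t24 A3_c0_t25

theorem A3_c0_t19 : CovD 1 gA3 [(50395086848, 4581752832), (274877906944, 274877906944), (4398046511104, 4398046511104)] :=
  covD_split 1 (by decide +kernel) A3_c0_t20 A3_c0_t23

theorem A3_c0_t27 : CovD 1 gA3 [(50395086848, 4581752832), (687194767360, 137438953472), (4398046511104, 4398046511104)] :=
  covD_split 2 (by decide +kernel) A3_c0_t28 A3_c0_t29

theorem A3_c0_t26 : CovD 1 gA3 [(50395086848, 4581752832), (824633720832, 274877906944), (4398046511104, 4398046511104)] :=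
  covD_split 1 (by decide +kernel) A3_c0_t27 A3_c0_t30

theorem A3_c0_t18 : CovD 1 gA3 [(50395086848, 4581752832), (549755813888, 549755813888), (4398046511104, 4398046511104)] :=
  covD_split 1 (by decide +kernel) A3_c0_t19 A3_c0_t26

theorem A3_c0 : CovD 1 gA3 [(45813334016, 9163505664), (549755813888, 549755813888), (4398046511104, 4398046511104)] :=
  covD_split 0 (by decide +kernel) A3_c0_t1 A3_c0_t18

theorem B3_c0_t3 : CovD 1 gB3 [(41231581184, 4581752832), (549755813888, 549755813888), (103079215104, 34359738368)] :=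
  covD_split 1 (by decide +kernel) B3_c0_t4 B3_c0_t5

theorem B3_c0_t1 : CovD 1 gB3 [(41231581184, 4581752832), (549755813888, 549755813888), (68719476736, 68719476736)] :=
  covD_split 2 (by decide +kernel) B3_c0_t2 B3_c0_t3

theorem B3_c0_t8 : CovD 1 gB3 [(50395086848, 4581752832), (549755813888, 549755813888), (103079215104, 34359738368)] :=
  covD_split 1 (by decide +kernel) B3_c0_t9 B3_c0_t10

theorem B3_c0_t6 : CovD 1 gB3 [(50395086848, 4581752832), (549755813888, 549755813888), (68719476736, 68719476736)] :=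
  covD_split 2 (by decide +kernel) B3_c0_t7 B3_c0_t8

theorem B3_c0 : CovD 1 gB3 [(45813334016, 9163505664), (549755813888, 549755813888), (68719476736, 68719476736)] :=
  covD_split 0 (by decide +kernel) B3_c0_t1 B3_c0_t6

theorem D3_c0_t2 : CovD 1 gD3 [(45813334016, 9163505664), (137438953472, 137438953472), (863610339328, 863610339328)] :=
  covD_split 0 (by decide +kernel) D3_c0_t3 D3_c0_t4

theorem D3_c0_t5 : CovD 1 gD3 [(45813334016, 9163505664), (412316860416, 137438953472), (863610339328, 863610339328)] :=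
  covD_split 0 (by decide +kernel) D3_c0_t6 D3_c0_t7

theorem D3_c0_t1 : CovD 1 gD3 [(45813334016, 9163505664), (274877906944, 274877906944), (863610339328, 863610339328)] :=
  covD_split 1 (by decide +kernel) D3_c0_t2 D3_c0_t5

theorem D3_c0_t10 : CovD 1 gD3 [(41231581184, 4581752832), (687194767360, 137438953472), (863610339328, 863610339328)] :=
  covD_split 0 (by decide +kernel) D3_c0_t11 D3_c0_t12

theorem D3_c0_t9 : CovD 1 gD3 [(45813334016, 9163505664), (687194767360, 137438953472), (863610339328, 863610339328)] :=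
  covD_split 0 (by decide +kernel) D3_c0_t10 D3_c0_t13

theorem D3_c0_t15 : CovD 1 gD3 [(41231581184, 4581752832), (962072674304, 137438953472), (863610339328, 863610339328)] :=
  covD_split 0 (by decide +kernel) D3_c0_t16 D3_c0_t17

theorem D3_c0_t14 : CovD 1 gD3 [(45813334016, 9163505664), (962072674304, 137438953472), (863610339328, 863610339328)] :=
  covD_split 0 (by decide +kernel) D3_c0_t15 D3_c0_t18

theorem D3_c0_t8 : CovD 1 gD3 [(45813334016, 9163505664), (824633720832, 274877906944), (863610339328, 863610339328)] :=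
  covD_split 1 (by decide +kernel) D3_c0_t9 D3_c0_t14

theorem D3_c0 : CovD 1 gD3 [(45813334016, 9163505664), (549755813888, 549755813888), (863610339328, 863610339328)] :=
  covD_split 1 (by decide +kernel) D3_c0_t1 D3_c0_t8

theorem E3_c0_t4 : CovD 1 gE3 [(41231581184, 4581752832), (274877906944, 274877906944), (1295415508992, 431805169664)] :=
  covD_split 1 (by decide +kernel) E3_c0_t5 E3_c0_t6

theorem E3_c0_t2 : CovD 1 gE3 [(41231581184, 4581752832), (274877906944, 274877906944), (863610339328, 863610339328)] :=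
  covD_split 2 (by decide +kernel) E3_c0_t3 E3_c0_t4

theorem E3_c0_t9 : CovD 1 gE3 [(50395086848, 4581752832), (274877906944, 274877906944), (1295415508992, 431805169664)] :=
  covD_split 0 (by decide +kernel) E3_c0_t10 E3_c0_t11

theorem E3_c0_t7 : CovD 1 gE3 [(50395086848, 4581752832), (274877906944, 274877906944), (863610339328, 863610339328)] :=
  covD_split 2 (by decide +kernel) E3_c0_t8 E3_c0_t9

theorem E3_c0_t1 : CovD 1 gE3 [(45813334016, 9163505664), (274877906944, 274877906944), (863610339328, 863610339328)] :=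
  covD_split 0 (by decide +kernel) E3_c0_t2 E3_c0_t7

theorem E3_c0_t16 : CovD 1 gE3 [(38940704768, 2290876416), (824633720832, 274877906944), (1295415508992, 431805169664)] :=
  covD_split 1 (by decide +kernel) E3_c0_t17 E3_c0_t18

theorem E3_c0_t15 : CovD 1 gE3 [(41231581184, 4581752832), (824633720832, 274877906944), (1295415508992, 431805169664)] :=
  covD_split 0 (by decide +kernel) E3_c0_t16 E3_c0_t19

theorem E3_c0_t20 : CovD 1 gE3 [(50395086848, 4581752832), (824633720832, 274877906944), (1295415508992, 431805169664)] :=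
  covD_split 1 (by decide +kernel) E3_c0_t21 E3_c0_t22

theorem E3_c0_t14 : CovD 1 gE3 [(45813334016, 9163505664), (824633720832, 274877906944), (1295415508992, 431805169664)] :=
  covD_split 0 (by decide +kernel) E3_c0_t15 E3_c0_t20

theorem E3_c0_t12 : CovD 1 gE3 [(45813334016, 9163505664), (824633720832, 274877906944), (863610339328, 863610339328)] :=
  covD_split 2 (by decide +kernel) E3_c0_t13 E3_c0_t14

theorem E3_c0 : CovD 1 gE3 [(45813334016, 9163505664), (549755813888, 549755813888), (863610339328, 863610339328)] :=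
  covD_split 1 (by decide +kernel) E3_c0_t1 E3_c0_t12

end Pool.Agent.helper14.NS.Q20e
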