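import Pool.Agent.helper14.NS.Q20e.PN4

/-!
Generated: certificates.
-/

namespace Pool.Agent.helper14.NS.Q20e

open Pool.Agent.helper31.IA (Z)
open Pool.Agent.helper31.IX (Op XOps runX Cov CovD cov_split covD_split)
open Pool.Agent.helper31.IC (TD)
open Pool.Agent.helper63.RG (reloc)
open Pool.Agent.helper63.NF hiding TD
open Pool.Agent.helper4.NS
open Pool.Agent.helper14.CF (xE covD_E)
open Pool.Agent.helper14.NR (share)

mutual
theorem A4_c0_t5 : CovD 1 gA4 [(38940704768, 2290876416), (137438953472, 137438953472), (2199023255552, 2199023255552)] :=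
  covD_E kA4_eq (.n 2 (.n 2 (.n 1 (.l 0) (.l 0)) (.n 2 (.l 0) (.l 0))) (.n 1 (.n 2 (.l 0) (.l 0)) (.n 2 (.l 0) (.l 0))))
    [(38940704768, 2290876416), (137438953472, 137438953472), (2199023255552, 2199023255552)] rfl (by decide +kernel)
theorem A4_c0_t6 : CovD 1 gA4 [(38940704768, 2290876416), (137438953472, 137438953472), (6597069766656, 2199023255552)] :=
  covD_E kA4_eq (.n 0 (.n 2 (.n 2 (.l 0) (.l 0)) (.n 1 (.n 2 (.n 2 (.l 0) (.n 1 (.l 1) (.l 0))) (.l 1)) (.n 2 (.l 0) (.n 0 (.n 2 (.l 0) (.l 1)) (.l 0))))) (.n 2 (.n 2 (.l 0) (.l 0)) (.n 2 (.l 0) (.n 1 (.n 2 (.l 0) (.l 1)) (.l 0)))))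
    [(38940704768, 2290876416), (137438953472, 137438953472), (6597069766656, 2199023255552)] rfl (by decide +kernel)
end

mutual
theorem A4_c0_t7 : CovD 1 gA4 [(38940704768, 2290876416), (412316860416, 137438953472), (4398046511104, 4398046511104)] :=
  covD_E kA4_eq (.n 2 (.n 0 (.n 2 (.n 2 (.l 0) (.l 0)) (.n 2 (.l 0) (.l 0))) (.n 2 (.n 2 (.l 0) (.l 0)) (.n 2 (.l 0) (.l 0)))) (.n 2 (.n 2 (.n 0 (.l 0) (.l 0)) (.l 0)) (.n 2 (.l 0) (.l 0))))
    [(38940704768, 2290876416), (412316860416, 137438953472), (4398046511104, 4398046511104)] rfl (by decide +kernel)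
theorem A4_c0_t8 : CovD 1 gA4 [(38940704768, 2290876416), (824633720832, 274877906944), (4398046511104, 4398046511104)] :=
  covD_E kA4_eq (.n 1 (.n 2 (.n 2 (.n 2 (.l 0) (.l 0)) (.n 2 (.l 0) (.l 0))) (.n 2 (.n 2 (.l 0) (.l 0)) (.n 2 (.l 0) (.l 0)))) (.n 2 (.n 2 (.n 2 (.l 0) (.l 0)) (.n 2 (.l 0) (.l 0))) (.n 2 (.n 2 (.l 0) (.l 0)) (.n 0 (.l 0) (.l 0)))))
    [(38940704768, 2290876416), (824633720832, 274877906944), (4398046511104, 4398046511104)] rfl (by decide +kernel)
end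

mutual
theorem A4_c0_t11 : CovD 1 gA4 [(43522457600, 2290876416), (137438953472, 137438953472), (4398046511104, 4398046511104)] :=
  covD_E kA4_eq (.n 2 (.n 2 (.n 2 (.n 1 (.l 0) (.l 0)) (.n 2 (.l 0) (.l 0))) (.n 1 (.n 2 (.l 0) (.l 0)) (.n 2 (.l 0) (.l 0)))) (.n 2 (.n 2 (.n 0 (.l 0) (.l 0)) (.l 0)) (.n 2 (.l 0) (.l 0))))
    [(43522457600, 2290876416), (137438953472, 137438953472), (4398046511104, 4398046511104)] rfl (by decide +kernel)
theorem A4_c0_t12 : CovD 1 gA4 [(43522457600, 2290876416), (412316860416, 137438953472), (4398046511104, 4398046511104)] :=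
  covD_E kA4_eq (.n 2 (.n 0 (.n 2 (.n 2 (.l 0) (.l 0)) (.n 2 (.l 0) (.l 0))) (.n 2 (.n 2 (.l 0) (.l 0)) (.n 2 (.l 0) (.l 0)))) (.n 2 (.n 2 (.l 0) (.l 0)) (.n 2 (.l 0) (.l 0))))
    [(43522457600, 2290876416), (412316860416, 137438953472), (4398046511104, 4398046511104)] rfl (by decide +kernel)
end

mutual
theorem A4_c0_t13 : CovD 1 gA4 [(43522457600, 2290876416), (824633720832, 274877906944), (4398046511104, 4398046511104)] :=
  covD_E kA4_eq (.n 1 (.n 2 (.n 2 (.n 2 (.l 0) (.l 0)) (.n 2 (.l 0) (.l 0))) (.n 2 (.n 2 (.l 0) (.l 0)) (.n 1 (.l 0) (.l 0)))) (.n 2 (.n 2 (.n 2 (.l 0) (.l 0)) (.n 2 (.l 0) (.l 0))) (.n 2 (.n 2 (.l 0) (.l 0)) (.n 0 (.l 0) (.l 0)))))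
    [(43522457600, 2290876416), (824633720832, 274877906944), (4398046511104, 4398046511104)] rfl (by decide +kernel)
theorem A4_c0_t17 : CovD 1 gA4 [(48104210432, 2290876416), (137438953472, 137438953472), (4398046511104, 4398046511104)] :=
  covD_E kA4_eq (.n 2 (.n 2 (.n 2 (.n 2 (.l 0) (.l 0)) (.n 2 (.l 0) (.l 0))) (.n 1 (.n 2 (.l 0) (.l 0)) (.n 2 (.l 0) (.l 0)))) (.n 2 (.n 2 (.n 0 (.l 0) (.l 0)) (.l 0)) (.n 2 (.l 0) (.l 0))))
    [(48104210432, 2290876416), (137438953472, 137438953472), (4398046511104, 4398046511104)] rfl (by decide +kernel)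
end

mutual
theorem A4_c0_t18 : CovD 1 gA4 [(52685963264, 2290876416), (137438953472, 137438953472), (4398046511104, 4398046511104)] :=
  covD_E kA4_eq (.n 2 (.n 2 (.n 2 (.n 2 (.l 0) (.l 0)) (.n 2 (.l 0) (.l 0))) (.n 1 (.n 2 (.l 0) (.l 0)) (.n 2 (.l 0) (.l 0)))) (.n 2 (.n 2 (.n 0 (.l 0) (.l 0)) (.l 0)) (.n 2 (.l 0) (.l 0))))
    [(52685963264, 2290876416), (137438953472, 137438953472), (4398046511104, 4398046511104)] rfl (by decide +kernel)
theorem A4_c0_t20 : CovD 1 gA4 [(50395086848, 4581752832), (412316860416, 137438953472), (2199023255552, 2199023255552)] :=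
  covD_E kA4_eq (.n 2 (.n 2 (.n 2 (.l 0) (.n 0 (.l 0) (.l 0))) (.n 0 (.n 0 (.l 0) (.l 0)) (.n 0 (.l 0) (.l 0)))) (.n 0 (.n 0 (.n 2 (.l 0) (.l 0)) (.n 2 (.l 0) (.l 0))) (.n 0 (.n 2 (.l 0) (.l 0)) (.n 2 (.l 0) (.l 0)))))
    [(50395086848, 4581752832), (412316860416, 137438953472), (2199023255552, 2199023255552)] rfl (by decide +kernel)
end

mutual
theorem A4_c0_t21 : CovD 1 gA4 [(50395086848, 4581752832), (412316860416, 137438953472), (6597069766656, 2199023255552)] :=
  covD_E kA4_eq (.n 0 (.n 2 (.n 2 (.l 0) (.l 0)) (.n 2 (.l 0) (.l 0))) (.n 2 (.n 2 (.l 0) (.l 0)) (.n 1 (.l 0) (.l 0))))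
    [(50395086848, 4581752832), (412316860416, 137438953472), (6597069766656, 2199023255552)] rfl (by decide +kernel)
theorem A4_c0_t23 : CovD 1 gA4 [(48104210432, 2290876416), (824633720832, 274877906944), (4398046511104, 4398046511104)] :=
  covD_E kA4_eq (.n 1 (.n 2 (.n 2 (.n 2 (.l 0) (.l 0)) (.n 2 (.l 0) (.l 0))) (.n 2 (.n 2 (.l 0) (.l 0)) (.n 0 (.l 0) (.l 0)))) (.n 2 (.n 2 (.n 2 (.l 0) (.l 0)) (.n 2 (.l 0) (.l 0))) (.n 2 (.n 2 (.l 0) (.l 0)) (.n 0 (.l 0) (.l 0)))))
    [(48104210432, 2290876416), (824633720832, 274877906944), (4398046511104, 4398046511104)] rfl (by decide +kernel)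
end

mutual
theorem A4_c0_t25 : CovD 1 gA4 [(52685963264, 2290876416), (687194767360, 137438953472), (4398046511104, 4398046511104)] :=
  covD_E kA4_eq (.n 2 (.n 2 (.n 0 (.n 2 (.l 0) (.l 0)) (.n 2 (.l 0) (.l 0))) (.n 2 (.l 0) (.l 0))) (.n 2 (.n 2 (.l 0) (.l 0)) (.n 0 (.l 0) (.l 0))))
    [(52685963264, 2290876416), (687194767360, 137438953472), (4398046511104, 4398046511104)] rfl (by decide +kernel)
theorem A4_c0_t26 : CovD 1 gA4 [(52685963264, 2290876416), (962072674304, 137438953472), (4398046511104, 4398046511104)] :=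
  covD_E kA4_eq (.n 2 (.n 2 (.n 2 (.l 0) (.l 0)) (.n 2 (.l 0) (.l 0))) (.n 2 (.n 2 (.l 0) (.l 0)) (.n 0 (.l 0) (.l 0))))
    [(52685963264, 2290876416), (962072674304, 137438953472), (4398046511104, 4398046511104)] rfl (by decide +kernel)
end

mutual
theorem B4_c0_t4 : CovD 1 gB4 [(38940704768, 2290876416), (274877906944, 274877906944), (34359738368, 34359738368)] :=
  covD_E kB4_eq (.n 2 (.n 2 (.l 1) (.l 1)) (.n 2 (.l 1) (.l 1)))
    [(38940704768, 2290876416), (274877906944, 274877906944), (34359738368, 34359738368)] rfl (by decide +kernel)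
theorem B4_c0_t5 : CovD 1 gB4 [(38940704768, 2290876416), (274877906944, 274877906944), (103079215104, 34359738368)] :=
  covD_E kB4_eq (.n 2 (.n 2 (.n 2 (.l 1) (.l 1)) (.n 1 (.l 1) (.n 0 (.l 1) (.n 1 (.l 1) (.l 0))))) (.n 1 (.n 2 (.l 1) (.n 0 (.l 1) (.n 1 (.l 1) (.n 1 (.l 1) (.l 0))))) (.n 2 (.n 0 (.n 1 (.l 1) (.l 0)) (.l 0)) (.n 2 (.l 0) (.l 0)))))
    [(38940704768, 2290876416), (274877906944, 274877906944), (103079215104, 34359738368)] rfl (by decide +kernel)
end

mutual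
theorem B4_c0_t7 : CovD 1 gB4 [(38940704768, 2290876416), (687194767360, 137438953472), (68719476736, 68719476736)] :=
  covD_E kB4_eq (.n 2 (.n 2 (.n 2 (.n 0 (.l 1) (.l 1)) (.n 2 (.l 1) (.l 1))) (.n 0 (.n 2 (.l 1) (.n 1 (.l 1) (.l 0))) (.n 2 (.l 0) (.l 0)))) (.n 2 (.n 2 (.n 0 (.l 0) (.l 0)) (.l 0)) (.n 2 (.l 0) (.l 0))))
    [(38940704768, 2290876416), (687194767360, 137438953472), (68719476736, 68719476736)] rfl (by decide +kernel)
theorem B4_c0_t8 : CovD 1 gB4 [(38940704768, 2290876416), (962072674304, 137438953472), (68719476736, 68719476736)] :=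
  covD_E kB4_eq (.n 2 (.n 0 (.n 2 (.n 2 (.l 0) (.l 0)) (.n 2 (.l 0) (.l 0))) (.n 2 (.n 2 (.l 0) (.l 0)) (.n 2 (.l 0) (.l 0)))) (.n 2 (.n 2 (.l 0) (.l 0)) (.n 2 (.l 0) (.l 0))))
    [(38940704768, 2290876416), (962072674304, 137438953472), (68719476736, 68719476736)] rfl (by decide +kernel)
end

mutual
theorem B4_c0_t11 : CovD 1 gB4 [(43522457600, 2290876416), (274877906944, 274877906944), (34359738368, 34359738368)] :=
  covD_E kB4_eq (.n 2 (.n 2 (.l 1) (.n 2 (.l 1) (.l 1))) (.n 2 (.n 2 (.l 1) (.l 1)) (.n 1 (.l 1) (.n 1 (.l 1) (.l 0)))))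
    [(43522457600, 2290876416), (274877906944, 274877906944), (34359738368, 34359738368)] rfl (by decide +kernel)
theorem B4_c0_t12 : CovD 1 gB4 [(43522457600, 2290876416), (274877906944, 274877906944), (103079215104, 34359738368)] :=
  covD_E kB4_eq (.n 1 (.n 2 (.n 2 (.l 1) (.n 2 (.l 1) (.l 1))) (.n 1 (.n 2 (.n 2 (.l 1) (.l 1)) (.n 0 (.n 0 (.l 1) (.l 0)) (.l 0))) (.n 2 (.l 0) (.l 0)))) (.n 2 (.n 2 (.n 2 (.l 0) (.l 0)) (.l 0)) (.n 1 (.l 0) (.l 0))))
    [(43522457600, 2290876416), (274877906944, 274877906944), (103079215104, 34359738368)] rfl (by decide +kernel)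
end

mutual
theorem B4_c0_t13 : CovD 1 gB4 [(43522457600, 2290876416), (824633720832, 274877906944), (68719476736, 68719476736)] :=
  covD_E kB4_eq (.n 1 (.n 2 (.n 2 (.n 2 (.l 0) (.l 0)) (.n 2 (.l 0) (.l 0))) (.n 2 (.n 2 (.l 0) (.l 0)) (.n 1 (.l 0) (.l 0)))) (.n 2 (.n 2 (.n 2 (.l 0) (.l 0)) (.n 2 (.l 0) (.l 0))) (.n 2 (.n 2 (.l 0) (.l 0)) (.n 1 (.l 0) (.l 0)))))
    [(43522457600, 2290876416), (824633720832, 274877906944), (68719476736, 68719476736)] rfl (by decide +kernel)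
theorem B4_c0_t17 : CovD 1 gB4 [(48104210432, 2290876416), (137438953472, 137438953472), (68719476736, 68719476736)] :=
  covD_E kB4_eq (.n 2 (.n 2 (.n 2 (.l 1) (.l 1)) (.n 0 (.n 2 (.l 1) (.l 1)) (.n 2 (.l 0) (.l 0)))) (.n 2 (.n 2 (.n 2 (.l 0) (.l 0)) (.l 0)) (.n 1 (.l 0) (.l 0))))
    [(48104210432, 2290876416), (137438953472, 137438953472), (68719476736, 68719476736)] rfl (by decide +kernel)
end

mutual
theorem B4_c0_t18 : CovD 1 gB4 [(48104210432, 2290876416), (412316860416, 137438953472), (68719476736, 68719476736)] :=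
  covD_E kB4_eq (.n 2 (.n 2 (.n 2 (.l 0) (.l 0)) (.n 2 (.l 0) (.l 0))) (.n 2 (.n 2 (.l 0) (.l 0)) (.n 0 (.l 0) (.l 0))))
    [(48104210432, 2290876416), (412316860416, 137438953472), (68719476736, 68719476736)] rfl (by decide +kernel)
theorem B4_c0_t19 : CovD 1 gB4 [(48104210432, 2290876416), (824633720832, 274877906944), (68719476736, 68719476736)] :=
  covD_E kB4_eq (.n 1 (.n 2 (.n 2 (.n 2 (.l 0) (.l 0)) (.n 2 (.l 0) (.l 0))) (.n 2 (.n 2 (.l 0) (.l 0)) (.n 0 (.l 0) (.l 0)))) (.n 2 (.n 2 (.n 2 (.l 0) (.l 0)) (.n 2 (.l 0) (.l 0))) (.n 2 (.n 2 (.l 0) (.l 0)) (.n 0 (.l 0) (.l 0)))))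
    [(48104210432, 2290876416), (824633720832, 274877906944), (68719476736, 68719476736)] rfl (by decide +kernel)
end

mutual
theorem B4_c0_t21 : CovD 1 gB4 [(52685963264, 2290876416), (274877906944, 274877906944), (68719476736, 68719476736)] :=
  covD_E kB4_eq (.n 1 (.n 2 (.n 2 (.n 2 (.l 0) (.l 0)) (.n 2 (.l 0) (.l 0))) (.n 2 (.n 2 (.l 0) (.l 0)) (.n 0 (.l 0) (.l 0)))) (.n 2 (.n 2 (.n 2 (.l 0) (.l 0)) (.n 2 (.l 0) (.l 0))) (.n 2 (.n 2 (.l 0) (.l 0)) (.n 0 (.l 0) (.l 0)))))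
    [(52685963264, 2290876416), (274877906944, 274877906944), (68719476736, 68719476736)] rfl (by decide +kernel)
theorem B4_c0_t22 : CovD 1 gB4 [(52685963264, 2290876416), (824633720832, 274877906944), (68719476736, 68719476736)] :=
  covD_E kB4_eq (.n 1 (.n 2 (.n 2 (.n 2 (.l 0) (.l 0)) (.n 2 (.l 0) (.l 0))) (.n 2 (.n 2 (.l 0) (.l 0)) (.n 0 (.l 0) (.l 0)))) (.n 2 (.n 2 (.n 2 (.l 0) (.l 0)) (.n 2 (.l 0) (.l 0))) (.n 2 (.n 2 (.l 0) (.l 0)) (.n 0 (.l 0) (.l 0)))))
    [(52685963264, 2290876416), (824633720832, 274877906944), (68719476736, 68719476736)] rfl (by decide +kernel)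
end

mutual
theorem D4_c0_t3 : CovD 1 gD4 [(41231581184, 4581752832), (137438953472, 137438953472), (863610339328, 863610339328)] :=
  covD_E kD4_eq (.n 1 (.n 2 (.n 2 (.l 0) (.n 0 (.l 0) (.l 0))) (.n 1 (.n 2 (.l 0) (.l 0)) (.n 2 (.l 0) (.l 0)))) (.n 2 (.n 0 (.n 2 (.l 0) (.l 0)) (.n 2 (.l 0) (.l 0))) (.n 2 (.n 0 (.l 0) (.l 0)) (.n 2 (.l 0) (.l 0)))))
    [(41231581184, 4581752832), (137438953472, 137438953472), (863610339328, 863610339328)] rfl (by decide +kernel)
theorem D4_c0_t4 : CovD 1 gD4 [(41231581184, 4581752832), (412316860416, 137438953472), (863610339328, 863610339328)] :=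
  covD_E kD4_eq (.n 1 (.n 2 (.n 0 (.n 2 (.l 0) (.l 0)) (.n 2 (.l 0) (.l 0))) (.n 2 (.n 2 (.l 0) (.l 0)) (.n 2 (.l 0) (.l 0)))) (.n 2 (.n 2 (.n 0 (.l 0) (.l 0)) (.n 2 (.l 0) (.l 0))) (.n 2 (.n 2 (.l 0) (.l 0)) (.n 2 (.l 0) (.l 0)))))
    [(41231581184, 4581752832), (412316860416, 137438953472), (863610339328, 863610339328)] rfl (by decide +kernel)
end

mutual
theorem D4_c0_t6 : CovD 1 gD4 [(50395086848, 4581752832), (137438953472, 137438953472), (863610339328, 863610339328)] :=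
  covD_E kD4_eq (.n 2 (.n 2 (.n 1 (.l 0) (.l 0)) (.n 2 (.l 0) (.l 0))) (.n 1 (.n 2 (.n 2 (.l 0) (.l 0)) (.n 2 (.l 0) (.l 0))) (.n 2 (.n 2 (.l 0) (.l 0)) (.n 2 (.l 0) (.n 0 (.l 0) (.l 0))))))
    [(50395086848, 4581752832), (137438953472, 137438953472), (863610339328, 863610339328)] rfl (by decide +kernel)
theorem D4_c0_t8 : CovD 1 gD4 [(50395086848, 4581752832), (412316860416, 137438953472), (431805169664, 431805169664)] :=
  covD_E kD4_eq (.n 2 (.n 2 (.l 0) (.n 0 (.l 0) (.l 0))) (.n 0 (.n 1 (.l 0) (.l 0)) (.n 2 (.l 0) (.l 0))))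
    [(50395086848, 4581752832), (412316860416, 137438953472), (431805169664, 431805169664)] rfl (by decide +kernel)
end

mutual
theorem D4_c0_t9 : CovD 1 gD4 [(50395086848, 4581752832), (412316860416, 137438953472), (1295415508992, 431805169664)] :=
  covD_E kD4_eq (.n 0 (.n 2 (.n 2 (.l 0) (.l 0)) (.n 0 (.n 2 (.l 0) (.l 0)) (.n 2 (.l 0) (.l 1)))) (.n 2 (.n 2 (.l 0) (.n 0 (.l 0) (.l 0))) (.n 2 (.l 1) (.l 1))))
    [(50395086848, 4581752832), (412316860416, 137438953472), (1295415508992, 431805169664)] rfl (by decide +kernel)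
theorem D4_c0_t13 : CovD 1 gD4 [(38940704768, 2290876416), (687194767360, 137438953472), (863610339328, 863610339328)] :=
  covD_E kD4_eq (.n 2 (.n 2 (.n 1 (.l 0) (.l 0)) (.n 2 (.l 0) (.l 0))) (.n 2 (.n 0 (.n 1 (.l 0) (.l 0)) (.n 1 (.l 0) (.l 0))) (.n 2 (.l 0) (.n 0 (.l 0) (.l 0)))))
    [(38940704768, 2290876416), (687194767360, 137438953472), (863610339328, 863610339328)] rfl (by decide +kernel)
end

mutual
theorem D4_c0_t14 : CovD 1 gD4 [(38940704768, 2290876416), (962072674304, 137438953472), (863610339328, 863610339328)] :=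
  covD_E kD4_eq (.n 2 (.n 2 (.n 2 (.l 0) (.l 0)) (.n 0 (.n 1 (.l 0) (.l 0)) (.n 1 (.l 0) (.l 0)))) (.n 1 (.n 2 (.n 2 (.l 0) (.l 0)) (.n 2 (.l 0) (.l 0))) (.n 2 (.n 2 (.l 0) (.l 0)) (.n 2 (.l 0) (.l 0)))))
    [(38940704768, 2290876416), (962072674304, 137438953472), (863610339328, 863610339328)] rfl (by decide +kernel)
theorem D4_c0_t16 : CovD 1 gD4 [(43522457600, 2290876416), (687194767360, 137438953472), (863610339328, 863610339328)] :=
  covD_E kD4_eq (.n 2 (.n 2 (.n 1 (.l 0) (.l 0)) (.n 2 (.l 0) (.l 0))) (.n 2 (.n 2 (.l 0) (.l 0)) (.n 1 (.n 2 (.l 0) (.l 0)) (.n 2 (.l 0) (.l 0)))))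
    [(43522457600, 2290876416), (687194767360, 137438953472), (863610339328, 863610339328)] rfl (by decide +kernel)
end

mutual
theorem D4_c0_t17 : CovD 1 gD4 [(43522457600, 2290876416), (962072674304, 137438953472), (863610339328, 863610339328)] :=
  covD_E kD4_eq (.n 2 (.n 2 (.n 2 (.l 0) (.l 0)) (.n 2 (.l 0) (.n 0 (.l 0) (.l 0)))) (.n 1 (.n 2 (.n 2 (.l 0) (.l 0)) (.n 2 (.l 0) (.l 1))) (.n 2 (.n 2 (.l 0) (.l 0)) (.l 1))))
    [(43522457600, 2290876416), (962072674304, 137438953472), (863610339328, 863610339328)] rfl (by decide +kernel)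
theorem D4_c0_t20 : CovD 1 gD4 [(48104210432, 2290876416), (687194767360, 137438953472), (863610339328, 863610339328)] :=
  covD_E kD4_eq (.n 2 (.n 2 (.n 1 (.l 0) (.l 0)) (.n 2 (.l 0) (.l 0))) (.n 2 (.n 2 (.l 0) (.n 0 (.l 0) (.l 0))) (.n 1 (.n 2 (.l 0) (.l 1)) (.l 1))))
    [(48104210432, 2290876416), (687194767360, 137438953472), (863610339328, 863610339328)] rfl (by decide +kernel)
end

mutual
theorem D4_c0_t21 : CovD 1 gD4 [(52685963264, 2290876416), (687194767360, 137438953472), (863610339328, 863610339328)] :=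
  covD_E kD4_eq (.n 2 (.n 2 (.n 2 (.l 0) (.l 0)) (.n 1 (.n 0 (.l 0) (.l 1)) (.l 1))) (.n 2 (.n 2 (.l 1) (.l 1)) (.l 1)))
    [(52685963264, 2290876416), (687194767360, 137438953472), (863610339328, 863610339328)] rfl (by decide +kernel)
theorem D4_c0_t22 : CovD 1 gD4 [(50395086848, 4581752832), (962072674304, 137438953472), (863610339328, 863610339328)] :=
  covD_E kD4_eq (.n 0 (.n 2 (.n 2 (.n 2 (.l 0) (.l 0)) (.n 1 (.n 2 (.l 0) (.l 0)) (.l 1))) (.n 2 (.n 2 (.l 1) (.l 1)) (.l 1))) (.n 2 (.n 2 (.l 1) (.l 1)) (.n 2 (.l 1) (.l 1))))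
    [(50395086848, 4581752832), (962072674304, 137438953472), (863610339328, 863610339328)] rfl (by decide +kernel)
end

mutual
theorem E4_c0_t2 : CovD 1 gE4 [(45813334016, 9163505664), (274877906944, 274877906944), (431805169664, 431805169664)] :=
  covD_E kE4_eq (.n 2 (.n 2 (.l 1) (.n 0 (.l 1) (.l 1))) (.n 1 (.n 2 (.l 1) (.l 1)) (.n 2 (.l 1) (.l 1))))
    [(45813334016, 9163505664), (274877906944, 274877906944), (431805169664, 431805169664)] rfl (by decide +kernel)
theorem E4_c0_t5 : CovD 1 gE4 [(41231581184, 4581752832), (137438953472, 137438953472), (1295415508992, 431805169664)] :=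
  covD_E kE4_eq (.n 1 (.n 2 (.n 0 (.n 2 (.l 1) (.l 0)) (.n 2 (.l 1) (.l 1))) (.n 2 (.n 0 (.l 0) (.l 0)) (.l 0))) (.n 2 (.n 2 (.l 1) (.n 0 (.l 0) (.l 1))) (.n 2 (.n 0 (.l 0) (.l 0)) (.l 0))))
    [(41231581184, 4581752832), (137438953472, 137438953472), (1295415508992, 431805169664)] rfl (by decide +kernel)
end

mutual
theorem E4_c0_t6 : CovD 1 gE4 [(41231581184, 4581752832), (412316860416, 137438953472), (1295415508992, 431805169664)] :=
  covD_E kE4_eq (.n 2 (.n 2 (.l 1) (.n 0 (.n 0 (.n 1 (.l 0) (.l 0)) (.l 1)) (.l 1))) (.n 0 (.n 1 (.n 2 (.l 0) (.l 0)) (.n 2 (.l 0) (.l 0))) (.n 1 (.n 2 (.n 0 (.l 0) (.l 0)) (.l 0)) (.n 2 (.l 1) (.l 0)))))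
    [(41231581184, 4581752832), (412316860416, 137438953472), (1295415508992, 431805169664)] rfl (by decide +kernel)
theorem E4_c0_t7 : CovD 1 gE4 [(50395086848, 4581752832), (274877906944, 274877906944), (1295415508992, 431805169664)] :=
  covD_E kE4_eq (.n 2 (.n 2 (.l 1) (.n 0 (.l 1) (.l 1))) (.n 0 (.n 1 (.n 2 (.l 1) (.n 1 (.l 0) (.l 0))) (.n 2 (.l 1) (.l 1))) (.n 1 (.n 1 (.l 1) (.l 1)) (.l 1))))
    [(50395086848, 4581752832), (274877906944, 274877906944), (1295415508992, 431805169664)] rfl (by decide +kernel)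
end

mutual
theorem E4_c0_t9 : CovD 1 gE4 [(45813334016, 9163505664), (824633720832, 274877906944), (431805169664, 431805169664)] :=
  covD_E kE4_eq (.n 2 (.n 2 (.n 2 (.l 1) (.l 1)) (.n 1 (.l 1) (.n 2 (.l 1) (.l 1)))) (.n 0 (.n 1 (.n 2 (.l 1) (.l 1)) (.n 2 (.l 1) (.l 1))) (.n 2 (.n 0 (.l 1) (.l 1)) (.l 1))))
    [(45813334016, 9163505664), (824633720832, 274877906944), (431805169664, 431805169664)] rfl (by decide +kernel)
theorem E4_c0_t12 : CovD 1 gE4 [(41231581184, 4581752832), (687194767360, 137438953472), (1295415508992, 431805169664)] :=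
  covD_E kE4_eq (.n 2 (.n 2 (.l 1) (.n 0 (.l 1) (.l 1))) (.n 0 (.n 1 (.n 2 (.n 0 (.l 0) (.l 0)) (.l 0)) (.n 2 (.l 1) (.l 0))) (.n 2 (.l 1) (.n 1 (.l 1) (.l 1)))))
    [(41231581184, 4581752832), (687194767360, 137438953472), (1295415508992, 431805169664)] rfl (by decide +kernel)
end

mutual
theorem E4_c0_t13 : CovD 1 gE4 [(41231581184, 4581752832), (962072674304, 137438953472), (1295415508992, 431805169664)] :=
  covD_E kE4_eq (.n 2 (.n 2 (.l 1) (.l 1)) (.n 0 (.n 2 (.l 1) (.n 0 (.n 1 (.l 0) (.l 0)) (.l 1))) (.n 1 (.l 1) (.l 1))))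
    [(41231581184, 4581752832), (962072674304, 137438953472), (1295415508992, 431805169664)] rfl (by decide +kernel)
theorem E4_c0_t14 : CovD 1 gE4 [(50395086848, 4581752832), (824633720832, 274877906944), (1295415508992, 431805169664)] :=
  covD_E kE4_eq (.n 2 (.n 2 (.l 1) (.l 1)) (.n 0 (.n 2 (.l 1) (.l 1)) (.n 1 (.l 1) (.l 1))))
    [(50395086848, 4581752832), (824633720832, 274877906944), (1295415508992, 431805169664)] rfl (by decide +kernel)
end

theorem A4_c0_t4 : CovD 1 gA4 [(38940704768, 2290876416), (137438953472, 137438953472), (4398046511104, 4398046511104)] :=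
  covD_split 2 (by decide +kernel) A4_c0_t5 A4_c0_t6

theorem A4_c0_t3 : CovD 1 gA4 [(38940704768, 2290876416), (274877906944, 274877906944), (4398046511104, 4398046511104)] :=
  covD_split 1 (by decide +kernel) A4_c0_t4 A4_c0_t7

theorem A4_c0_t2 : CovD 1 gA4 [(38940704768, 2290876416), (549755813888, 549755813888), (4398046511104, 4398046511104)] :=
  covD_split 1 (by decide +kernel) A4_c0_t3 A4_c0_t8

theorem A4_c0_t10 : CovD 1 gA4 [(43522457600, 2290876416), (274877906944, 274877906944), (4398046511104, 4398046511104)] :=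
  covD_split 1 (by decide +kernel) A4_c0_t11 A4_c0_t12

theorem A4_c0_t9 : CovD 1 gA4 [(43522457600, 2290876416), (549755813888, 549755813888), (4398046511104, 4398046511104)] :=
  covD_split 1 (by decide +kernel) A4_c0_t10 A4_c0_t13

theorem A4_c0_t1 : CovD 1 gA4 [(41231581184, 4581752832), (549755813888, 549755813888), (4398046511104, 4398046511104)] :=
  covD_split 0 (by decide +kernel) A4_c0_t2 A4_c0_t9

theorem A4_c0_t16 : CovD 1 gA4 [(50395086848, 4581752832), (137438953472, 137438953472), (4398046511104, 4398046511104)] :=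
  covD_split 0 (by decide +kernel) A4_c0_t17 A4_c0_t18

theorem A4_c0_t19 : CovD 1 gA4 [(50395086848, 4581752832), (412316860416, 137438953472), (4398046511104, 4398046511104)] :=
  covD_split 2 (by decide +kernel) A4_c0_t20 A4_c0_t21

theorem A4_c0_t15 : CovD 1 gA4 [(50395086848, 4581752832), (274877906944, 274877906944), (4398046511104, 4398046511104)] :=
  covD_split 1 (by decide +kernel) A4_c0_t16 A4_c0_t19

theorem A4_c0_t24 : CovD 1 gA4 [(52685963264, 2290876416), (824633720832, 274877906944), (4398046511104, 4398046511104)] :=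
  covD_split 1 (by decide +kernel) A4_c0_t25 A4_c0_t26

theorem A4_c0_t22 : CovD 1 gA4 [(50395086848, 4581752832), (824633720832, 274877906944), (4398046511104, 4398046511104)] :=
  covD_split 0 (by decide +kernel) A4_c0_t23 A4_c0_t24

theorem A4_c0_t14 : CovD 1 gA4 [(50395086848, 4581752832), (549755813888, 549755813888), (4398046511104, 4398046511104)] :=
  covD_split 1 (by decide +kernel) A4_c0_t15 A4_c0_t22

theorem A4_c0 : CovD 1 gA4 [(45813334016, 9163505664), (549755813888, 549755813888), (4398046511104, 4398046511104)] :=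
  covD_split 0 (by decide +kernel) A4_c0_t1 A4_c0_t14

theorem B4_c0_t3 : CovD 1 gB4 [(38940704768, 2290876416), (274877906944, 274877906944), (68719476736, 68719476736)] :=
  covD_split 2 (by decide +kernel) B4_c0_t4 B4_c0_t5

theorem B4_c0_t6 : CovD 1 gB4 [(38940704768, 2290876416), (824633720832, 274877906944), (68719476736, 68719476736)] :=
  covD_split 1 (by decide +kernel) B4_c0_t7 B4_c0_t8

theorem B4_c0_t2 : CovD 1 gB4 [(38940704768, 2290876416), (549755813888, 549755813888), (68719476736, 68719476736)] :=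
  covD_split 1 (by decide +kernel) B4_c0_t3 B4_c0_t6

theorem B4_c0_t10 : CovD 1 gB4 [(43522457600, 2290876416), (274877906944, 274877906944), (68719476736, 68719476736)] :=
  covD_split 2 (by decide +kernel) B4_c0_t11 B4_c0_t12

theorem B4_c0_t9 : CovD 1 gB4 [(43522457600, 2290876416), (549755813888, 549755813888), (68719476736, 68719476736)] :=
  covD_split 1 (by decide +kernel) B4_c0_t10 B4_c0_t13

theorem B4_c0_t1 : CovD 1 gB4 [(41231581184, 4581752832), (549755813888, 549755813888), (68719476736, 68719476736)] :=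
  covD_split 0 (by decide +kernel) B4_c0_t2 B4_c0_t9

theorem B4_c0_t16 : CovD 1 gB4 [(48104210432, 2290876416), (274877906944, 274877906944), (68719476736, 68719476736)] :=
  covD_split 1 (by decide +kernel) B4_c0_t17 B4_c0_t18

theorem B4_c0_t15 : CovD 1 gB4 [(48104210432, 2290876416), (549755813888, 549755813888), (68719476736, 68719476736)] :=
  covD_split 1 (by decide +kernel) B4_c0_t16 B4_c0_t19

theorem B4_c0_t20 : CovD 1 gB4 [(52685963264, 2290876416), (549755813888, 549755813888), (68719476736, 68719476736)] :=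
  covD_split 1 (by decide +kernel) B4_c0_t21 B4_c0_t22

theorem B4_c0_t14 : CovD 1 gB4 [(50395086848, 4581752832), (549755813888, 549755813888), (68719476736, 68719476736)] :=
  covD_split 0 (by decide +kernel) B4_c0_t15 B4_c0_t20

theorem B4_c0 : CovD 1 gB4 [(45813334016, 9163505664), (549755813888, 549755813888), (68719476736, 68719476736)] :=
  covD_split 0 (by decide +kernel) B4_c0_t1 B4_c0_t14

theorem D4_c0_t2 : CovD 1 gD4 [(41231581184, 4581752832), (274877906944, 274877906944), (863610339328, 863610339328)] :=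
  covD_split 1 (by decide +kernel) D4_c0_t3 D4_c0_t4

theorem D4_c0_t7 : CovD 1 gD4 [(50395086848, 4581752832), (412316860416, 137438953472), (863610339328, 863610339328)] :=
  covD_split 2 (by decide +kernel) D4_c0_t8 D4_c0_t9

theorem D4_c0_t5 : CovD 1 gD4 [(50395086848, 4581752832), (274877906944, 274877906944), (863610339328, 863610339328)] :=
  covD_split 1 (by decide +kernel) D4_c0_t6 D4_c0_t7

theorem D4_c0_t1 : CovD 1 gD4 [(45813334016, 9163505664), (274877906944, 274877906944), (863610339328, 863610339328)] :=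
  covD_split 0 (by decide +kernel) D4_c0_t2 D4_c0_t5

theorem D4_c0_t12 : CovD 1 gD4 [(38940704768, 2290876416), (824633720832, 274877906944), (863610339328, 863610339328)] :=
  covD_split 1 (by decide +kernel) D4_c0_t13 D4_c0_t14

theorem D4_c0_t15 : CovD 1 gD4 [(43522457600, 2290876416), (824633720832, 274877906944), (863610339328, 863610339328)] :=
  covD_split 1 (by decide +kernel) D4_c0_t16 D4_c0_t17

theorem D4_c0_t11 : CovD 1 gD4 [(41231581184, 4581752832), (824633720832, 274877906944), (863610339328, 863610339328)] :=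
  covD_split 0 (by decide +kernel) D4_c0_t12 D4_c0_t15

theorem D4_c0_t19 : CovD 1 gD4 [(50395086848, 4581752832), (687194767360, 137438953472), (863610339328, 863610339328)] :=
  covD_split 0 (by decide +kernel) D4_c0_t20 D4_c0_t21

theorem D4_c0_t18 : CovD 1 gD4 [(50395086848, 4581752832), (824633720832, 274877906944), (863610339328, 863610339328)] :=
  covD_split 1 (by decide +kernel) D4_c0_t19 D4_c0_t22

theorem D4_c0_t10 : CovD 1 gD4 [(45813334016, 9163505664), (824633720832, 274877906944), (863610339328, 863610339328)] :=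
  covD_split 0 (by decide +kernel) D4_c0_t11 D4_c0_t18

theorem D4_c0 : CovD 1 gD4 [(45813334016, 9163505664), (549755813888, 549755813888), (863610339328, 863610339328)] :=
  covD_split 1 (by decide +kernel) D4_c0_t1 D4_c0_t10

theorem E4_c0_t4 : CovD 1 gE4 [(41231581184, 4581752832), (274877906944, 274877906944), (1295415508992, 431805169664)] :=
  covD_split 1 (by decide +kernel) E4_c0_t5 E4_c0_t6

theorem E4_c0_t3 : CovD 1 gE4 [(45813334016, 9163505664), (274877906944, 274877906944), (1295415508992, 431805169664)] :=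
  covD_split 0 (by decide +kernel) E4_c0_t4 E4_c0_t7

theorem E4_c0_t1 : CovD 1 gE4 [(45813334016, 9163505664), (274877906944, 274877906944), (863610339328, 863610339328)] :=
  covD_split 2 (by decide +kernel) E4_c0_t2 E4_c0_t3

theorem E4_c0_t11 : CovD 1 gE4 [(41231581184, 4581752832), (824633720832, 274877906944), (1295415508992, 431805169664)] :=
  covD_split 1 (by decide +kernel) E4_c0_t12 E4_c0_t13

theorem E4_c0_t10 : CovD 1 gE4 [(45813334016, 9163505664), (824633720832, 274877906944), (1295415508992, 431805169664)] :=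
  covD_split 0 (by decide +kernel) E4_c0_t11 E4_c0_t14

theorem E4_c0_t8 : CovD 1 gE4 [(45813334016, 9163505664), (824633720832, 274877906944), (863610339328, 863610339328)] :=
  covD_split 2 (by decide +kernel) E4_c0_t9 E4_c0_t10

theorem E4_c0 : CovD 1 gE4 [(45813334016, 9163505664), (549755813888, 549755813888), (863610339328, 863610339328)] :=
  covD_split 1 (by decide +kernel) E4_c0_t1 E4_c0_t8

end Pool.Agent.helper14.NS.Q20e
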