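import Pool.Agent.helper14.NS.Q20e.Tab
import Pool.Agent.helper14.NR.Share

/-!
Generated: programs and compiled forms.
-/

namespace Pool.Agent.helper14.NS.Q20e

open Pool.Agent.helper31.IA (Z)
open Pool.Agent.helper31.IX (Op XOps runX Cov CovD cov_split covD_split)
open Pool.Agent.helper31.IC (TD)
open Pool.Agent.helper63.RG (reloc)
open Pool.Agent.helper63.NF hiding TD
open Pool.Agent.helper4.NS
open Pool.Agent.helper14.CF (xE covD_E)
open Pool.Agent.helper14.NR (share)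

def p2_2 : List Op := [
  .const ⟨1099511627776, 0, 0, 0⟩,
  .mul 1 2,
  .scale ⟨2199023255552, 0, 0, 0⟩ 0,
  .exp 1,
  .neg 2,
  .exp 0,
  .mul 2 2,
  .mul 1 1,
  .mul 0 0,
  .add 2 1,
  .scale ⟨549755813888, 0, 0, 0⟩ 0,
  .scale ⟨2199023255552, 0, 0, 0⟩ 12,
  .mul 10 10,
  .lt 0 68719476736,
  .scale ⟨9162596898, 0, 0, 0⟩ 0,
  .const ⟨183251937962, 0, 0, 0⟩,
  .add 1 0,
  .mul 0 3,
  .const ⟨1099511627776, 0, 0, 0⟩,
  .add 1 0,
  .const ⟨65536, 0, 0, 0⟩,
  .rball 1 0,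
  .mul 9 0,
  .add 18 16,
  .scale ⟨549755813888, 0, 0, 0⟩ 0,
  .mul 2 0,
  .mul 3 3,
  .mul 26 0,
  .mul 2 2,
  .mul 28 0,
  .neg 17,
  .exp 0,
  .add 0 30,
  .pos 0,
  .log 0,
  .const ⟨45902462976, 0, 0, 0⟩,
  .sub 34 0,
  .const ⟨2886218022912, 0, 0, 0⟩,
  .sub 37 0,
  .mul 0 0,
  .mul 0 1,
  .mul 4 2,
  .mul 5 5,
  .scale ⟨1546457856, 0, 0, 0⟩ 4,
  .scale ⟨85766848, 0, 0, 0⟩ 4,
  .add 1 0,
  .scale ⟨38785472, 0, 0, 0⟩ 5,
  .add 1 0,
  .scale ⟨3562866847936, 0, 0, 0⟩ 11,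
  .add 1 0,
  .scale ⟨65395527616, 0, 0, 0⟩ 8,
  .add 1 0,
  .scale ⟨0, 6674684209920, 0, 0⟩ 9,
  .add 1 0,
  .const ⟨552302844800, 0, 0, 0⟩,
  .add 1 0,
  .scale ⟨5945574016, 0, 0, 0⟩ 17,
  .scale ⟨81163520, 0, 0, 0⟩ 17,
  .add 1 0,
  .scale ⟨0, 300493971264, 0, 0⟩ 22,
  .add 1 0,
  .scale ⟨831512000, 0, 0, 0⟩ 19,
  .add 1 0,
  .const ⟨16259053248, 0, 0, 0⟩,
  .add 1 0,
  .scale ⟨0, 914677888, 0, 0⟩ 26,
  .scale ⟨0, 5645568, 0, 0⟩ 26,
  .add 1 0,
  .scale ⟨14693656832, 0, 0, 0⟩ 31,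
  .add 1 0,
  .const ⟨0, 2854848512, 0, 0⟩,
  .add 1 0,
  .scale ⟨62857856, 0, 0, 0⟩ 33,
  .scale ⟨0, 498615232, 0, 0⟩ 36,
  .add 1 0,
  .const ⟨271814976, 0, 0, 0⟩,
  .add 1 0,
  .scale ⟨0, 1739456, 0, 0⟩ 38,
  .const ⟨0, 16286528, 0, 0⟩,
  .add 1 0,
  .mul 78 80,
  .add 0 68,
  .pos 0,
  .inv 0,
  .mul 73 0,
  .sub 84 57,
  .add 75 2,
  .mul 1 0,
  .mul 3 0,
  .mul 78 61,
  .scale ⟨2199023255552, 0, 0, 0⟩ 0,
  .add 2 0,
  .scale ⟨0, 60524679135232, 0, 0⟩ 54,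
  .const ⟨0, 5053834330112, 0, 0⟩,
  .add 1 0,
  .sub 3 0,
  .pos 0,
  .inv 0,
  .scale ⟨31362867265536, 0, 0, 0⟩ 0,
  .add 2 0,
  .pos 0,
  .inv 0,
  .scale ⟨0, 270527419008, 0, 0⟩ 60,
  .scale ⟨0, 32461373761536, 0, 0⟩ 63,
  .add 1 0,
  .const ⟨0, 1060590521088, 0, 0⟩,
  .add 1 0,
  .scale ⟨918269146496, 0, 0, 0⟩ 65,
  .scale ⟨68349684162112, 0, 0, 0⟩ 68,
  .add 1 0,
  .const ⟨6529253197056, 0, 0, 0⟩,
  .add 1 0,
  .mul 13 0,
  .add 6 0,
  .mul 0 12,
  .scale ⟨0, 7168, 0, 0⟩ 21,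
  .const ⟨542272, 0, 0, 0⟩,
  .add 1 0,
  .mul 24 0,
  .add 0 36,
  .mul 26 0,
  .add 0 41,
  .mul 28 0,
  .add 0 48,
  .mul 30 0,
  .add 0 57,
  .mul 32 0,
  .add 12 68,
  .add 1 0,
  .mul 38 0,
  .add 0 113,
  .neg 0,
  .exp 0,
  .add 0 127,
  .pos 0,
  .log 0,
  .add 132 105,
  .scale ⟨2199023255552, 0, 0, 0⟩ 128,
  .neg 0,
  .exp 0,
  .scale ⟨65970700288, 0, 0, 0⟩ 0,
  .scale ⟨659814350848, 0, 0, 0⟩ 137,
  .add 0 135,
  .pos 0,
  .inv 0,
  .scale ⟨2199023255552, 0, 0, 0⟩ 3,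
  .mul 8 0,
  .mul 0 2,
  .mul 0 144,
  .sub 141 0,
  .pos 0,
  .log 0,
  .mul 16 2,
  .add 0 144,
  .pos 0,
  .log 0,
  .sub 0 3,
  .add 22 0,
  .sub 19 116,
  .scale ⟨2199023255552, 0, 0, 0⟩ 0,
  .add 26 0,
  .add 8 5,
  .sub 1 0,
  .mul 154 5,
  .scale ⟨549755813888, 0, 0, 0⟩ 0,
  .mul 0 0,
  .lt 0 68719476736,
  .scale ⟨9162596898, 0, 0, 0⟩ 0,
  .const ⟨183251937962, 0, 0, 0⟩,
  .add 1 0,
  .mul 0 3,
  .const ⟨1099511627776, 0, 0, 0⟩,
  .add 1 0,
  .const ⟨65536, 0, 0, 0⟩,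
  .rball 1 0,
  .exp 9,
  .mul 0 1,
  .mul 18 0,
  .pos 168,
  .inv 168,
  .mul 169 15,
  .exp 0,
  .const ⟨1099511627776, 0, 0, 0⟩,
  .sub 1 0,
  .mul 0 4,
  .mul 163 176,
  .add 0 146,
  .mul 95 0,
  .mul 177 0,
  .add 0 167,
  .pos 0,
  .inv 0,
  .add 91 153,
  .mul 13 0,
  .mul 5 5,
  .scale ⟨2199023255552, 0, 0, 0⟩ 0,
  .sub 2 0,
  .mul 158 158,
  .scale ⟨549755813888, 0, 0, 0⟩ 0,
  .sub 2 0,
  .mul 188 20,
  .const ⟨2199023255552, 0, 0, 0⟩,
  .add 1 0,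
  .mul 17 0,
  .mul 165 0,
  .add 5 0,
  .mul 194 14,
  .mul 0 0,
  .mul 0 2,
  .add 0 196,
  .pos 0,
  .log 0,
  .scale ⟨549755813888, 0, 0, 0⟩ 0,
  .exp 0,
  .add 0 200,
  .pos 0,
  .mul 8 22,
  .inv 1,
  .mul 1 0,
  .mul 205 0,
  .add 29 0,
  .pos 76,
  .inv 76,
  .mul 200 128,
  .mul 1 0,
  .mul 0 5,
  .mul 211 0,
  .add 0 211,
  .pos 0,
  .mul 34 205,
  .pos 0,
  .log 0,
  .scale ⟨549755813888, 0, 0, 0⟩ 16,
  .add 1 0,
  .mul 0 48,
  .scale ⟨61989453824, 0, 0, 0⟩ 181,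
  .scale ⟨0, 12800557056, 0, 0⟩ 181,
  .add 1 0,
  .scale ⟨2795962368, 0, 0, 0⟩ 182,
  .add 1 0,
  .scale ⟨2750755176448, 0, 0, 0⟩ 188,
  .add 1 0,
  .scale ⟨118749462528, 0, 0, 0⟩ 185,
  .add 1 0,
  .const ⟨560567222272, 0, 0, 0⟩,
  .add 1 0,
  .scale ⟨3298534883328, 0, 0, 0⟩ 226,
  .exp 0,
  .pos 2,
  .mul 20 0,
  .scale ⟨2199023255552, 0, 0, 0⟩ 0,
  .inv 20,
  .mul 24 0,
  .inv 6,
  .mul 5 0,
  .mul 2 0,
  .mul 5 0,
  .lt 0 1099510579200,
  .const ⟨17551383855104, 0, 0, 0⟩,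
  .add 212 0,
  .pos 0,
  .mul 34 34,
  .sub 0 214,
  .inv 2,
  .mul 1 0,
  .lt 0 1099510579200,
  .scale ⟨0, 327680, 0, 0⟩ 156,
  .const ⟨0, 67567616, 0, 0⟩,
  .add 1 0,
  .mul 159 0,
  .scale ⟨892928000, 0, 0, 0⟩ 212,
  .scale ⟨582272090112, 0, 0, 0⟩ 215,
  .add 1 0,
  .const ⟨24242814976, 0, 0, 0⟩,
  .add 1 0,
  .add 5 0,
  .mul 166 0,
  .scale ⟨45136281600, 0, 0, 0⟩ 219,
  .scale ⟨0, 12360351744, 0, 0⟩ 219,
  .add 1 0,
  .scale ⟨2951477460992, 0, 0, 0⟩ 224,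
  .add 1 0,
  .const ⟨1176270077952, 0, 0, 0⟩,
  .add 1 0,
  .add 7 0,
  .scale ⟨1099511627776, 0, 0, 0⟩ 129,
  .pos 0,
  .inv 0,
  .mul 129 58,
  .mul 0 1,
  .scale ⟨549755813888, 0, 0, 0⟩ 0,
  .mul 269 62,
  .add 0 259,
  .pos 0,
  .inv 0,
  .mul 264 0,
  .sub 66 248,
  .add 266 2,
  .mul 1 0,
  .mul 3 0,
  .mul 269 252,
  .scale ⟨2199023255552, 0, 0, 0⟩ 0,
  .add 2 0,
  .scale ⟨0, 60524679135232, 0, 0⟩ 245,
  .const ⟨0, 5053834330112, 0, 0⟩,
  .add 1 0,
  .sub 3 0,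
  .pos 0,
  .inv 0,
  .scale ⟨31362867265536, 0, 0, 0⟩ 0,
  .add 2 0,
  .pos 0,
  .inv 0,
  .scale ⟨0, 270527419008, 0, 0⟩ 251,
  .scale ⟨0, 32461373761536, 0, 0⟩ 254,
  .add 1 0,
  .const ⟨0, 1060590521088, 0, 0⟩,
  .add 1 0,
  .scale ⟨918269146496, 0, 0, 0⟩ 256,
  .scale ⟨68349684162112, 0, 0, 0⟩ 259,
  .add 1 0,
  .const ⟨6529253197056, 0, 0, 0⟩,
  .add 1 0,
  .mul 13 0,
  .add 6 0,
  .mul 0 12,
  .scale ⟨0, 7168, 0, 0⟩ 21,
  .const ⟨542272, 0, 0, 0⟩,
  .add 1 0,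
  .mul 24 0,
  .add 0 227,
  .mul 26 0,
  .add 0 232,
  .mul 28 0,
  .add 0 239,
  .mul 30 0,
  .add 0 248,
  .mul 32 0,
  .add 12 259,
  .add 1 0,
  .mul 38 0,
  .add 0 304,
  .neg 0,
  .exp 0,
  .add 0 318,
  .pos 0,
  .log 0,
  .scale ⟨549755813888, 0, 0, 0⟩ 114,
  .add 0 321,
  .pos 0,
  .inv 0,
  .scale ⟨3298534883328, 0, 0, 0⟩ 321,
  .neg 0,
  .exp 0,
  .scale ⟨65970700288, 0, 0, 0⟩ 0,
  .scale ⟨1099511627776, 0, 0, 0⟩ 0,
  .mul 0 63,
  .mul 323 249,
  .mul 0 118,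
  .mul 2 0,
  .mul 196 9,
  .mul 1 0,
  .add 210 205,
  .sub 0 15,
  .sub 0 119,
  .exp 0,
  .const ⟨0, 0, 0, 0⟩,
  .mul 76 1,
  .mul 0 22,
  .mul 0 7,
  .rball 3 0,
  .sub 343 80,
  .mul 348 0,
  .sub 345 7,
  .scale ⟨1099511627776, 0, 0, 0⟩ 0,
  .mul 0 79,
  .mul 85 0,
  .add 4 0,
  .add 0 7,
  .lt 0 1099510579200]

set_option maxRecDepth 1000000 in
noncomputable def c2_2 {α : Type} (cst : Z → α) (add sub mul : α → α → α) (scale : Z → α → α)
    (neg inv exp log : α → α) (ok : α → Bool) (isPos : Nat → α → Bool) (isLt : α → Nat → Bool)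
    (ball : Nat → α → α) (rball : α → α → α) : List α → Bool
  | [x0, x1, x2, x3] =>
  let v0 := cst ⟨1099511627776, 0, 0, 0⟩; ok v0 && (
  let v1 := mul x0 x1; ok v1 && (
  let v2 := scale ⟨2199023255552, 0, 0, 0⟩ v1; ok v2 && (
  let v3 := exp v1; ok v3 && (
  let v4 := neg v1; ok v4 && (
  let v5 := exp v4; ok v5 && (
  let v6 := mul v3 v3; ok v6 && (
  let v7 := mul v5 v5; ok v7 && (
  let v8 := mul v7 v7; ok v8 && (
  let v9 := add v6 v7; ok v9 && (
  let v10 := scale ⟨549755813888, 0, 0, 0⟩ v9; ok v10 && (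
  let v11 := scale ⟨2199023255552, 0, 0, 0⟩ x1; ok v11 && (
  let v12 := mul v1 v1; ok v12 && (
  isLt v12 68719476736 && (
  let v13 := scale ⟨9162596898, 0, 0, 0⟩ v12; ok v13 && (
  let v14 := cst ⟨183251937962, 0, 0, 0⟩; ok v14 && (
  let v15 := add v13 v14; ok v15 && (
  let v16 := mul v15 v12; ok v16 && (
  let v17 := cst ⟨1099511627776, 0, 0, 0⟩; ok v17 && (
  let v18 := add v16 v17; ok v18 && (
  let v19 := cst ⟨65536, 0, 0, 0⟩; ok v19 && (
  let v20 := rball v18 v19; ok v20 && (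
  let v21 := mul v11 v20; ok v21 && (
  let v22 := add v3 v5; ok v22 && (
  let v23 := scale ⟨549755813888, 0, 0, 0⟩ v22; ok v23 && (
  let v24 := mul v21 v23; ok v24 && (
  let v25 := mul v21 v21; ok v25 && (
  let v26 := mul x0 v25; ok v26 && (
  let v27 := mul v24 v24; ok v27 && (
  let v28 := mul x0 v27; ok v28 && (
  let v29 := neg v11; ok v29 && (
  let v30 := exp v29; ok v30 && (
  let v31 := add v30 v0; ok v31 && (
  isPos 3 v31 && (
  let v32 := log v31; ok v32 && (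
  let v33 := cst ⟨45902462976, 0, 0, 0⟩; ok v33 && (
  let v34 := sub x0 v33; ok v34 && (
  let v35 := cst ⟨2886218022912, 0, 0, 0⟩; ok v35 && (
  let v36 := sub x1 v35; ok v36 && (
  let v37 := mul v36 v36; ok v37 && (
  let v38 := mul v37 v36; ok v38 && (
  let v39 := mul v34 v36; ok v39 && (
  let v40 := mul v34 v34; ok v40 && (
  let v41 := scale ⟨1546457856, 0, 0, 0⟩ v36; ok v41 && (
  let v42 := scale ⟨85766848, 0, 0, 0⟩ v37; ok v42 && (
  let v43 := add v41 v42; ok v43 && (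
  let v44 := scale ⟨38785472, 0, 0, 0⟩ v38; ok v44 && (
  let v45 := add v43 v44; ok v45 && (
  let v46 := scale ⟨3562866847936, 0, 0, 0⟩ v34; ok v46 && (
  let v47 := add v45 v46; ok v47 && (
  let v48 := scale ⟨65395527616, 0, 0, 0⟩ v39; ok v48 && (
  let v49 := add v47 v48; ok v49 && (
  let v50 := scale ⟨0, 6674684209920, 0, 0⟩ v40; ok v50 && (
  let v51 := add v49 v50; ok v51 && (
  let v52 := cst ⟨552302844800, 0, 0, 0⟩; ok v52 && (
  let v53 := add v51 v52; ok v53 && (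
  let v54 := scale ⟨5945574016, 0, 0, 0⟩ v36; ok v54 && (
  let v55 := scale ⟨81163520, 0, 0, 0⟩ v37; ok v55 && (
  let v56 := add v54 v55; ok v56 && (
  let v57 := scale ⟨0, 300493971264, 0, 0⟩ v34; ok v57 && (
  let v58 := add v56 v57; ok v58 && (
  let v59 := scale ⟨831512000, 0, 0, 0⟩ v39; ok v59 && (
  let v60 := add v58 v59; ok v60 && (
  let v61 := cst ⟨16259053248, 0, 0, 0⟩; ok v61 && (
  let v62 := add v60 v61; ok v62 && (
  let v63 := scale ⟨0, 914677888, 0, 0⟩ v36; ok v63 && (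
  let v64 := scale ⟨0, 5645568, 0, 0⟩ v37; ok v64 && (
  let v65 := add v63 v64; ok v65 && (
  let v66 := scale ⟨14693656832, 0, 0, 0⟩ v34; ok v66 && (
  let v67 := add v65 v66; ok v67 && (
  let v68 := cst ⟨0, 2854848512, 0, 0⟩; ok v68 && (
  let v69 := add v67 v68; ok v69 && (
  let v70 := scale ⟨62857856, 0, 0, 0⟩ v36; ok v70 && (
  let v71 := scale ⟨0, 498615232, 0, 0⟩ v34; ok v71 && (
  let v72 := add v70 v71; ok v72 && (
  let v73 := cst ⟨271814976, 0, 0, 0⟩; ok v73 && (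
  let v74 := add v72 v73; ok v74 && (
  let v75 := scale ⟨0, 1739456, 0, 0⟩ v36; ok v75 && (
  let v76 := cst ⟨0, 16286528, 0, 0⟩; ok v76 && (
  let v77 := add v75 v76; ok v77 && (
  let v78 := mul x0 x2; ok v78 && (
  let v79 := add v78 v10; ok v79 && (
  isPos 3 v79 && (
  let v80 := inv v79; ok v80 && (
  let v81 := mul v7 v80; ok v81 && (
  let v82 := sub x2 v24; ok v82 && (
  let v83 := add v7 v80; ok v83 && (
  let v84 := mul v82 v83; ok v84 && (
  let v85 := mul v81 v84; ok v85 && (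
  let v86 := mul v7 v24; ok v86 && (
  let v87 := scale ⟨2199023255552, 0, 0, 0⟩ v86; ok v87 && (
  let v88 := add v85 v87; ok v88 && (
  let v89 := scale ⟨0, 60524679135232, 0, 0⟩ v34; ok v89 && (
  let v90 := cst ⟨0, 5053834330112, 0, 0⟩; ok v90 && (
  let v91 := add v89 v90; ok v91 && (
  let v92 := sub v88 v91; ok v92 && (
  isPos 3 v92 && (
  let v93 := inv v92; ok v93 && (
  let v94 := scale ⟨31362867265536, 0, 0, 0⟩ v93; ok v94 && (
  let v95 := add v92 v94; ok v95 && (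
  isPos 3 v95 && (
  let v96 := inv v95; ok v96 && (
  let v97 := scale ⟨0, 270527419008, 0, 0⟩ v36; ok v97 && (
  let v98 := scale ⟨0, 32461373761536, 0, 0⟩ v34; ok v98 && (
  let v99 := add v97 v98; ok v99 && (
  let v100 := cst ⟨0, 1060590521088, 0, 0⟩; ok v100 && (
  let v101 := add v99 v100; ok v101 && (
  let v102 := scale ⟨918269146496, 0, 0, 0⟩ v36; ok v102 && (
  let v103 := scale ⟨68349684162112, 0, 0, 0⟩ v34; ok v103 && (
  let v104 := add v102 v103; ok v104 && (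
  let v105 := cst ⟨6529253197056, 0, 0, 0⟩; ok v105 && (
  let v106 := add v104 v105; ok v106 && (
  let v107 := mul v93 v106; ok v107 && (
  let v108 := add v101 v107; ok v108 && (
  let v109 := mul v108 v96; ok v109 && (
  let v110 := scale ⟨0, 7168, 0, 0⟩ v88; ok v110 && (
  let v111 := cst ⟨542272, 0, 0, 0⟩; ok v111 && (
  let v112 := add v110 v111; ok v112 && (
  let v113 := mul v88 v112; ok v113 && (
  let v114 := add v113 v77; ok v114 && (
  let v115 := mul v88 v114; ok v115 && (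
  let v116 := add v115 v74; ok v116 && (
  let v117 := mul v88 v116; ok v117 && (
  let v118 := add v117 v69; ok v118 && (
  let v119 := mul v88 v118; ok v119 && (
  let v120 := add v119 v62; ok v120 && (
  let v121 := mul v88 v120; ok v121 && (
  let v122 := add v109 v53; ok v122 && (
  let v123 := add v121 v122; ok v123 && (
  let v124 := mul v85 v123; ok v124 && (
  let v125 := add v124 v11; ok v125 && (
  let v126 := neg v125; ok v126 && (
  let v127 := exp v126; ok v127 && (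
  let v128 := add v127 v0; ok v128 && (
  isPos 3 v128 && (
  let v129 := log v128; ok v129 && (
  let v130 := add x2 v24; ok v130 && (
  let v131 := scale ⟨2199023255552, 0, 0, 0⟩ v2; ok v131 && (
  let v132 := neg v131; ok v132 && (
  let v133 := exp v132; ok v133 && (
  let v134 := scale ⟨65970700288, 0, 0, 0⟩ v133; ok v134 && (
  let v135 := scale ⟨659814350848, 0, 0, 0⟩ x2; ok v135 && (
  let v136 := add v135 v0; ok v136 && (
  isPos 3 v136 && (
  let v137 := inv v136; ok v137 && (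
  let v138 := scale ⟨2199023255552, 0, 0, 0⟩ v134; ok v138 && (
  let v139 := mul v130 v138; ok v139 && (
  let v140 := mul v139 v137; ok v140 && (
  let v141 := mul v140 x3; ok v141 && (
  let v142 := sub v0 v141; ok v142 && (
  isPos 3 v142 && (
  let v143 := log v142; ok v143 && (
  let v144 := mul v127 v141; ok v144 && (
  let v145 := add v144 v0; ok v145 && (
  isPos 3 v145 && (
  let v146 := log v145; ok v146 && (
  let v147 := sub v146 v143; ok v147 && (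
  let v148 := add v125 v147; ok v148 && (
  let v149 := sub v129 v32; ok v149 && (
  let v150 := scale ⟨2199023255552, 0, 0, 0⟩ v149; ok v150 && (
  let v151 := add v124 v150; ok v151 && (
  let v152 := add v143 v146; ok v152 && (
  let v153 := sub v151 v152; ok v153 && (
  let v154 := mul x0 v148; ok v154 && (
  let v155 := scale ⟨549755813888, 0, 0, 0⟩ v154; ok v155 && (
  let v156 := mul v155 v155; ok v156 && (
  isLt v156 68719476736 && (
  let v157 := scale ⟨9162596898, 0, 0, 0⟩ v156; ok v157 && (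
  let v158 := cst ⟨183251937962, 0, 0, 0⟩; ok v158 && (
  let v159 := add v157 v158; ok v159 && (
  let v160 := mul v159 v156; ok v160 && (
  let v161 := cst ⟨1099511627776, 0, 0, 0⟩; ok v161 && (
  let v162 := add v160 v161; ok v162 && (
  let v163 := cst ⟨65536, 0, 0, 0⟩; ok v163 && (
  let v164 := rball v162 v163; ok v164 && (
  let v165 := exp v155; ok v165 && (
  let v166 := mul v165 v164; ok v166 && (
  let v167 := mul v148 v166; ok v167 && (
  isPos 3 x0 && (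
  let v168 := inv x0; ok v168 && (
  let v169 := mul x0 v153; ok v169 && (
  let v170 := exp v169; ok v170 && (
  let v171 := cst ⟨1099511627776, 0, 0, 0⟩; ok v171 && (
  let v172 := sub v170 v171; ok v172 && (
  let v173 := mul v172 v168; ok v173 && (
  let v174 := mul v10 x2; ok v174 && (
  let v175 := add v174 v28; ok v175 && (
  let v176 := mul v80 v175; ok v176 && (
  let v177 := mul x0 v176; ok v177 && (
  let v178 := add v177 v10; ok v178 && (
  isPos 3 v178 && (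
  let v179 := inv v178; ok v179 && (
  let v180 := add v88 v26; ok v180 && (
  let v181 := mul v167 v180; ok v181 && (
  let v182 := mul v176 v176; ok v182 && (
  let v183 := scale ⟨2199023255552, 0, 0, 0⟩ v182; ok v183 && (
  let v184 := sub v181 v183; ok v184 && (
  let v185 := mul v26 v26; ok v185 && (
  let v186 := scale ⟨549755813888, 0, 0, 0⟩ v185; ok v186 && (
  let v187 := sub v184 v186; ok v187 && (
  let v188 := mul x0 v167; ok v188 && (
  let v189 := cst ⟨2199023255552, 0, 0, 0⟩; ok v189 && (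
  let v190 := add v188 v189; ok v190 && (
  let v191 := mul v173 v190; ok v191 && (
  let v192 := mul v26 v191; ok v192 && (
  let v193 := add v187 v192; ok v193 && (
  let v194 := mul x0 v179; ok v194 && (
  let v195 := mul v194 v194; ok v195 && (
  let v196 := mul v195 v193; ok v196 && (
  let v197 := add v196 v0; ok v197 && (
  isPos 3 v197 && (
  let v198 := log v197; ok v198 && (
  let v199 := scale ⟨549755813888, 0, 0, 0⟩ v198; ok v199 && (
  let v200 := exp v199; ok v200 && (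
  let v201 := add v200 v0; ok v201 && (
  isPos 3 v201 && (
  let v202 := mul v193 v179; ok v202 && (
  let v203 := inv v201; ok v203 && (
  let v204 := mul v202 v203; ok v204 && (
  let v205 := mul x0 v204; ok v205 && (
  let v206 := add v176 v205; ok v206 && (
  isPos 3 v130 && (
  let v207 := inv v130; ok v207 && (
  let v208 := mul v7 v79; ok v208 && (
  let v209 := mul v207 v208; ok v209 && (
  let v210 := mul v209 v204; ok v210 && (
  let v211 := mul x0 v210; ok v211 && (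
  let v212 := add v211 v0; ok v212 && (
  isPos 3 v212 && (
  let v213 := mul v178 v7; ok v213 && (
  isPos 3 v213 && (
  let v214 := log v213; ok v214 && (
  let v215 := scale ⟨549755813888, 0, 0, 0⟩ v198; ok v215 && (
  let v216 := add v214 v215; ok v216 && (
  let v217 := mul v216 v168; ok v217 && (
  let v218 := scale ⟨61989453824, 0, 0, 0⟩ v36; ok v218 && (
  let v219 := scale ⟨0, 12800557056, 0, 0⟩ v37; ok v219 && (
  let v220 := add v218 v219; ok v220 && (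
  let v221 := scale ⟨2795962368, 0, 0, 0⟩ v38; ok v221 && (
  let v222 := add v220 v221; ok v222 && (
  let v223 := scale ⟨2750755176448, 0, 0, 0⟩ v34; ok v223 && (
  let v224 := add v222 v223; ok v224 && (
  let v225 := scale ⟨118749462528, 0, 0, 0⟩ v39; ok v225 && (
  let v226 := add v224 v225; ok v226 && (
  let v227 := cst ⟨560567222272, 0, 0, 0⟩; ok v227 && (
  let v228 := add v226 v227; ok v228 && (
  let v229 := scale ⟨3298534883328, 0, 0, 0⟩ v2; ok v229 && (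
  let v230 := exp v229; ok v230 && (
  isPos 3 v228 && (
  let v231 := mul v210 v230; ok v231 && (
  let v232 := scale ⟨2199023255552, 0, 0, 0⟩ v231; ok v232 && (
  let v233 := inv v212; ok v233 && (
  let v234 := mul v209 v233; ok v234 && (
  let v235 := inv v228; ok v235 && (
  let v236 := mul v230 v235; ok v236 && (
  let v237 := mul v234 v236; ok v237 && (
  let v238 := mul v232 v237; ok v238 && (
  isLt v238 1099510579200 && (
  let v239 := cst ⟨17551383855104, 0, 0, 0⟩; ok v239 && (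
  let v240 := add v27 v239; ok v240 && (
  isPos 3 v240 && (
  let v241 := mul v206 v206; ok v241 && (
  let v242 := sub v241 v27; ok v242 && (
  let v243 := inv v240; ok v243 && (
  let v244 := mul v242 v243; ok v244 && (
  isLt v244 1099510579200 && (
  let v245 := scale ⟨0, 327680, 0, 0⟩ v88; ok v245 && (
  let v246 := cst ⟨0, 67567616, 0, 0⟩; ok v246 && (
  let v247 := add v245 v246; ok v247 && (
  let v248 := mul v88 v247; ok v248 && (
  let v249 := scale ⟨892928000, 0, 0, 0⟩ v36; ok v249 && (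
  let v250 := scale ⟨582272090112, 0, 0, 0⟩ v34; ok v250 && (
  let v251 := add v249 v250; ok v251 && (
  let v252 := cst ⟨24242814976, 0, 0, 0⟩; ok v252 && (
  let v253 := add v251 v252; ok v253 && (
  let v254 := add v248 v253; ok v254 && (
  let v255 := mul v88 v254; ok v255 && (
  let v256 := scale ⟨45136281600, 0, 0, 0⟩ v36; ok v256 && (
  let v257 := scale ⟨0, 12360351744, 0, 0⟩ v37; ok v257 && (
  let v258 := add v256 v257; ok v258 && (
  let v259 := scale ⟨2951477460992, 0, 0, 0⟩ v34; ok v259 && (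
  let v260 := add v258 v259; ok v260 && (
  let v261 := cst ⟨1176270077952, 0, 0, 0⟩; ok v261 && (
  let v262 := add v260 v261; ok v262 && (
  let v263 := add v255 v262; ok v263 && (
  let v264 := scale ⟨1099511627776, 0, 0, 0⟩ v134; ok v264 && (
  isPos 3 v264 && (
  let v265 := inv v264; ok v265 && (
  let v266 := mul v136 v207; ok v266 && (
  let v267 := mul v266 v265; ok v267 && (
  let v268 := scale ⟨549755813888, 0, 0, 0⟩ v267; ok v268 && (
  let v269 := mul x0 v206; ok v269 && (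
  let v270 := add v269 v10; ok v270 && (
  isPos 3 v270 && (
  let v271 := inv v270; ok v271 && (
  let v272 := mul v7 v271; ok v272 && (
  let v273 := sub v206 v24; ok v273 && (
  let v274 := add v7 v271; ok v274 && (
  let v275 := mul v273 v274; ok v275 && (
  let v276 := mul v272 v275; ok v276 && (
  let v277 := mul v7 v24; ok v277 && (
  let v278 := scale ⟨2199023255552, 0, 0, 0⟩ v277; ok v278 && (
  let v279 := add v276 v278; ok v279 && (
  let v280 := scale ⟨0, 60524679135232, 0, 0⟩ v34; ok v280 && (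
  let v281 := cst ⟨0, 5053834330112, 0, 0⟩; ok v281 && (
  let v282 := add v280 v281; ok v282 && (
  let v283 := sub v279 v282; ok v283 && (
  isPos 3 v283 && (
  let v284 := inv v283; ok v284 && (
  let v285 := scale ⟨31362867265536, 0, 0, 0⟩ v284; ok v285 && (
  let v286 := add v283 v285; ok v286 && (
  isPos 3 v286 && (
  let v287 := inv v286; ok v287 && (
  let v288 := scale ⟨0, 270527419008, 0, 0⟩ v36; ok v288 && (
  let v289 := scale ⟨0, 32461373761536, 0, 0⟩ v34; ok v289 && (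
  let v290 := add v288 v289; ok v290 && (
  let v291 := cst ⟨0, 1060590521088, 0, 0⟩; ok v291 && (
  let v292 := add v290 v291; ok v292 && (
  let v293 := scale ⟨918269146496, 0, 0, 0⟩ v36; ok v293 && (
  let v294 := scale ⟨68349684162112, 0, 0, 0⟩ v34; ok v294 && (
  let v295 := add v293 v294; ok v295 && (
  let v296 := cst ⟨6529253197056, 0, 0, 0⟩; ok v296 && (
  let v297 := add v295 v296; ok v297 && (
  let v298 := mul v284 v297; ok v298 && (
  let v299 := add v292 v298; ok v299 && (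
  let v300 := mul v299 v287; ok v300 && (
  let v301 := scale ⟨0, 7168, 0, 0⟩ v279; ok v301 && (
  let v302 := cst ⟨542272, 0, 0, 0⟩; ok v302 && (
  let v303 := add v301 v302; ok v303 && (
  let v304 := mul v279 v303; ok v304 && (
  let v305 := add v304 v77; ok v305 && (
  let v306 := mul v279 v305; ok v306 && (
  let v307 := add v306 v74; ok v307 && (
  let v308 := mul v279 v307; ok v308 && (
  let v309 := add v308 v69; ok v309 && (
  let v310 := mul v279 v309; ok v310 && (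
  let v311 := add v310 v62; ok v311 && (
  let v312 := mul v279 v311; ok v312 && (
  let v313 := add v300 v53; ok v313 && (
  let v314 := add v312 v313; ok v314 && (
  let v315 := mul v276 v314; ok v315 && (
  let v316 := add v315 v11; ok v316 && (
  let v317 := neg v316; ok v317 && (
  let v318 := exp v317; ok v318 && (
  let v319 := add v318 v0; ok v319 && (
  isPos 3 v319 && (
  let v320 := log v319; ok v320 && (
  let v321 := scale ⟨549755813888, 0, 0, 0⟩ v206; ok v321 && (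
  let v322 := add v321 v0; ok v322 && (
  isPos 3 v322 && (
  let v323 := inv v322; ok v323 && (
  let v324 := scale ⟨3298534883328, 0, 0, 0⟩ v2; ok v324 && (
  let v325 := neg v324; ok v325 && (
  let v326 := exp v325; ok v326 && (
  let v327 := scale ⟨65970700288, 0, 0, 0⟩ v326; ok v327 && (
  let v328 := scale ⟨1099511627776, 0, 0, 0⟩ v327; ok v328 && (
  let v329 := mul v328 v265; ok v329 && (
  let v330 := mul v6 v80; ok v330 && (
  let v331 := mul v330 v212; ok v331 && (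
  let v332 := mul v329 v331; ok v332 && (
  let v333 := mul v136 v323; ok v333 && (
  let v334 := mul v332 v333; ok v334 && (
  let v335 := add v124 v129; ok v335 && (
  let v336 := sub v335 v320; ok v336 && (
  let v337 := sub v336 v217; ok v337 && (
  let v338 := exp v337; ok v338 && (
  let v339 := cst ⟨0, 0, 0, 0⟩; ok v339 && (
  let v340 := mul v263 v338; ok v340 && (
  let v341 := mul v340 v318; ok v341 && (
  let v342 := mul v341 v334; ok v342 && (
  let v343 := rball v339 v342; ok v343 && (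
  let v344 := sub v0 v263; ok v344 && (
  let v345 := mul x3 v344; ok v345 && (
  let v346 := sub v0 v338; ok v346 && (
  let v347 := scale ⟨1099511627776, 0, 0, 0⟩ v346; ok v347 && (
  let v348 := mul v347 v268; ok v348 && (
  let v349 := mul v263 v348; ok v349 && (
  let v350 := add v345 v349; ok v350 && (
  let v351 := add v350 v343; ok v351 && (
  isLt v351 1099510579200 && (
  true))))))))))))))))))))))))))))))))))))))))))))))))))))))))))))))))))))))))))))))))))))))))))))))))))))))))))))))))))))))))))))))))))))))))))))))))))))))))))))))))))))))))))))))))))))))))))))))))))))))))))))))))))))))))))))))))))))))))))))))))))))))))))))))))))))))))))))))))))))))))))))))))))))))))))))))))))))))))))))))))))))))))))))))))))))))))))))))))))))))))))))))))))))))))))))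
  | _ => false

set_option maxRecDepth 1000000 in
theorem c2_2_eq (X : XOps) (m : List X.O.α)
    (h : c2_2 X.O.cst X.O.add X.O.sub X.O.mul X.O.scale X.O.neg X.O.inv X.O.exp X.O.log X.O.ok
      X.O.isPos X.O.isLt X.ball X.rball m = true) :
    runX X 3 p2_2 m = true := by
  match m, h with
  | [x0, x1, x2, x3], h => exact h

def p1_A2 : List Op := [
  .const ⟨1099511627776, 0, 0, 0⟩,
  .scale ⟨700938662707200, 0, 0, 0⟩ 1,
  .const ⟨0, 97049053757440, 0, 0⟩,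
  .add 1 0,
  .mul 0 4,
  .const ⟨4198331580416, 0, 0, 0⟩,
  .add 1 0,
  .mul 8 0,
  .const ⟨2199023255552, 0, 0, 0⟩,
  .add 1 0,
  .mul 10 0,
  .exp 0,
  .neg 1,
  .exp 0,
  .mul 3 3,
  .lt 0 68719476736,
  .scale ⟨9162596898, 0, 0, 0⟩ 0,
  .const ⟨183251937962, 0, 0, 0⟩,
  .add 1 0,
  .mul 0 3,
  .const ⟨1099511627776, 0, 0, 0⟩,
  .add 1 0,
  .const ⟨65536, 0, 0, 0⟩,
  .rball 1 0,
  .scale ⟨2199023255552, 0, 0, 0⟩ 13,
  .mul 0 1,
  .add 13 11,
  .scale ⟨549755813888, 0, 0, 0⟩ 0,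
  .mul 2 0,
  .mul 0 0,
  .const ⟨45902462976, 0, 0, 0⟩,
  .sub 30 0,
  .const ⟨2886218022912, 0, 0, 0⟩,
  .sub 22 0,
  .mul 0 0,
  .mul 0 1,
  .mul 4 2,
  .mul 22 22,
  .mul 0 0,
  .scale ⟨8796093022208, 0, 0, 0⟩ 27,
  .neg 0,
  .exp 0,
  .scale ⟨115205013504, 0, 0, 0⟩ 8,
  .scale ⟨45857046528, 0, 0, 0⟩ 8,
  .add 1 0,
  .scale ⟨5235998720, 0, 0, 0⟩ 9,
  .add 1 0,
  .scale ⟨7933926440960, 0, 0, 0⟩ 15,
  .add 1 0,
  .scale ⟨5550231257088, 0, 0, 0⟩ 12,
  .add 1 0,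
  .const ⟨1376728317952, 0, 0, 0⟩,
  .add 1 0,
  .mul 52 24,
  .mul 0 1,
  .add 0 53,
  .mul 14 0,
  .scale ⟨1099511627776, 0, 0, 0⟩ 18,
  .add 0 56,
  .mul 21 0,
  .scale ⟨2199023255552, 0, 0, 0⟩ 0,
  .mul 8 19,
  .sub 1 0,
  .mul 62 0,
  .add 7 62,
  .mul 1 35,
  .mul 1 67,
  .scale ⟨0, 0, 1099511627776, 0⟩ 0,
  .add 2 0,
  .mul 5 70,
  .scale ⟨0, 0, 1099511627776, 0⟩ 0,
  .add 6 0,
  .inv 0,
  .mul 4 0]

set_option maxRecDepth 1000000 in
noncomputable def c_A2_0 {α : Type} (cst : Z → α) (add sub mul : α → α → α) (scale : Z → α → α)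
    (neg inv exp log : α → α) (ok : α → Bool) (isPos : Nat → α → Bool) (isLt : α → Nat → Bool)
    (ball : Nat → α → α) (rball : α → α → α) : List α → Bool
  | [x0, x1, x2, x3] =>
  let v0 := cst ⟨1099511627776, 0, 0, 0⟩; ok v0 && (
  let v1 := scale ⟨700938662707200, 0, 0, 0⟩ x0; ok v1 && (
  let v2 := cst ⟨0, 97049053757440, 0, 0⟩; ok v2 && (
  let v3 := add v1 v2; ok v3 && (
  let v4 := mul v3 x0; ok v4 && (
  let v5 := cst ⟨4198331580416, 0, 0, 0⟩; ok v5 && (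
  let v6 := add v4 v5; ok v6 && (
  let v7 := mul x1 v6; ok v7 && (
  let v8 := cst ⟨2199023255552, 0, 0, 0⟩; ok v8 && (
  let v9 := add v7 v8; ok v9 && (
  let v10 := mul x0 v9; ok v10 && (
  let v11 := exp v10; ok v11 && (
  let v12 := neg v10; ok v12 && (
  let v13 := exp v12; ok v13 && (
  let v14 := mul v10 v10; ok v14 && (
  isLt v14 68719476736 && (
  let v15 := scale ⟨9162596898, 0, 0, 0⟩ v14; ok v15 && (
  let v16 := cst ⟨183251937962, 0, 0, 0⟩; ok v16 && (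
  let v17 := add v15 v16; ok v17 && (
  let v18 := mul v17 v14; ok v18 && (
  let v19 := cst ⟨1099511627776, 0, 0, 0⟩; ok v19 && (
  let v20 := add v18 v19; ok v20 && (
  let v21 := cst ⟨65536, 0, 0, 0⟩; ok v21 && (
  let v22 := rball v20 v21; ok v22 && (
  let v23 := scale ⟨2199023255552, 0, 0, 0⟩ v9; ok v23 && (
  let v24 := mul v23 v22; ok v24 && (
  let v25 := add v11 v13; ok v25 && (
  let v26 := scale ⟨549755813888, 0, 0, 0⟩ v25; ok v26 && (
  let v27 := mul v24 v26; ok v27 && (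
  let v28 := mul v27 v27; ok v28 && (
  let v29 := cst ⟨45902462976, 0, 0, 0⟩; ok v29 && (
  let v30 := sub x0 v29; ok v30 && (
  let v31 := cst ⟨2886218022912, 0, 0, 0⟩; ok v31 && (
  let v32 := sub v9 v31; ok v32 && (
  let v33 := mul v32 v32; ok v33 && (
  let v34 := mul v33 v32; ok v34 && (
  let v35 := mul v30 v32; ok v35 && (
  let v36 := mul v13 v13; ok v36 && (
  let v37 := mul v36 v36; ok v37 && (
  let v38 := scale ⟨8796093022208, 0, 0, 0⟩ v10; ok v38 && (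
  let v39 := neg v38; ok v39 && (
  let v40 := exp v39; ok v40 && (
  let v41 := scale ⟨115205013504, 0, 0, 0⟩ v32; ok v41 && (
  let v42 := scale ⟨45857046528, 0, 0, 0⟩ v33; ok v42 && (
  let v43 := add v41 v42; ok v43 && (
  let v44 := scale ⟨5235998720, 0, 0, 0⟩ v34; ok v44 && (
  let v45 := add v43 v44; ok v45 && (
  let v46 := scale ⟨7933926440960, 0, 0, 0⟩ v30; ok v46 && (
  let v47 := add v45 v46; ok v47 && (
  let v48 := scale ⟨5550231257088, 0, 0, 0⟩ v35; ok v48 && (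
  let v49 := add v47 v48; ok v49 && (
  let v50 := cst ⟨1376728317952, 0, 0, 0⟩; ok v50 && (
  let v51 := add v49 v50; ok v51 && (
  let v52 := mul x0 v27; ok v52 && (
  let v53 := mul v52 v51; ok v53 && (
  let v54 := add v53 v0; ok v54 && (
  let v55 := mul v40 v54; ok v55 && (
  let v56 := scale ⟨1099511627776, 0, 0, 0⟩ v37; ok v56 && (
  let v57 := add v56 v0; ok v57 && (
  let v58 := mul v36 v57; ok v58 && (
  let v59 := scale ⟨2199023255552, 0, 0, 0⟩ v58; ok v59 && (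
  let v60 := mul v51 v40; ok v60 && (
  let v61 := sub v59 v60; ok v61 && (
  let v62 := mul x0 v61; ok v62 && (
  let v63 := add v55 v0; ok v63 && (
  let v64 := mul v62 v28; ok v64 && (
  let v65 := mul v63 x2; ok v65 && (
  let v66 := scale ⟨0, 0, 1099511627776, 0⟩ v65; ok v66 && (
  let v67 := add v64 v66; ok v67 && (
  let v68 := mul v62 x2; ok v68 && (
  let v69 := scale ⟨0, 0, 1099511627776, 0⟩ v68; ok v69 && (
  let v70 := add v63 v69; ok v70 && (
  let v71 := inv v70; ok v71 && (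
  let v72 := mul v67 v71; ok v72 && (
  c2_2 cst add sub mul scale neg inv exp log ok isPos isLt ball rball [x0, v9, v72, x3]))))))))))))))))))))))))))))))))))))))))))))))))))))))))))))))))))))))))))
  | _ => false

set_option maxRecDepth 1000000 in
theorem c_A2_0_eq (X : XOps) (m : List X.O.α)
    (h : c_A2_0 X.O.cst X.O.add X.O.sub X.O.mul X.O.scale X.O.neg X.O.inv X.O.exp X.O.log X.O.ok
      X.O.isPos X.O.isLt X.ball X.rball m = true) :
    runX X 3 (p1_A2 ++ reloc [73, 63, 0, 76] 77 0 p2_2) m = true := by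
  match m, h with
  | [x0, x1, x2, x3], h => exact share (c2_2_eq X) [x0, x1, x2, x3] (Nat.le_of_ble_eq_true rfl) h

def p_A2_1 : List Op := [
  .const ⟨1099511627776, 0, 0, 0⟩,
  .scale ⟨700938662707200, 0, 0, 0⟩ 1,
  .const ⟨0, 97049053757440, 0, 0⟩,
  .add 1 0,
  .mul 0 4,
  .const ⟨4198331580416, 0, 0, 0⟩,
  .add 1 0,
  .mul 8 0,
  .const ⟨2199023255552, 0, 0, 0⟩,
  .add 1 0,
  .mul 10 0,
  .exp 0,
  .neg 1,
  .exp 0,
  .mul 3 3,
  .lt 0 68719476736,
  .scale ⟨9162596898, 0, 0, 0⟩ 0,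
  .const ⟨183251937962, 0, 0, 0⟩,
  .add 1 0,
  .mul 0 3,
  .const ⟨1099511627776, 0, 0, 0⟩,
  .add 1 0,
  .const ⟨65536, 0, 0, 0⟩,
  .rball 1 0,
  .scale ⟨2199023255552, 0, 0, 0⟩ 13,
  .mul 0 1,
  .add 13 11,
  .scale ⟨549755813888, 0, 0, 0⟩ 0,
  .mul 2 0,
  .mul 0 0,
  .const ⟨45902462976, 0, 0, 0⟩,
  .sub 30 0,
  .const ⟨2886218022912, 0, 0, 0⟩,
  .sub 22 0,
  .mul 0 0,
  .mul 0 1,
  .mul 4 2,
  .mul 22 22,
  .mul 0 0,
  .scale ⟨8796093022208, 0, 0, 0⟩ 27,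
  .neg 0,
  .exp 0,
  .scale ⟨115205013504, 0, 0, 0⟩ 8,
  .scale ⟨45857046528, 0, 0, 0⟩ 8,
  .add 1 0,
  .scale ⟨5235998720, 0, 0, 0⟩ 9,
  .add 1 0,
  .scale ⟨7933926440960, 0, 0, 0⟩ 15,
  .add 1 0,
  .scale ⟨5550231257088, 0, 0, 0⟩ 12,
  .add 1 0,
  .const ⟨1376728317952, 0, 0, 0⟩,
  .add 1 0,
  .mul 52 24,
  .mul 0 1,
  .add 0 53,
  .mul 14 0,
  .scale ⟨1099511627776, 0, 0, 0⟩ 18,
  .add 0 56,
  .mul 21 0,
  .scale ⟨2199023255552, 0, 0, 0⟩ 0,
  .mul 8 19,
  .sub 1 0,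
  .mul 62 0,
  .add 7 62,
  .mul 1 35,
  .mul 1 67,
  .scale ⟨0, 0, 1099511627776, 0⟩ 0,
  .add 2 0,
  .mul 5 70,
  .scale ⟨0, 0, 1099511627776, 0⟩ 0,
  .add 6 0,
  .inv 0,
  .mul 4 0,
  .const ⟨16039555366912, 0, 0, 0⟩,
  .add 45 0,
  .mul 75 0,
  .mul 76 3,
  .mul 0 4,
  .mul 78 49,
  .sub 1 0,
  .inv 0,
  .mul 5 0,
  .lt 0 1099511627520]

set_option maxRecDepth 1000000 in
noncomputable def c_A2_1 {α : Type} (cst : Z → α) (add sub mul : α → α → α) (scale : Z → α → α)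
    (neg inv exp log : α → α) (ok : α → Bool) (isPos : Nat → α → Bool) (isLt : α → Nat → Bool)
    (ball : Nat → α → α) (rball : α → α → α) : List α → Bool
  | [x0, x1, x2, x3] =>
  let v0 := cst ⟨1099511627776, 0, 0, 0⟩; ok v0 && (
  let v1 := scale ⟨700938662707200, 0, 0, 0⟩ x0; ok v1 && (
  let v2 := cst ⟨0, 97049053757440, 0, 0⟩; ok v2 && (
  let v3 := add v1 v2; ok v3 && (
  let v4 := mul v3 x0; ok v4 && (
  let v5 := cst ⟨4198331580416, 0, 0, 0⟩; ok v5 && (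
  let v6 := add v4 v5; ok v6 && (
  let v7 := mul x1 v6; ok v7 && (
  let v8 := cst ⟨2199023255552, 0, 0, 0⟩; ok v8 && (
  let v9 := add v7 v8; ok v9 && (
  let v10 := mul x0 v9; ok v10 && (
  let v11 := exp v10; ok v11 && (
  let v12 := neg v10; ok v12 && (
  let v13 := exp v12; ok v13 && (
  let v14 := mul v10 v10; ok v14 && (
  isLt v14 68719476736 && (
  let v15 := scale ⟨9162596898, 0, 0, 0⟩ v14; ok v15 && (
  let v16 := cst ⟨183251937962, 0, 0, 0⟩; ok v16 && (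
  let v17 := add v15 v16; ok v17 && (
  let v18 := mul v17 v14; ok v18 && (
  let v19 := cst ⟨1099511627776, 0, 0, 0⟩; ok v19 && (
  let v20 := add v18 v19; ok v20 && (
  let v21 := cst ⟨65536, 0, 0, 0⟩; ok v21 && (
  let v22 := rball v20 v21; ok v22 && (
  let v23 := scale ⟨2199023255552, 0, 0, 0⟩ v9; ok v23 && (
  let v24 := mul v23 v22; ok v24 && (
  let v25 := add v11 v13; ok v25 && (
  let v26 := scale ⟨549755813888, 0, 0, 0⟩ v25; ok v26 && (
  let v27 := mul v24 v26; ok v27 && (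
  let v28 := mul v27 v27; ok v28 && (
  let v29 := cst ⟨45902462976, 0, 0, 0⟩; ok v29 && (
  let v30 := sub x0 v29; ok v30 && (
  let v31 := cst ⟨2886218022912, 0, 0, 0⟩; ok v31 && (
  let v32 := sub v9 v31; ok v32 && (
  let v33 := mul v32 v32; ok v33 && (
  let v34 := mul v33 v32; ok v34 && (
  let v35 := mul v30 v32; ok v35 && (
  let v36 := mul v13 v13; ok v36 && (
  let v37 := mul v36 v36; ok v37 && (
  let v38 := scale ⟨8796093022208, 0, 0, 0⟩ v10; ok v38 && (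
  let v39 := neg v38; ok v39 && (
  let v40 := exp v39; ok v40 && (
  let v41 := scale ⟨115205013504, 0, 0, 0⟩ v32; ok v41 && (
  let v42 := scale ⟨45857046528, 0, 0, 0⟩ v33; ok v42 && (
  let v43 := add v41 v42; ok v43 && (
  let v44 := scale ⟨5235998720, 0, 0, 0⟩ v34; ok v44 && (
  let v45 := add v43 v44; ok v45 && (
  let v46 := scale ⟨7933926440960, 0, 0, 0⟩ v30; ok v46 && (
  let v47 := add v45 v46; ok v47 && (
  let v48 := scale ⟨5550231257088, 0, 0, 0⟩ v35; ok v48 && (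
  let v49 := add v47 v48; ok v49 && (
  let v50 := cst ⟨1376728317952, 0, 0, 0⟩; ok v50 && (
  let v51 := add v49 v50; ok v51 && (
  let v52 := mul x0 v27; ok v52 && (
  let v53 := mul v52 v51; ok v53 && (
  let v54 := add v53 v0; ok v54 && (
  let v55 := mul v40 v54; ok v55 && (
  let v56 := scale ⟨1099511627776, 0, 0, 0⟩ v37; ok v56 && (
  let v57 := add v56 v0; ok v57 && (
  let v58 := mul v36 v57; ok v58 && (
  let v59 := scale ⟨2199023255552, 0, 0, 0⟩ v58; ok v59 && (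
  let v60 := mul v51 v40; ok v60 && (
  let v61 := sub v59 v60; ok v61 && (
  let v62 := mul x0 v61; ok v62 && (
  let v63 := add v55 v0; ok v63 && (
  let v64 := mul v62 v28; ok v64 && (
  let v65 := mul v63 x2; ok v65 && (
  let v66 := scale ⟨0, 0, 1099511627776, 0⟩ v65; ok v66 && (
  let v67 := add v64 v66; ok v67 && (
  let v68 := mul v62 x2; ok v68 && (
  let v69 := scale ⟨0, 0, 1099511627776, 0⟩ v68; ok v69 && (
  let v70 := add v63 v69; ok v70 && (
  let v71 := inv v70; ok v71 && (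
  let v72 := mul v67 v71; ok v72 && (
  let v73 := cst ⟨16039555366912, 0, 0, 0⟩; ok v73 && (
  let v74 := add v28 v73; ok v74 && (
  let v75 := mul x0 v74; ok v75 && (
  let v76 := mul x0 v72; ok v76 && (
  let v77 := mul v76 v72; ok v77 && (
  let v78 := mul x0 v28; ok v78 && (
  let v79 := sub v77 v78; ok v79 && (
  let v80 := inv v79; ok v80 && (
  let v81 := mul v75 v80; ok v81 && (
  isLt v81 1099511627520 && (
  true))))))))))))))))))))))))))))))))))))))))))))))))))))))))))))))))))))))))))))))))))))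
  | _ => false

set_option maxRecDepth 1000000 in
theorem c_A2_1_eq (X : XOps) (m : List X.O.α)
    (h : c_A2_1 X.O.cst X.O.add X.O.sub X.O.mul X.O.scale X.O.neg X.O.inv X.O.exp X.O.log X.O.ok
      X.O.isPos X.O.isLt X.ball X.rball m = true) :
    runX X 3 p_A2_1 m = true := by
  match m, h with
  | [x0, x1, x2, x3], h => exact h

abbrev gA2 : List (List Op) := [(p1_A2 ++ reloc [73, 63, 0, 76] 77 0 p2_2), p_A2_1]

noncomputable abbrev kA2 : List (List xE.O.α → Bool) := [c_A2_0 xE.O.cst xE.O.add xE.O.sub xE.O.mul xE.O.scale xE.O.neg xE.O.inv xE.O.exp xE.O.log xE.O.ok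
      xE.O.isPos xE.O.isLt xE.ball xE.rball, c_A2_1 xE.O.cst xE.O.add xE.O.sub xE.O.mul xE.O.scale xE.O.neg xE.O.inv xE.O.exp xE.O.log xE.O.ok
      xE.O.isPos xE.O.isLt xE.ball xE.rball]

theorem kA2_eq : List.Forall₂ (fun (ops : List Op) (chk : List xE.O.α → Bool) =>
    ∀ m, chk m = true → runX xE 3 ops m = true) gA2 kA2 :=
  List.Forall₂.cons (c_A2_0_eq xE) (List.Forall₂.cons (c_A2_1_eq xE) List.Forall₂.nil)

theorem gA2_eq : gA2 = [circ (cA tab 2) (PSm tab 2), altP (cA tab 2) (oCut tab 2)] := by decide +kernel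

def p1_B2 : List Op := [
  .const ⟨1099511627776, 0, 0, 0⟩,
  .scale ⟨700938662707200, 0, 0, 0⟩ 1,
  .const ⟨0, 97049053757440, 0, 0⟩,
  .add 1 0,
  .mul 0 4,
  .const ⟨4198331580416, 0, 0, 0⟩,
  .add 1 0,
  .mul 8 0,
  .const ⟨2199023255552, 0, 0, 0⟩,
  .add 1 0,
  .mul 10 0,
  .exp 0,
  .neg 1,
  .exp 0,
  .mul 3 3,
  .lt 0 68719476736,
  .scale ⟨9162596898, 0, 0, 0⟩ 0,
  .const ⟨183251937962, 0, 0, 0⟩,
  .add 1 0,
  .mul 0 3,
  .const ⟨1099511627776, 0, 0, 0⟩,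
  .add 1 0,
  .const ⟨65536, 0, 0, 0⟩,
  .rball 1 0,
  .scale ⟨2199023255552, 0, 0, 0⟩ 13,
  .mul 0 1,
  .add 13 11,
  .scale ⟨549755813888, 0, 0, 0⟩ 0,
  .mul 2 0,
  .mul 0 0,
  .const ⟨45902462976, 0, 0, 0⟩,
  .sub 30 0,
  .const ⟨2886218022912, 0, 0, 0⟩,
  .sub 22 0,
  .mul 0 0,
  .mul 0 1,
  .mul 4 2,
  .mul 22 22,
  .mul 0 0,
  .scale ⟨8796093022208, 0, 0, 0⟩ 27,
  .neg 0,
  .exp 0,
  .scale ⟨115205013504, 0, 0, 0⟩ 8,
  .scale ⟨45857046528, 0, 0, 0⟩ 8,
  .add 1 0,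
  .scale ⟨5235998720, 0, 0, 0⟩ 9,
  .add 1 0,
  .scale ⟨7933926440960, 0, 0, 0⟩ 15,
  .add 1 0,
  .scale ⟨5550231257088, 0, 0, 0⟩ 12,
  .add 1 0,
  .const ⟨1376728317952, 0, 0, 0⟩,
  .add 1 0,
  .mul 52 24,
  .mul 0 1,
  .add 0 53,
  .mul 14 0,
  .scale ⟨1099511627776, 0, 0, 0⟩ 18,
  .add 0 56,
  .mul 21 0,
  .scale ⟨2199023255552, 0, 0, 0⟩ 0,
  .mul 8 19,
  .sub 1 0,
  .mul 62 0,
  .add 7 62,
  .mul 1 35,
  .mul 0 67,
  .scale ⟨0, 0, 1099511627776, 0⟩ 2,
  .add 1 0,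
  .mul 4 70,
  .scale ⟨0, 0, 1099511627776, 0⟩ 6,
  .add 1 0,
  .inv 0,
  .mul 4 0]

set_option maxRecDepth 1000000 in
noncomputable def c_B2_0 {α : Type} (cst : Z → α) (add sub mul : α → α → α) (scale : Z → α → α)
    (neg inv exp log : α → α) (ok : α → Bool) (isPos : Nat → α → Bool) (isLt : α → Nat → Bool)
    (ball : Nat → α → α) (rball : α → α → α) : List α → Bool
  | [x0, x1, x2, x3] =>
  let v0 := cst ⟨1099511627776, 0, 0, 0⟩; ok v0 && (
  let v1 := scale ⟨700938662707200, 0, 0, 0⟩ x0; ok v1 && (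
  let v2 := cst ⟨0, 97049053757440, 0, 0⟩; ok v2 && (
  let v3 := add v1 v2; ok v3 && (
  let v4 := mul v3 x0; ok v4 && (
  let v5 := cst ⟨4198331580416, 0, 0, 0⟩; ok v5 && (
  let v6 := add v4 v5; ok v6 && (
  let v7 := mul x1 v6; ok v7 && (
  let v8 := cst ⟨2199023255552, 0, 0, 0⟩; ok v8 && (
  let v9 := add v7 v8; ok v9 && (
  let v10 := mul x0 v9; ok v10 && (
  let v11 := exp v10; ok v11 && (
  let v12 := neg v10; ok v12 && (
  let v13 := exp v12; ok v13 && (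
  let v14 := mul v10 v10; ok v14 && (
  isLt v14 68719476736 && (
  let v15 := scale ⟨9162596898, 0, 0, 0⟩ v14; ok v15 && (
  let v16 := cst ⟨183251937962, 0, 0, 0⟩; ok v16 && (
  let v17 := add v15 v16; ok v17 && (
  let v18 := mul v17 v14; ok v18 && (
  let v19 := cst ⟨1099511627776, 0, 0, 0⟩; ok v19 && (
  let v20 := add v18 v19; ok v20 && (
  let v21 := cst ⟨65536, 0, 0, 0⟩; ok v21 && (
  let v22 := rball v20 v21; ok v22 && (
  let v23 := scale ⟨2199023255552, 0, 0, 0⟩ v9; ok v23 && (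
  let v24 := mul v23 v22; ok v24 && (
  let v25 := add v11 v13; ok v25 && (
  let v26 := scale ⟨549755813888, 0, 0, 0⟩ v25; ok v26 && (
  let v27 := mul v24 v26; ok v27 && (
  let v28 := mul v27 v27; ok v28 && (
  let v29 := cst ⟨45902462976, 0, 0, 0⟩; ok v29 && (
  let v30 := sub x0 v29; ok v30 && (
  let v31 := cst ⟨2886218022912, 0, 0, 0⟩; ok v31 && (
  let v32 := sub v9 v31; ok v32 && (
  let v33 := mul v32 v32; ok v33 && (
  let v34 := mul v33 v32; ok v34 && (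
  let v35 := mul v30 v32; ok v35 && (
  let v36 := mul v13 v13; ok v36 && (
  let v37 := mul v36 v36; ok v37 && (
  let v38 := scale ⟨8796093022208, 0, 0, 0⟩ v10; ok v38 && (
  let v39 := neg v38; ok v39 && (
  let v40 := exp v39; ok v40 && (
  let v41 := scale ⟨115205013504, 0, 0, 0⟩ v32; ok v41 && (
  let v42 := scale ⟨45857046528, 0, 0, 0⟩ v33; ok v42 && (
  let v43 := add v41 v42; ok v43 && (
  let v44 := scale ⟨5235998720, 0, 0, 0⟩ v34; ok v44 && (
  let v45 := add v43 v44; ok v45 && (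
  let v46 := scale ⟨7933926440960, 0, 0, 0⟩ v30; ok v46 && (
  let v47 := add v45 v46; ok v47 && (
  let v48 := scale ⟨5550231257088, 0, 0, 0⟩ v35; ok v48 && (
  let v49 := add v47 v48; ok v49 && (
  let v50 := cst ⟨1376728317952, 0, 0, 0⟩; ok v50 && (
  let v51 := add v49 v50; ok v51 && (
  let v52 := mul x0 v27; ok v52 && (
  let v53 := mul v52 v51; ok v53 && (
  let v54 := add v53 v0; ok v54 && (
  let v55 := mul v40 v54; ok v55 && (
  let v56 := scale ⟨1099511627776, 0, 0, 0⟩ v37; ok v56 && (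
  let v57 := add v56 v0; ok v57 && (
  let v58 := mul v36 v57; ok v58 && (
  let v59 := scale ⟨2199023255552, 0, 0, 0⟩ v58; ok v59 && (
  let v60 := mul v51 v40; ok v60 && (
  let v61 := sub v59 v60; ok v61 && (
  let v62 := mul x0 v61; ok v62 && (
  let v63 := add v55 v0; ok v63 && (
  let v64 := mul v62 v28; ok v64 && (
  let v65 := mul v64 x2; ok v65 && (
  let v66 := scale ⟨0, 0, 1099511627776, 0⟩ v63; ok v66 && (
  let v67 := add v65 v66; ok v67 && (
  let v68 := mul v63 x2; ok v68 && (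
  let v69 := scale ⟨0, 0, 1099511627776, 0⟩ v62; ok v69 && (
  let v70 := add v68 v69; ok v70 && (
  let v71 := inv v70; ok v71 && (
  let v72 := mul v67 v71; ok v72 && (
  c2_2 cst add sub mul scale neg inv exp log ok isPos isLt ball rball [x0, v9, v72, x3]))))))))))))))))))))))))))))))))))))))))))))))))))))))))))))))))))))))))))
  | _ => false

set_option maxRecDepth 1000000 in
theorem c_B2_0_eq (X : XOps) (m : List X.O.α)
    (h : c_B2_0 X.O.cst X.O.add X.O.sub X.O.mul X.O.scale X.O.neg X.O.inv X.O.exp X.O.log X.O.ok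
      X.O.isPos X.O.isLt X.ball X.rball m = true) :
    runX X 3 (p1_B2 ++ reloc [73, 63, 0, 76] 77 0 p2_2) m = true := by
  match m, h with
  | [x0, x1, x2, x3], h => exact share (c2_2_eq X) [x0, x1, x2, x3] (Nat.le_of_ble_eq_true rfl) h

def p_B2_1 : List Op := [
  .const ⟨1099511627776, 0, 0, 0⟩,
  .scale ⟨700938662707200, 0, 0, 0⟩ 1,
  .const ⟨0, 97049053757440, 0, 0⟩,
  .add 1 0,
  .mul 0 4,
  .const ⟨4198331580416, 0, 0, 0⟩,
  .add 1 0,
  .mul 8 0,
  .const ⟨2199023255552, 0, 0, 0⟩,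
  .add 1 0,
  .mul 10 0,
  .exp 0,
  .neg 1,
  .exp 0,
  .mul 3 3,
  .lt 0 68719476736,
  .scale ⟨9162596898, 0, 0, 0⟩ 0,
  .const ⟨183251937962, 0, 0, 0⟩,
  .add 1 0,
  .mul 0 3,
  .const ⟨1099511627776, 0, 0, 0⟩,
  .add 1 0,
  .const ⟨65536, 0, 0, 0⟩,
  .rball 1 0,
  .scale ⟨2199023255552, 0, 0, 0⟩ 13,
  .mul 0 1,
  .add 13 11,
  .scale ⟨549755813888, 0, 0, 0⟩ 0,
  .mul 2 0,
  .mul 0 0,
  .const ⟨45902462976, 0, 0, 0⟩,
  .sub 30 0,
  .const ⟨2886218022912, 0, 0, 0⟩,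
  .sub 22 0,
  .mul 0 0,
  .mul 0 1,
  .mul 4 2,
  .mul 22 22,
  .mul 0 0,
  .scale ⟨8796093022208, 0, 0, 0⟩ 27,
  .neg 0,
  .exp 0,
  .scale ⟨115205013504, 0, 0, 0⟩ 8,
  .scale ⟨45857046528, 0, 0, 0⟩ 8,
  .add 1 0,
  .scale ⟨5235998720, 0, 0, 0⟩ 9,
  .add 1 0,
  .scale ⟨7933926440960, 0, 0, 0⟩ 15,
  .add 1 0,
  .scale ⟨5550231257088, 0, 0, 0⟩ 12,
  .add 1 0,
  .const ⟨1376728317952, 0, 0, 0⟩,
  .add 1 0,
  .mul 52 24,
  .mul 0 1,
  .add 0 53,
  .mul 14 0,
  .scale ⟨1099511627776, 0, 0, 0⟩ 18,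
  .add 0 56,
  .mul 21 0,
  .scale ⟨2199023255552, 0, 0, 0⟩ 0,
  .mul 8 19,
  .sub 1 0,
  .mul 62 0,
  .add 7 62,
  .mul 1 35,
  .mul 0 67,
  .scale ⟨0, 0, 1099511627776, 0⟩ 2,
  .add 1 0,
  .mul 4 70,
  .scale ⟨0, 0, 1099511627776, 0⟩ 6,
  .add 1 0,
  .inv 0,
  .mul 4 0,
  .const ⟨16039555366912, 0, 0, 0⟩,
  .add 45 0,
  .mul 75 0,
  .mul 76 3,
  .mul 0 4,
  .mul 78 49,
  .sub 1 0,
  .inv 0,
  .mul 5 0,
  .lt 0 1099511627520]

set_option maxRecDepth 1000000 in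
noncomputable def c_B2_1 {α : Type} (cst : Z → α) (add sub mul : α → α → α) (scale : Z → α → α)
    (neg inv exp log : α → α) (ok : α → Bool) (isPos : Nat → α → Bool) (isLt : α → Nat → Bool)
    (ball : Nat → α → α) (rball : α → α → α) : List α → Bool
  | [x0, x1, x2, x3] =>
  let v0 := cst ⟨1099511627776, 0, 0, 0⟩; ok v0 && (
  let v1 := scale ⟨700938662707200, 0, 0, 0⟩ x0; ok v1 && (
  let v2 := cst ⟨0, 97049053757440, 0, 0⟩; ok v2 && (
  let v3 := add v1 v2; ok v3 && (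
  let v4 := mul v3 x0; ok v4 && (
  let v5 := cst ⟨4198331580416, 0, 0, 0⟩; ok v5 && (
  let v6 := add v4 v5; ok v6 && (
  let v7 := mul x1 v6; ok v7 && (
  let v8 := cst ⟨2199023255552, 0, 0, 0⟩; ok v8 && (
  let v9 := add v7 v8; ok v9 && (
  let v10 := mul x0 v9; ok v10 && (
  let v11 := exp v10; ok v11 && (
  let v12 := neg v10; ok v12 && (
  let v13 := exp v12; ok v13 && (
  let v14 := mul v10 v10; ok v14 && (
  isLt v14 68719476736 && (
  let v15 := scale ⟨9162596898, 0, 0, 0⟩ v14; ok v15 && (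
  let v16 := cst ⟨183251937962, 0, 0, 0⟩; ok v16 && (
  let v17 := add v15 v16; ok v17 && (
  let v18 := mul v17 v14; ok v18 && (
  let v19 := cst ⟨1099511627776, 0, 0, 0⟩; ok v19 && (
  let v20 := add v18 v19; ok v20 && (
  let v21 := cst ⟨65536, 0, 0, 0⟩; ok v21 && (
  let v22 := rball v20 v21; ok v22 && (
  let v23 := scale ⟨2199023255552, 0, 0, 0⟩ v9; ok v23 && (
  let v24 := mul v23 v22; ok v24 && (
  let v25 := add v11 v13; ok v25 && (
  let v26 := scale ⟨549755813888, 0, 0, 0⟩ v25; ok v26 && (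
  let v27 := mul v24 v26; ok v27 && (
  let v28 := mul v27 v27; ok v28 && (
  let v29 := cst ⟨45902462976, 0, 0, 0⟩; ok v29 && (
  let v30 := sub x0 v29; ok v30 && (
  let v31 := cst ⟨2886218022912, 0, 0, 0⟩; ok v31 && (
  let v32 := sub v9 v31; ok v32 && (
  let v33 := mul v32 v32; ok v33 && (
  let v34 := mul v33 v32; ok v34 && (
  let v35 := mul v30 v32; ok v35 && (
  let v36 := mul v13 v13; ok v36 && (
  let v37 := mul v36 v36; ok v37 && (
  let v38 := scale ⟨8796093022208, 0, 0, 0⟩ v10; ok v38 && (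
  let v39 := neg v38; ok v39 && (
  let v40 := exp v39; ok v40 && (
  let v41 := scale ⟨115205013504, 0, 0, 0⟩ v32; ok v41 && (
  let v42 := scale ⟨45857046528, 0, 0, 0⟩ v33; ok v42 && (
  let v43 := add v41 v42; ok v43 && (
  let v44 := scale ⟨5235998720, 0, 0, 0⟩ v34; ok v44 && (
  let v45 := add v43 v44; ok v45 && (
  let v46 := scale ⟨7933926440960, 0, 0, 0⟩ v30; ok v46 && (
  let v47 := add v45 v46; ok v47 && (
  let v48 := scale ⟨5550231257088, 0, 0, 0⟩ v35; ok v48 && (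
  let v49 := add v47 v48; ok v49 && (
  let v50 := cst ⟨1376728317952, 0, 0, 0⟩; ok v50 && (
  let v51 := add v49 v50; ok v51 && (
  let v52 := mul x0 v27; ok v52 && (
  let v53 := mul v52 v51; ok v53 && (
  let v54 := add v53 v0; ok v54 && (
  let v55 := mul v40 v54; ok v55 && (
  let v56 := scale ⟨1099511627776, 0, 0, 0⟩ v37; ok v56 && (
  let v57 := add v56 v0; ok v57 && (
  let v58 := mul v36 v57; ok v58 && (
  let v59 := scale ⟨2199023255552, 0, 0, 0⟩ v58; ok v59 && (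
  let v60 := mul v51 v40; ok v60 && (
  let v61 := sub v59 v60; ok v61 && (
  let v62 := mul x0 v61; ok v62 && (
  let v63 := add v55 v0; ok v63 && (
  let v64 := mul v62 v28; ok v64 && (
  let v65 := mul v64 x2; ok v65 && (
  let v66 := scale ⟨0, 0, 1099511627776, 0⟩ v63; ok v66 && (
  let v67 := add v65 v66; ok v67 && (
  let v68 := mul v63 x2; ok v68 && (
  let v69 := scale ⟨0, 0, 1099511627776, 0⟩ v62; ok v69 && (
  let v70 := add v68 v69; ok v70 && (
  let v71 := inv v70; ok v71 && (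
  let v72 := mul v67 v71; ok v72 && (
  let v73 := cst ⟨16039555366912, 0, 0, 0⟩; ok v73 && (
  let v74 := add v28 v73; ok v74 && (
  let v75 := mul x0 v74; ok v75 && (
  let v76 := mul x0 v72; ok v76 && (
  let v77 := mul v76 v72; ok v77 && (
  let v78 := mul x0 v28; ok v78 && (
  let v79 := sub v77 v78; ok v79 && (
  let v80 := inv v79; ok v80 && (
  let v81 := mul v75 v80; ok v81 && (
  isLt v81 1099511627520 && (
  true))))))))))))))))))))))))))))))))))))))))))))))))))))))))))))))))))))))))))))))))))))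
  | _ => false

set_option maxRecDepth 1000000 in
theorem c_B2_1_eq (X : XOps) (m : List X.O.α)
    (h : c_B2_1 X.O.cst X.O.add X.O.sub X.O.mul X.O.scale X.O.neg X.O.inv X.O.exp X.O.log X.O.ok
      X.O.isPos X.O.isLt X.ball X.rball m = true) :
    runX X 3 p_B2_1 m = true := by
  match m, h with
  | [x0, x1, x2, x3], h => exact h

abbrev gB2 : List (List Op) := [(p1_B2 ++ reloc [73, 63, 0, 76] 77 0 p2_2), p_B2_1]

noncomputable abbrev kB2 : List (List xE.O.α → Bool) := [c_B2_0 xE.O.cst xE.O.add xE.O.sub xE.O.mul xE.O.scale xE.O.neg xE.O.inv xE.O.exp xE.O.log xE.O.ok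
      xE.O.isPos xE.O.isLt xE.ball xE.rball, c_B2_1 xE.O.cst xE.O.add xE.O.sub xE.O.mul xE.O.scale xE.O.neg xE.O.inv xE.O.exp xE.O.log xE.O.ok
      xE.O.isPos xE.O.isLt xE.ball xE.rball]

theorem kB2_eq : List.Forall₂ (fun (ops : List Op) (chk : List xE.O.α → Bool) =>
    ∀ m, chk m = true → runX xE 3 ops m = true) gB2 kB2 :=
  List.Forall₂.cons (c_B2_0_eq xE) (List.Forall₂.cons (c_B2_1_eq xE) List.Forall₂.nil)

theorem gB2_eq : gB2 = [circ (cB tab 2) (PSm tab 2), altP (cB tab 2) (oCut tab 2)] := by decide +kernel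

def p1_D2 : List Op := [
  .const ⟨1099511627776, 0, 0, 0⟩,
  .scale ⟨700938662707200, 0, 0, 0⟩ 1,
  .const ⟨0, 97049053757440, 0, 0⟩,
  .add 1 0,
  .mul 0 4,
  .const ⟨4198331580416, 0, 0, 0⟩,
  .add 1 0,
  .mul 8 0,
  .const ⟨2199023255552, 0, 0, 0⟩,
  .add 1 0,
  .mul 10 0,
  .exp 0,
  .neg 1,
  .exp 0,
  .mul 3 3,
  .lt 0 68719476736,
  .scale ⟨9162596898, 0, 0, 0⟩ 0,
  .const ⟨183251937962, 0, 0, 0⟩,
  .add 1 0,
  .mul 0 3,
  .const ⟨1099511627776, 0, 0, 0⟩,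
  .add 1 0,
  .const ⟨65536, 0, 0, 0⟩,
  .rball 1 0,
  .scale ⟨2199023255552, 0, 0, 0⟩ 13,
  .mul 0 1,
  .add 13 11,
  .scale ⟨549755813888, 0, 0, 0⟩ 0,
  .mul 2 0,
  .mul 0 0,
  .const ⟨16039555366912, 0, 0, 0⟩,
  .add 1 0,
  .scale ⟨0, 0, 1099511627776, 0⟩ 33,
  .exp 0,
  .mul 2 0,
  .add 5 0,
  .log 0,
  .scale ⟨549755813888, 0, 0, 0⟩ 0,
  .exp 0]

set_option maxRecDepth 1000000 in
noncomputable def c_D2_0 {α : Type} (cst : Z → α) (add sub mul : α → α → α) (scale : Z → α → α)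
    (neg inv exp log : α → α) (ok : α → Bool) (isPos : Nat → α → Bool) (isLt : α → Nat → Bool)
    (ball : Nat → α → α) (rball : α → α → α) : List α → Bool
  | [x0, x1, x2, x3] =>
  let v0 := cst ⟨1099511627776, 0, 0, 0⟩; ok v0 && (
  let v1 := scale ⟨700938662707200, 0, 0, 0⟩ x0; ok v1 && (
  let v2 := cst ⟨0, 97049053757440, 0, 0⟩; ok v2 && (
  let v3 := add v1 v2; ok v3 && (
  let v4 := mul v3 x0; ok v4 && (
  let v5 := cst ⟨4198331580416, 0, 0, 0⟩; ok v5 && (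
  let v6 := add v4 v5; ok v6 && (
  let v7 := mul x1 v6; ok v7 && (
  let v8 := cst ⟨2199023255552, 0, 0, 0⟩; ok v8 && (
  let v9 := add v7 v8; ok v9 && (
  let v10 := mul x0 v9; ok v10 && (
  let v11 := exp v10; ok v11 && (
  let v12 := neg v10; ok v12 && (
  let v13 := exp v12; ok v13 && (
  let v14 := mul v10 v10; ok v14 && (
  isLt v14 68719476736 && (
  let v15 := scale ⟨9162596898, 0, 0, 0⟩ v14; ok v15 && (
  let v16 := cst ⟨183251937962, 0, 0, 0⟩; ok v16 && (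
  let v17 := add v15 v16; ok v17 && (
  let v18 := mul v17 v14; ok v18 && (
  let v19 := cst ⟨1099511627776, 0, 0, 0⟩; ok v19 && (
  let v20 := add v18 v19; ok v20 && (
  let v21 := cst ⟨65536, 0, 0, 0⟩; ok v21 && (
  let v22 := rball v20 v21; ok v22 && (
  let v23 := scale ⟨2199023255552, 0, 0, 0⟩ v9; ok v23 && (
  let v24 := mul v23 v22; ok v24 && (
  let v25 := add v11 v13; ok v25 && (
  let v26 := scale ⟨549755813888, 0, 0, 0⟩ v25; ok v26 && (
  let v27 := mul v24 v26; ok v27 && (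
  let v28 := mul v27 v27; ok v28 && (
  let v29 := cst ⟨16039555366912, 0, 0, 0⟩; ok v29 && (
  let v30 := add v28 v29; ok v30 && (
  let v31 := scale ⟨0, 0, 1099511627776, 0⟩ x2; ok v31 && (
  let v32 := exp v31; ok v32 && (
  let v33 := mul v30 v32; ok v33 && (
  let v34 := add v28 v33; ok v34 && (
  let v35 := log v34; ok v35 && (
  let v36 := scale ⟨549755813888, 0, 0, 0⟩ v35; ok v36 && (
  let v37 := exp v36; ok v37 && (
  c2_2 cst add sub mul scale neg inv exp log ok isPos isLt ball rball [x0, v9, v37, x3])))))))))))))))))))))))))))))))))))))))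
  | _ => false

set_option maxRecDepth 1000000 in
theorem c_D2_0_eq (X : XOps) (m : List X.O.α)
    (h : c_D2_0 X.O.cst X.O.add X.O.sub X.O.mul X.O.scale X.O.neg X.O.inv X.O.exp X.O.log X.O.ok
      X.O.isPos X.O.isLt X.ball X.rball m = true) :
    runX X 3 (p1_D2 ++ reloc [38, 28, 0, 41] 42 0 p2_2) m = true := by
  match m, h with
  | [x0, x1, x2, x3], h => exact share (c2_2_eq X) [x0, x1, x2, x3] (Nat.le_of_ble_eq_true rfl) h

def p_D2_1 : List Op := [
  .const ⟨1099511627776, 0, 0, 0⟩,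
  .scale ⟨700938662707200, 0, 0, 0⟩ 1,
  .const ⟨0, 97049053757440, 0, 0⟩,
  .add 1 0,
  .mul 0 4,
  .const ⟨4198331580416, 0, 0, 0⟩,
  .add 1 0,
  .mul 8 0,
  .const ⟨2199023255552, 0, 0, 0⟩,
  .add 1 0,
  .mul 10 0,
  .exp 0,
  .neg 1,
  .exp 0,
  .mul 3 3,
  .lt 0 68719476736,
  .scale ⟨9162596898, 0, 0, 0⟩ 0,
  .const ⟨183251937962, 0, 0, 0⟩,
  .add 1 0,
  .mul 0 3,
  .const ⟨1099511627776, 0, 0, 0⟩,
  .add 1 0,
  .const ⟨65536, 0, 0, 0⟩,
  .rball 1 0,
  .scale ⟨2199023255552, 0, 0, 0⟩ 13,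
  .mul 0 1,
  .add 13 11,
  .scale ⟨549755813888, 0, 0, 0⟩ 0,
  .mul 2 0,
  .mul 0 0,
  .const ⟨45902462976, 0, 0, 0⟩,
  .sub 30 0,
  .const ⟨2886218022912, 0, 0, 0⟩,
  .sub 22 0,
  .mul 0 0,
  .mul 0 1,
  .mul 4 2,
  .mul 22 22,
  .mul 0 0,
  .scale ⟨8796093022208, 0, 0, 0⟩ 27,
  .neg 0,
  .exp 0,
  .scale ⟨115205013504, 0, 0, 0⟩ 8,
  .scale ⟨45857046528, 0, 0, 0⟩ 8,
  .add 1 0,
  .scale ⟨5235998720, 0, 0, 0⟩ 9,
  .add 1 0,
  .scale ⟨7933926440960, 0, 0, 0⟩ 15,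
  .add 1 0,
  .scale ⟨5550231257088, 0, 0, 0⟩ 12,
  .add 1 0,
  .const ⟨1376728317952, 0, 0, 0⟩,
  .add 1 0,
  .mul 52 24,
  .mul 0 1,
  .add 0 53,
  .mul 14 0,
  .scale ⟨1099511627776, 0, 0, 0⟩ 18,
  .add 0 56,
  .mul 21 0,
  .scale ⟨2199023255552, 0, 0, 0⟩ 0,
  .mul 8 19,
  .sub 1 0,
  .const ⟨16039555366912, 0, 0, 0⟩,
  .add 34 0,
  .scale ⟨0, 0, 1099511627776, 0⟩ 66,
  .exp 0,
  .mul 2 0,
  .add 38 0,
  .log 0,
  .scale ⟨549755813888, 0, 0, 0⟩ 0,
  .exp 0,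
  .scale ⟨0, 0, 0, 1099511627776⟩ 73,
  .exp 0,
  .mul 9 0,
  .add 45 0,
  .log 0,
  .scale ⟨549755813888, 0, 0, 0⟩ 0,
  .exp 0,
  .mul 78 16,
  .add 23 78,
  .mul 1 0,
  .mul 10 3,
  .add 53 0,
  .mul 2 0,
  .mul 28 28,
  .add 0 84,
  .add 15 8,
  .mul 1 0,
  .sub 4 0,
  .pos 0]

set_option maxRecDepth 1000000 in
noncomputable def c_D2_1 {α : Type} (cst : Z → α) (add sub mul : α → α → α) (scale : Z → α → α)
    (neg inv exp log : α → α) (ok : α → Bool) (isPos : Nat → α → Bool) (isLt : α → Nat → Bool)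
    (ball : Nat → α → α) (rball : α → α → α) : List α → Bool
  | [x0, x1, x2, x3] =>
  let v0 := cst ⟨1099511627776, 0, 0, 0⟩; ok v0 && (
  let v1 := scale ⟨700938662707200, 0, 0, 0⟩ x0; ok v1 && (
  let v2 := cst ⟨0, 97049053757440, 0, 0⟩; ok v2 && (
  let v3 := add v1 v2; ok v3 && (
  let v4 := mul v3 x0; ok v4 && (
  let v5 := cst ⟨4198331580416, 0, 0, 0⟩; ok v5 && (
  let v6 := add v4 v5; ok v6 && (
  let v7 := mul x1 v6; ok v7 && (
  let v8 := cst ⟨2199023255552, 0, 0, 0⟩; ok v8 && (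
  let v9 := add v7 v8; ok v9 && (
  let v10 := mul x0 v9; ok v10 && (
  let v11 := exp v10; ok v11 && (
  let v12 := neg v10; ok v12 && (
  let v13 := exp v12; ok v13 && (
  let v14 := mul v10 v10; ok v14 && (
  isLt v14 68719476736 && (
  let v15 := scale ⟨9162596898, 0, 0, 0⟩ v14; ok v15 && (
  let v16 := cst ⟨183251937962, 0, 0, 0⟩; ok v16 && (
  let v17 := add v15 v16; ok v17 && (
  let v18 := mul v17 v14; ok v18 && (
  let v19 := cst ⟨1099511627776, 0, 0, 0⟩; ok v19 && (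
  let v20 := add v18 v19; ok v20 && (
  let v21 := cst ⟨65536, 0, 0, 0⟩; ok v21 && (
  let v22 := rball v20 v21; ok v22 && (
  let v23 := scale ⟨2199023255552, 0, 0, 0⟩ v9; ok v23 && (
  let v24 := mul v23 v22; ok v24 && (
  let v25 := add v11 v13; ok v25 && (
  let v26 := scale ⟨549755813888, 0, 0, 0⟩ v25; ok v26 && (
  let v27 := mul v24 v26; ok v27 && (
  let v28 := mul v27 v27; ok v28 && (
  let v29 := cst ⟨45902462976, 0, 0, 0⟩; ok v29 && (
  let v30 := sub x0 v29; ok v30 && (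
  let v31 := cst ⟨2886218022912, 0, 0, 0⟩; ok v31 && (
  let v32 := sub v9 v31; ok v32 && (
  let v33 := mul v32 v32; ok v33 && (
  let v34 := mul v33 v32; ok v34 && (
  let v35 := mul v30 v32; ok v35 && (
  let v36 := mul v13 v13; ok v36 && (
  let v37 := mul v36 v36; ok v37 && (
  let v38 := scale ⟨8796093022208, 0, 0, 0⟩ v10; ok v38 && (
  let v39 := neg v38; ok v39 && (
  let v40 := exp v39; ok v40 && (
  let v41 := scale ⟨115205013504, 0, 0, 0⟩ v32; ok v41 && (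
  let v42 := scale ⟨45857046528, 0, 0, 0⟩ v33; ok v42 && (
  let v43 := add v41 v42; ok v43 && (
  let v44 := scale ⟨5235998720, 0, 0, 0⟩ v34; ok v44 && (
  let v45 := add v43 v44; ok v45 && (
  let v46 := scale ⟨7933926440960, 0, 0, 0⟩ v30; ok v46 && (
  let v47 := add v45 v46; ok v47 && (
  let v48 := scale ⟨5550231257088, 0, 0, 0⟩ v35; ok v48 && (
  let v49 := add v47 v48; ok v49 && (
  let v50 := cst ⟨1376728317952, 0, 0, 0⟩; ok v50 && (
  let v51 := add v49 v50; ok v51 && (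
  let v52 := mul x0 v27; ok v52 && (
  let v53 := mul v52 v51; ok v53 && (
  let v54 := add v53 v0; ok v54 && (
  let v55 := mul v40 v54; ok v55 && (
  let v56 := scale ⟨1099511627776, 0, 0, 0⟩ v37; ok v56 && (
  let v57 := add v56 v0; ok v57 && (
  let v58 := mul v36 v57; ok v58 && (
  let v59 := scale ⟨2199023255552, 0, 0, 0⟩ v58; ok v59 && (
  let v60 := mul v51 v40; ok v60 && (
  let v61 := sub v59 v60; ok v61 && (
  let v62 := cst ⟨16039555366912, 0, 0, 0⟩; ok v62 && (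
  let v63 := add v28 v62; ok v63 && (
  let v64 := scale ⟨0, 0, 1099511627776, 0⟩ x2; ok v64 && (
  let v65 := exp v64; ok v65 && (
  let v66 := mul v63 v65; ok v66 && (
  let v67 := add v28 v66; ok v67 && (
  let v68 := log v67; ok v68 && (
  let v69 := scale ⟨549755813888, 0, 0, 0⟩ v68; ok v69 && (
  let v70 := exp v69; ok v70 && (
  let v71 := scale ⟨0, 0, 0, 1099511627776⟩ x2; ok v71 && (
  let v72 := exp v71; ok v72 && (
  let v73 := mul v63 v72; ok v73 && (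
  let v74 := add v28 v73; ok v74 && (
  let v75 := log v74; ok v75 && (
  let v76 := scale ⟨549755813888, 0, 0, 0⟩ v75; ok v76 && (
  let v77 := exp v76; ok v77 && (
  let v78 := mul x0 v61; ok v78 && (
  let v79 := add v55 v0; ok v79 && (
  let v80 := mul v78 v79; ok v80 && (
  let v81 := mul v70 v77; ok v81 && (
  let v82 := add v28 v81; ok v82 && (
  let v83 := mul v80 v82; ok v83 && (
  let v84 := mul v55 v55; ok v84 && (
  let v85 := add v84 v0; ok v85 && (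
  let v86 := add v70 v77; ok v86 && (
  let v87 := mul v85 v86; ok v87 && (
  let v88 := sub v83 v87; ok v88 && (
  isPos 3 v88 && (
  true)))))))))))))))))))))))))))))))))))))))))))))))))))))))))))))))))))))))))))))))))))))))))))
  | _ => false

set_option maxRecDepth 1000000 in
theorem c_D2_1_eq (X : XOps) (m : List X.O.α)
    (h : c_D2_1 X.O.cst X.O.add X.O.sub X.O.mul X.O.scale X.O.neg X.O.inv X.O.exp X.O.log X.O.ok
      X.O.isPos X.O.isLt X.ball X.rball m = true) :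
    runX X 3 p_D2_1 m = true := by
  match m, h with
  | [x0, x1, x2, x3], h => exact h

abbrev gD2 : List (List Op) := [(p1_D2 ++ reloc [38, 28, 0, 41] 42 0 p2_2), p_D2_1]

noncomputable abbrev kD2 : List (List xE.O.α → Bool) := [c_D2_0 xE.O.cst xE.O.add xE.O.sub xE.O.mul xE.O.scale xE.O.neg xE.O.inv xE.O.exp xE.O.log xE.O.ok
      xE.O.isPos xE.O.isLt xE.ball xE.rball, c_D2_1 xE.O.cst xE.O.add xE.O.sub xE.O.mul xE.O.scale xE.O.neg xE.O.inv xE.O.exp xE.O.log xE.O.ok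
      xE.O.isPos xE.O.isLt xE.ball xE.rball]

theorem kD2_eq : List.Forall₂ (fun (ops : List Op) (chk : List xE.O.α → Bool) =>
    ∀ m, chk m = true → runX xE 3 ops m = true) gD2 kD2 :=
  List.Forall₂.cons (c_D2_0_eq xE) (List.Forall₂.cons (c_D2_1_eq xE) List.Forall₂.nil)

theorem gD2_eq : gD2 = [circ (cD tab 2) (PSm tab 2), comp (oD tab 2) ρ4 4] := by decide +kernel

def p1_E2 : List Op := [
  .const ⟨1099511627776, 0, 0, 0⟩,
  .scale ⟨700938662707200, 0, 0, 0⟩ 1,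
  .const ⟨0, 97049053757440, 0, 0⟩,
  .add 1 0,
  .mul 0 4,
  .const ⟨4198331580416, 0, 0, 0⟩,
  .add 1 0,
  .mul 8 0,
  .const ⟨2199023255552, 0, 0, 0⟩,
  .add 1 0,
  .mul 10 0,
  .exp 0,
  .neg 1,
  .exp 0,
  .mul 3 3,
  .lt 0 68719476736,
  .scale ⟨9162596898, 0, 0, 0⟩ 0,
  .const ⟨183251937962, 0, 0, 0⟩,
  .add 1 0,
  .mul 0 3,
  .const ⟨1099511627776, 0, 0, 0⟩,
  .add 1 0,
  .const ⟨65536, 0, 0, 0⟩,
  .rball 1 0,
  .scale ⟨2199023255552, 0, 0, 0⟩ 13,
  .mul 0 1,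
  .add 13 11,
  .scale ⟨549755813888, 0, 0, 0⟩ 0,
  .mul 2 0,
  .mul 0 0,
  .const ⟨16039555366912, 0, 0, 0⟩,
  .add 1 0,
  .scale ⟨0, 0, 0, 1099511627776⟩ 33,
  .exp 0,
  .mul 2 0,
  .sub 0 5,
  .log 0,
  .scale ⟨549755813888, 0, 0, 0⟩ 0,
  .exp 0,
  .scale ⟨0, 0, 1099511627776, 0⟩ 0]

set_option maxRecDepth 1000000 in
noncomputable def c_E2_0 {α : Type} (cst : Z → α) (add sub mul : α → α → α) (scale : Z → α → α)
    (neg inv exp log : α → α) (ok : α → Bool) (isPos : Nat → α → Bool) (isLt : α → Nat → Bool)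
    (ball : Nat → α → α) (rball : α → α → α) : List α → Bool
  | [x0, x1, x2, x3] =>
  let v0 := cst ⟨1099511627776, 0, 0, 0⟩; ok v0 && (
  let v1 := scale ⟨700938662707200, 0, 0, 0⟩ x0; ok v1 && (
  let v2 := cst ⟨0, 97049053757440, 0, 0⟩; ok v2 && (
  let v3 := add v1 v2; ok v3 && (
  let v4 := mul v3 x0; ok v4 && (
  let v5 := cst ⟨4198331580416, 0, 0, 0⟩; ok v5 && (
  let v6 := add v4 v5; ok v6 && (
  let v7 := mul x1 v6; ok v7 && (
  let v8 := cst ⟨2199023255552, 0, 0, 0⟩; ok v8 && (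
  let v9 := add v7 v8; ok v9 && (
  let v10 := mul x0 v9; ok v10 && (
  let v11 := exp v10; ok v11 && (
  let v12 := neg v10; ok v12 && (
  let v13 := exp v12; ok v13 && (
  let v14 := mul v10 v10; ok v14 && (
  isLt v14 68719476736 && (
  let v15 := scale ⟨9162596898, 0, 0, 0⟩ v14; ok v15 && (
  let v16 := cst ⟨183251937962, 0, 0, 0⟩; ok v16 && (
  let v17 := add v15 v16; ok v17 && (
  let v18 := mul v17 v14; ok v18 && (
  let v19 := cst ⟨1099511627776, 0, 0, 0⟩; ok v19 && (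
  let v20 := add v18 v19; ok v20 && (
  let v21 := cst ⟨65536, 0, 0, 0⟩; ok v21 && (
  let v22 := rball v20 v21; ok v22 && (
  let v23 := scale ⟨2199023255552, 0, 0, 0⟩ v9; ok v23 && (
  let v24 := mul v23 v22; ok v24 && (
  let v25 := add v11 v13; ok v25 && (
  let v26 := scale ⟨549755813888, 0, 0, 0⟩ v25; ok v26 && (
  let v27 := mul v24 v26; ok v27 && (
  let v28 := mul v27 v27; ok v28 && (
  let v29 := cst ⟨16039555366912, 0, 0, 0⟩; ok v29 && (
  let v30 := add v28 v29; ok v30 && (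
  let v31 := scale ⟨0, 0, 0, 1099511627776⟩ x2; ok v31 && (
  let v32 := exp v31; ok v32 && (
  let v33 := mul v30 v32; ok v33 && (
  let v34 := sub v33 v28; ok v34 && (
  let v35 := log v34; ok v35 && (
  let v36 := scale ⟨549755813888, 0, 0, 0⟩ v35; ok v36 && (
  let v37 := exp v36; ok v37 && (
  let v38 := scale ⟨0, 0, 1099511627776, 0⟩ v37; ok v38 && (
  c2_2 cst add sub mul scale neg inv exp log ok isPos isLt ball rball [x0, v9, v38, x3]))))))))))))))))))))))))))))))))))))))))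
  | _ => false

set_option maxRecDepth 1000000 in
theorem c_E2_0_eq (X : XOps) (m : List X.O.α)
    (h : c_E2_0 X.O.cst X.O.add X.O.sub X.O.mul X.O.scale X.O.neg X.O.inv X.O.exp X.O.log X.O.ok
      X.O.isPos X.O.isLt X.ball X.rball m = true) :
    runX X 3 (p1_E2 ++ reloc [39, 29, 0, 42] 43 0 p2_2) m = true := by
  match m, h with
  | [x0, x1, x2, x3], h => exact share (c2_2_eq X) [x0, x1, x2, x3] (Nat.le_of_ble_eq_true rfl) h

def p_E2_1 : List Op := [
  .const ⟨1099511627776, 0, 0, 0⟩,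
  .scale ⟨700938662707200, 0, 0, 0⟩ 1,
  .const ⟨0, 97049053757440, 0, 0⟩,
  .add 1 0,
  .mul 0 4,
  .const ⟨4198331580416, 0, 0, 0⟩,
  .add 1 0,
  .mul 8 0,
  .const ⟨2199023255552, 0, 0, 0⟩,
  .add 1 0,
  .mul 10 0,
  .exp 0,
  .neg 1,
  .exp 0,
  .mul 3 3,
  .lt 0 68719476736,
  .scale ⟨9162596898, 0, 0, 0⟩ 0,
  .const ⟨183251937962, 0, 0, 0⟩,
  .add 1 0,
  .mul 0 3,
  .const ⟨1099511627776, 0, 0, 0⟩,
  .add 1 0,
  .const ⟨65536, 0, 0, 0⟩,
  .rball 1 0,
  .scale ⟨2199023255552, 0, 0, 0⟩ 13,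
  .mul 0 1,
  .add 13 11,
  .scale ⟨549755813888, 0, 0, 0⟩ 0,
  .mul 2 0,
  .mul 0 0,
  .const ⟨45902462976, 0, 0, 0⟩,
  .sub 30 0,
  .const ⟨2886218022912, 0, 0, 0⟩,
  .sub 22 0,
  .mul 0 0,
  .mul 0 1,
  .mul 4 2,
  .mul 22 22,
  .mul 0 0,
  .scale ⟨8796093022208, 0, 0, 0⟩ 27,
  .neg 0,
  .exp 0,
  .scale ⟨115205013504, 0, 0, 0⟩ 8,
  .scale ⟨45857046528, 0, 0, 0⟩ 8,
  .add 1 0,
  .scale ⟨5235998720, 0, 0, 0⟩ 9,
  .add 1 0,
  .scale ⟨7933926440960, 0, 0, 0⟩ 15,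
  .add 1 0,
  .scale ⟨5550231257088, 0, 0, 0⟩ 12,
  .add 1 0,
  .const ⟨1376728317952, 0, 0, 0⟩,
  .add 1 0,
  .mul 52 24,
  .mul 0 1,
  .add 0 53,
  .mul 14 0,
  .scale ⟨1099511627776, 0, 0, 0⟩ 18,
  .add 0 56,
  .mul 21 0,
  .scale ⟨2199023255552, 0, 0, 0⟩ 0,
  .mul 8 19,
  .sub 1 0,
  .const ⟨16039555366912, 0, 0, 0⟩,
  .add 34 0,
  .scale ⟨0, 0, 0, 1099511627776⟩ 66,
  .exp 0,
  .mul 2 0,
  .sub 0 38,
  .log 0,
  .scale ⟨549755813888, 0, 0, 0⟩ 0,
  .exp 0,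
  .scale ⟨0, 0, 1099511627776, 0⟩ 0,
  .scale ⟨0, 0, 1099511627776, 0⟩ 74,
  .exp 0,
  .mul 10 0,
  .sub 0 46,
  .log 0,
  .scale ⟨549755813888, 0, 0, 0⟩ 0,
  .exp 0,
  .scale ⟨0, 0, 0, 1099511627776⟩ 0,
  .mul 80 18,
  .add 25 80,
  .mul 1 0,
  .mul 11 3,
  .add 55 0,
  .mul 2 0,
  .mul 30 30,
  .add 0 86,
  .add 16 8,
  .mul 1 0,
  .sub 4 0,
  .pos 0]

set_option maxRecDepth 1000000 in
noncomputable def c_E2_1 {α : Type} (cst : Z → α) (add sub mul : α → α → α) (scale : Z → α → α)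
    (neg inv exp log : α → α) (ok : α → Bool) (isPos : Nat → α → Bool) (isLt : α → Nat → Bool)
    (ball : Nat → α → α) (rball : α → α → α) : List α → Bool
  | [x0, x1, x2, x3] =>
  let v0 := cst ⟨1099511627776, 0, 0, 0⟩; ok v0 && (
  let v1 := scale ⟨700938662707200, 0, 0, 0⟩ x0; ok v1 && (
  let v2 := cst ⟨0, 97049053757440, 0, 0⟩; ok v2 && (
  let v3 := add v1 v2; ok v3 && (
  let v4 := mul v3 x0; ok v4 && (
  let v5 := cst ⟨4198331580416, 0, 0, 0⟩; ok v5 && (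
  let v6 := add v4 v5; ok v6 && (
  let v7 := mul x1 v6; ok v7 && (
  let v8 := cst ⟨2199023255552, 0, 0, 0⟩; ok v8 && (
  let v9 := add v7 v8; ok v9 && (
  let v10 := mul x0 v9; ok v10 && (
  let v11 := exp v10; ok v11 && (
  let v12 := neg v10; ok v12 && (
  let v13 := exp v12; ok v13 && (
  let v14 := mul v10 v10; ok v14 && (
  isLt v14 68719476736 && (
  let v15 := scale ⟨9162596898, 0, 0, 0⟩ v14; ok v15 && (
  let v16 := cst ⟨183251937962, 0, 0, 0⟩; ok v16 && (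
  let v17 := add v15 v16; ok v17 && (
  let v18 := mul v17 v14; ok v18 && (
  let v19 := cst ⟨1099511627776, 0, 0, 0⟩; ok v19 && (
  let v20 := add v18 v19; ok v20 && (
  let v21 := cst ⟨65536, 0, 0, 0⟩; ok v21 && (
  let v22 := rball v20 v21; ok v22 && (
  let v23 := scale ⟨2199023255552, 0, 0, 0⟩ v9; ok v23 && (
  let v24 := mul v23 v22; ok v24 && (
  let v25 := add v11 v13; ok v25 && (
  let v26 := scale ⟨549755813888, 0, 0, 0⟩ v25; ok v26 && (
  let v27 := mul v24 v26; ok v27 && (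
  let v28 := mul v27 v27; ok v28 && (
  let v29 := cst ⟨45902462976, 0, 0, 0⟩; ok v29 && (
  let v30 := sub x0 v29; ok v30 && (
  let v31 := cst ⟨2886218022912, 0, 0, 0⟩; ok v31 && (
  let v32 := sub v9 v31; ok v32 && (
  let v33 := mul v32 v32; ok v33 && (
  let v34 := mul v33 v32; ok v34 && (
  let v35 := mul v30 v32; ok v35 && (
  let v36 := mul v13 v13; ok v36 && (
  let v37 := mul v36 v36; ok v37 && (
  let v38 := scale ⟨8796093022208, 0, 0, 0⟩ v10; ok v38 && (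
  let v39 := neg v38; ok v39 && (
  let v40 := exp v39; ok v40 && (
  let v41 := scale ⟨115205013504, 0, 0, 0⟩ v32; ok v41 && (
  let v42 := scale ⟨45857046528, 0, 0, 0⟩ v33; ok v42 && (
  let v43 := add v41 v42; ok v43 && (
  let v44 := scale ⟨5235998720, 0, 0, 0⟩ v34; ok v44 && (
  let v45 := add v43 v44; ok v45 && (
  let v46 := scale ⟨7933926440960, 0, 0, 0⟩ v30; ok v46 && (
  let v47 := add v45 v46; ok v47 && (
  let v48 := scale ⟨5550231257088, 0, 0, 0⟩ v35; ok v48 && (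
  let v49 := add v47 v48; ok v49 && (
  let v50 := cst ⟨1376728317952, 0, 0, 0⟩; ok v50 && (
  let v51 := add v49 v50; ok v51 && (
  let v52 := mul x0 v27; ok v52 && (
  let v53 := mul v52 v51; ok v53 && (
  let v54 := add v53 v0; ok v54 && (
  let v55 := mul v40 v54; ok v55 && (
  let v56 := scale ⟨1099511627776, 0, 0, 0⟩ v37; ok v56 && (
  let v57 := add v56 v0; ok v57 && (
  let v58 := mul v36 v57; ok v58 && (
  let v59 := scale ⟨2199023255552, 0, 0, 0⟩ v58; ok v59 && (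
  let v60 := mul v51 v40; ok v60 && (
  let v61 := sub v59 v60; ok v61 && (
  let v62 := cst ⟨16039555366912, 0, 0, 0⟩; ok v62 && (
  let v63 := add v28 v62; ok v63 && (
  let v64 := scale ⟨0, 0, 0, 1099511627776⟩ x2; ok v64 && (
  let v65 := exp v64; ok v65 && (
  let v66 := mul v63 v65; ok v66 && (
  let v67 := sub v66 v28; ok v67 && (
  let v68 := log v67; ok v68 && (
  let v69 := scale ⟨549755813888, 0, 0, 0⟩ v68; ok v69 && (
  let v70 := exp v69; ok v70 && (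
  let v71 := scale ⟨0, 0, 1099511627776, 0⟩ v70; ok v71 && (
  let v72 := scale ⟨0, 0, 1099511627776, 0⟩ x2; ok v72 && (
  let v73 := exp v72; ok v73 && (
  let v74 := mul v63 v73; ok v74 && (
  let v75 := sub v74 v28; ok v75 && (
  let v76 := log v75; ok v76 && (
  let v77 := scale ⟨549755813888, 0, 0, 0⟩ v76; ok v77 && (
  let v78 := exp v77; ok v78 && (
  let v79 := scale ⟨0, 0, 0, 1099511627776⟩ v78; ok v79 && (
  let v80 := mul x0 v61; ok v80 && (
  let v81 := add v55 v0; ok v81 && (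
  let v82 := mul v80 v81; ok v82 && (
  let v83 := mul v71 v79; ok v83 && (
  let v84 := add v28 v83; ok v84 && (
  let v85 := mul v82 v84; ok v85 && (
  let v86 := mul v55 v55; ok v86 && (
  let v87 := add v86 v0; ok v87 && (
  let v88 := add v71 v79; ok v88 && (
  let v89 := mul v87 v88; ok v89 && (
  let v90 := sub v85 v89; ok v90 && (
  isPos 3 v90 && (
  true)))))))))))))))))))))))))))))))))))))))))))))))))))))))))))))))))))))))))))))))))))))))))))))
  | _ => false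

set_option maxRecDepth 1000000 in
theorem c_E2_1_eq (X : XOps) (m : List X.O.α)
    (h : c_E2_1 X.O.cst X.O.add X.O.sub X.O.mul X.O.scale X.O.neg X.O.inv X.O.exp X.O.log X.O.ok
      X.O.isPos X.O.isLt X.ball X.rball m = true) :
    runX X 3 p_E2_1 m = true := by
  match m, h with
  | [x0, x1, x2, x3], h => exact h

abbrev gE2 : List (List Op) := [(p1_E2 ++ reloc [39, 29, 0, 42] 43 0 p2_2), p_E2_1]

noncomputable abbrev kE2 : List (List xE.O.α → Bool) := [c_E2_0 xE.O.cst xE.O.add xE.O.sub xE.O.mul xE.O.scale xE.O.neg xE.O.inv xE.O.exp xE.O.log xE.O.ok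
      xE.O.isPos xE.O.isLt xE.ball xE.rball, c_E2_1 xE.O.cst xE.O.add xE.O.sub xE.O.mul xE.O.scale xE.O.neg xE.O.inv xE.O.exp xE.O.log xE.O.ok
      xE.O.isPos xE.O.isLt xE.ball xE.rball]

theorem kE2_eq : List.Forall₂ (fun (ops : List Op) (chk : List xE.O.α → Bool) =>
    ∀ m, chk m = true → runX xE 3 ops m = true) gE2 kE2 :=
  List.Forall₂.cons (c_E2_0_eq xE) (List.Forall₂.cons (c_E2_1_eq xE) List.Forall₂.nil)

theorem gE2_eq : gE2 = [circ (cE tab 2) (PSm tab 2), comp (oE tab 2) ρ4 4] := by decide +kernel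

end Pool.Agent.helper14.NS.Q20e
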