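import Pool.Agent.helper14.NS.Q20e.Tab
import Pool.Agent.helper14.NR.Share

/-!
Generated: programs and compiled forms.
-/

namespace Pool.Agent.helper14.NS.Q20e

open Pool.Agent.helper31.IA (Z)
open Pool.Agent.helper31.IX (Op XOps runX Cov CovD cov_split covD_split)
open Pool.Agent.helper31.IC (TD)
open Pool.Agent.helper63.RG (reloc)
open Pool.Agent.helper63.NF hiding TD
open Pool.Agent.helper4.NS
open Pool.Agent.helper14.CF (xE covD_E)
open Pool.Agent.helper14.NR (share)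

def p_Z_0 : List Op := [
  .const ⟨1099511627776, 0, 0, 0⟩,
  .scale ⟨700938662707200, 0, 0, 0⟩ 1,
  .const ⟨0, 97049053757440, 0, 0⟩,
  .add 1 0,
  .mul 0 4,
  .const ⟨4198331580416, 0, 0, 0⟩,
  .add 1 0,
  .mul 8 0,
  .const ⟨2199023255552, 0, 0, 0⟩,
  .add 1 0,
  .mul 10 0,
  .scale ⟨2199023255552, 0, 0, 0⟩ 0,
  .exp 1,
  .neg 2,
  .exp 0,
  .mul 2 2,
  .mul 1 1,
  .mul 0 0,
  .add 2 1,
  .scale ⟨549755813888, 0, 0, 0⟩ 0,
  .scale ⟨2199023255552, 0, 0, 0⟩ 10,
  .mul 10 10,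
  .lt 0 68719476736,
  .scale ⟨9162596898, 0, 0, 0⟩ 0,
  .const ⟨183251937962, 0, 0, 0⟩,
  .add 1 0,
  .mul 0 3,
  .const ⟨1099511627776, 0, 0, 0⟩,
  .add 1 0,
  .const ⟨65536, 0, 0, 0⟩,
  .rball 1 0,
  .mul 9 0,
  .add 18 16,
  .scale ⟨549755813888, 0, 0, 0⟩ 0,
  .mul 2 0,
  .mul 3 3,
  .mul 35 0,
  .mul 2 2,
  .mul 37 0,
  .neg 17,
  .exp 0,
  .add 0 39,
  .pos 0,
  .log 0,
  .const ⟨45902462976, 0, 0, 0⟩,
  .sub 43 0,
  .const ⟨2886218022912, 0, 0, 0⟩,
  .sub 35 0,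
  .mul 0 0,
  .mul 0 1,
  .mul 4 2,
  .mul 5 5,
  .scale ⟨1546457856, 0, 0, 0⟩ 4,
  .scale ⟨85766848, 0, 0, 0⟩ 4,
  .add 1 0,
  .scale ⟨38785472, 0, 0, 0⟩ 5,
  .add 1 0,
  .scale ⟨3562866847936, 0, 0, 0⟩ 11,
  .add 1 0,
  .scale ⟨65395527616, 0, 0, 0⟩ 8,
  .add 1 0,
  .scale ⟨0, 6674684209920, 0, 0⟩ 9,
  .add 1 0,
  .const ⟨552302844800, 0, 0, 0⟩,
  .add 1 0,
  .scale ⟨5945574016, 0, 0, 0⟩ 17,
  .scale ⟨81163520, 0, 0, 0⟩ 17,
  .add 1 0,
  .scale ⟨0, 300493971264, 0, 0⟩ 22,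
  .add 1 0,
  .scale ⟨831512000, 0, 0, 0⟩ 19,
  .add 1 0,
  .const ⟨16259053248, 0, 0, 0⟩,
  .add 1 0,
  .scale ⟨0, 914677888, 0, 0⟩ 26,
  .scale ⟨0, 5645568, 0, 0⟩ 26,
  .add 1 0,
  .scale ⟨14693656832, 0, 0, 0⟩ 31,
  .add 1 0,
  .const ⟨0, 2854848512, 0, 0⟩,
  .add 1 0,
  .scale ⟨62857856, 0, 0, 0⟩ 33,
  .scale ⟨0, 498615232, 0, 0⟩ 36,
  .add 1 0,
  .const ⟨271814976, 0, 0, 0⟩,
  .add 1 0,
  .scale ⟨0, 1739456, 0, 0⟩ 38,
  .const ⟨0, 16286528, 0, 0⟩,
  .add 1 0,
  .scale ⟨0, 0, 1099511627776, 0⟩ 89,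
  .scale ⟨549755813888, 0, 0, 0⟩ 0,
  .add 0 88,
  .inv 0,
  .mul 3 0,
  .scale ⟨78243115020288, 0, 0, 0⟩ 0,
  .const ⟨0, 545728919360384, 0, 0⟩,
  .add 1 0,
  .mul 3 0,
  .const ⟨529641404022528, 0, 0, 0⟩,
  .add 1 0,
  .mul 6 0,
  .const ⟨0, 637010583920448, 0, 0⟩,
  .add 1 0,
  .mul 9 0,
  .const ⟨319217452105152, 0, 0, 0⟩,
  .add 1 0,
  .mul 12 0,
  .const ⟨0, 201664583442048, 0, 0⟩,
  .add 1 0,
  .mul 15 0,
  .scale ⟨644284736192, 0, 0, 0⟩ 62,
  .scale ⟨258591836660032, 0, 0, 0⟩ 65,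
  .add 1 0,
  .const ⟨52845433392448, 0, 0, 0⟩,
  .add 1 0,
  .add 5 0,
  .mul 22 0,
  .scale ⟨1879020556992, 0, 0, 0⟩ 69,
  .scale ⟨0, 126724504875648, 0, 0⟩ 72,
  .add 1 0,
  .const ⟨0, 21782004267776, 0, 0⟩,
  .add 1 0,
  .add 5 0,
  .mul 29 0,
  .scale ⟨0, 233489624768, 0, 0⟩ 76,
  .scale ⟨145601042082304, 0, 0, 0⟩ 79,
  .add 1 0,
  .const ⟨2460132632704, 0, 0, 0⟩,
  .add 1 0,
  .add 5 0,
  .mul 36 0,
  .scale ⟨686103447232, 0, 0, 0⟩ 83,
  .scale ⟨0, 29284297903808, 0, 0⟩ 86,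
  .add 1 0,
  .const ⟨0, 264405856832, 0, 0⟩,
  .add 1 0,
  .add 5 0,
  .mul 43 0,
  .scale ⟨126101102080, 0, 0, 0⟩ 90,
  .scale ⟨5782884673536, 0, 0, 0⟩ 93,
  .add 1 0,
  .const ⟨740668310144, 0, 0, 0⟩,
  .add 1 0,
  .add 5 0,
  .mul 50 0,
  .scale ⟨0, 248553755840, 0, 0⟩ 97,
  .scale ⟨0, 10422407373312, 0, 0⟩ 100,
  .add 1 0,
  .const ⟨3571698245120, 0, 0, 0⟩,
  .add 1 0,
  .add 5 0,
  .mul 57 0,
  .scale ⟨228786523968, 0, 0, 0⟩ 104,
  .scale ⟨0, 8384642368, 0, 0⟩ 104,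
  .add 1 0,
  .scale ⟨12526246684032, 0, 0, 0⟩ 109,
  .add 1 0,
  .scale ⟨3994771670080, 0, 0, 0⟩ 106,
  .add 1 0,
  .scale ⟨0, 41579879179200, 0, 0⟩ 107,
  .add 1 0,
  .const ⟨540235715840, 0, 0, 0⟩,
  .add 1 0,
  .mul 0 151,
  .add 12 0,
  .mul 163 163,
  .scale ⟨5703716569088, 0, 0, 0⟩ 0,
  .const ⟨1726576852992, 0, 0, 0⟩,
  .add 1 0,
  .scale ⟨4398046511104, 0, 0, 0⟩ 157,
  .mul 76 1,
  .scale ⟨4398046511104, 0, 0, 0⟩ 0,
  .add 2 0,
  .const ⟨109951188992, 0, 0, 0⟩,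
  .mul 0 1,
  .scale ⟨439697276928, 0, 0, 0⟩ 2,
  .add 0 173,
  .pos 0,
  .inv 0,
  .mul 3 0,
  .neg 14,
  .exp 0,
  .add 0 178,
  .pos 0,
  .log 0,
  .mul 4 184,
  .sub 181 0,
  .pos 0,
  .log 0,
  .mul 5 2,
  .add 0 184,
  .pos 0,
  .log 0,
  .sub 6 0,
  .add 178 146,
  .sub 1 0,
  .mul 0 190,
  .exp 0,
  .sub 5 8,
  .add 0 30,
  .mul 0 194,
  .exp 0,
  .mul 165 165,
  .scale ⟨274877906944, 0, 0, 0⟩ 0,
  .mul 34 0,
  .scale ⟨1649267441664, 0, 0, 0⟩ 0,
  .add 0 199,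
  .mul 34 0,
  .mul 204 0,
  .scale ⟨0, 0, 1099511627776, 0⟩ 0,
  .mul 0 0,
  .sub 7 0,
  .mul 14 14,
  .mul 0 1,
  .mul 44 0,
  .scale ⟨4398046511104, 0, 0, 0⟩ 0,
  .sub 209 0,
  .pos 0,
  .log 0,
  .scale ⟨549755813888, 0, 0, 0⟩ 0,
  .exp 0,
  .mul 214 7,
  .mul 17 19,
  .scale ⟨2199023255552, 0, 0, 0⟩ 10,
  .add 1 0,
  .mul 3 0,
  .mul 15 5,
  .mul 28 0,
  .add 2 0,
  .mul 26 0,
  .scale ⟨4398046511104, 0, 0, 0⟩ 0,
  .mul 224 0,
  .add 0 224,
  .pos 0,
  .log 0,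
  .scale ⟨549755813888, 0, 0, 0⟩ 0,
  .exp 0,
  .add 0 228,
  .pos 0,
  .inv 0,
  .mul 7 0,
  .scale ⟨549755813888, 0, 0, 0⟩ 196,
  .sub 1 0,
  .const ⟨12634720043008, 0, 0, 0⟩,
  .add 198 0,
  .pos 0,
  .mul 2 2,
  .sub 0 200,
  .inv 2,
  .mul 1 0,
  .lt 0 1099510579200,
  .mul 240 48,
  .mul 0 37,
  .scale ⟨2199023255552, 0, 0, 0⟩ 0,
  .sub 29 0,
  .pos 0,
  .add 231 229,
  .mul 41 0,
  .mul 246 0,
  .add 0 227,
  .pos 0,
  .inv 0,
  .mul 229 3,
  .add 0 212,
  .mul 2 0,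
  .pos 252,
  .inv 252,
  .sub 19 1,
  .mul 0 1,
  .add 9 221,
  .mul 239 8,
  .inv 1,
  .mul 1 0,
  .mul 0 4,
  .mul 260 0,
  .add 0 260,
  .scale ⟨8896512000, 0, 0, 0⟩ 216,
  .scale ⟨49953505280, 0, 0, 0⟩ 216,
  .add 1 0,
  .scale ⟨5328011264, 0, 0, 0⟩ 217,
  .add 1 0,
  .scale ⟨3692475383808, 0, 0, 0⟩ 223,
  .add 1 0,
  .scale ⟨4277154611200, 0, 0, 0⟩ 220,
  .add 1 0,
  .const ⟨774227099648, 0, 0, 0⟩,
  .add 1 0,
  .scale ⟨2199023255552, 0, 0, 0⟩ 13,
  .inv 12,
  .mul 16 0,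
  .mul 2 0,
  .mul 261 261,
  .inv 5,
  .mul 1 0,
  .mul 3 0,
  .lt 0 1099510579200,
  .mul 281 47,
  .add 0 262,
  .pos 0,
  .inv 0,
  .mul 267 0,
  .sub 51 251,
  .add 269 2,
  .mul 1 0,
  .mul 3 0,
  .mul 272 255,
  .scale ⟨2199023255552, 0, 0, 0⟩ 0,
  .add 2 0,
  .scale ⟨0, 60524679135232, 0, 0⟩ 248,
  .const ⟨0, 5053834330112, 0, 0⟩,
  .add 1 0,
  .sub 3 0,
  .pos 0,
  .inv 0,
  .scale ⟨31362867265536, 0, 0, 0⟩ 0,
  .add 2 0,
  .pos 0,
  .inv 0,
  .scale ⟨0, 270527419008, 0, 0⟩ 254,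
  .scale ⟨0, 32461373761536, 0, 0⟩ 257,
  .add 1 0,
  .const ⟨0, 1060590521088, 0, 0⟩,
  .add 1 0,
  .scale ⟨918269146496, 0, 0, 0⟩ 259,
  .scale ⟨68349684162112, 0, 0, 0⟩ 262,
  .add 1 0,
  .const ⟨6529253197056, 0, 0, 0⟩,
  .add 1 0,
  .mul 13 0,
  .add 6 0,
  .mul 0 12,
  .scale ⟨0, 7168, 0, 0⟩ 21,
  .const ⟨542272, 0, 0, 0⟩,
  .add 1 0,
  .mul 24 0,
  .add 0 230,
  .mul 26 0,
  .add 0 235,
  .mul 28 0,
  .add 0 242,
  .mul 30 0,
  .add 0 251,
  .mul 32 0,
  .add 12 262,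
  .add 1 0,
  .mul 38 0,
  .add 0 307,
  .neg 0,
  .exp 0,
  .add 0 330,
  .pos 0,
  .log 0,
  .add 170 152,
  .sub 0 1,
  .scale ⟨549755813888, 0, 0, 0⟩ 108,
  .mul 0 83,
  .sub 2 0,
  .exp 0,
  .scale ⟨0, 139128012800, 0, 0⟩ 247,
  .const ⟨140427067392, 0, 0, 0⟩,
  .add 1 0,
  .mul 250 0,
  .const ⟨0, 96231686144, 0, 0⟩,
  .add 1 0,
  .mul 253 0,
  .scale ⟨0, 8753184768, 0, 0⟩ 300,
  .scale ⟨0, 16443965440, 0, 0⟩ 303,
  .add 1 0,
  .const ⟨70590136320, 0, 0, 0⟩,
  .add 1 0,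
  .add 5 0,
  .mul 260 0,
  .scale ⟨0, 1404567552, 0, 0⟩ 307,
  .scale ⟨4050449989632, 0, 0, 0⟩ 310,
  .add 1 0,
  .const ⟨160479510528, 0, 0, 0⟩,
  .add 1 0,
  .add 5 0,
  .mul 267 0,
  .scale ⟨76597690368, 0, 0, 0⟩ 314,
  .scale ⟨10845290496, 0, 0, 0⟩ 314,
  .add 1 0,
  .scale ⟨4157502128128, 0, 0, 0⟩ 319,
  .add 1 0,
  .scale ⟨3216017129472, 0, 0, 0⟩ 316,
  .add 1 0,
  .scale ⟨31905125040128, 0, 0, 0⟩ 317,
  .add 1 0,
  .const ⟨1172345847808, 0, 0, 0⟩,
  .add 1 0,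
  .add 11 0,
  .inv 199,
  .mul 0 198,
  .scale ⟨879662989312, 0, 0, 0⟩ 140,
  .add 0 374,
  .pos 0,
  .scale ⟨1099511627776, 0, 0, 0⟩ 364,
  .neg 0,
  .exp 0,
  .scale ⟨65970700288, 0, 0, 0⟩ 0,
  .scale ⟨2199023255552, 0, 0, 0⟩ 0,
  .add 147 347,
  .mul 1 0,
  .inv 7,
  .mul 1 0,
  .const ⟨0, 0, 0, 0⟩,
  .mul 14 47,
  .mul 0 56,
  .mul 3 14,
  .mul 1 0,
  .rball 4 0,
  .sub 390 19,
  .mul 395 0,
  .sub 392 54,
  .mul 0 20,
  .mul 23 0,
  .add 3 0,
  .add 0 6,
  .lt 0 1099510579200]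

set_option maxRecDepth 1000000 in
noncomputable def c_Z_0 {α : Type} (cst : Z → α) (add sub mul : α → α → α) (scale : Z → α → α)
    (neg inv exp log : α → α) (ok : α → Bool) (isPos : Nat → α → Bool) (isLt : α → Nat → Bool)
    (ball : Nat → α → α) (rball : α → α → α) : List α → Bool
  | [x0, x1, x2, x3] =>
  let v0 := cst ⟨1099511627776, 0, 0, 0⟩; ok v0 && (
  let v1 := scale ⟨700938662707200, 0, 0, 0⟩ x0; ok v1 && (
  let v2 := cst ⟨0, 97049053757440, 0, 0⟩; ok v2 && (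
  let v3 := add v1 v2; ok v3 && (
  let v4 := mul v3 x0; ok v4 && (
  let v5 := cst ⟨4198331580416, 0, 0, 0⟩; ok v5 && (
  let v6 := add v4 v5; ok v6 && (
  let v7 := mul x1 v6; ok v7 && (
  let v8 := cst ⟨2199023255552, 0, 0, 0⟩; ok v8 && (
  let v9 := add v7 v8; ok v9 && (
  let v10 := mul x0 v9; ok v10 && (
  let v11 := scale ⟨2199023255552, 0, 0, 0⟩ v10; ok v11 && (
  let v12 := exp v10; ok v12 && (
  let v13 := neg v10; ok v13 && (
  let v14 := exp v13; ok v14 && (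
  let v15 := mul v12 v12; ok v15 && (
  let v16 := mul v14 v14; ok v16 && (
  let v17 := mul v16 v16; ok v17 && (
  let v18 := add v15 v16; ok v18 && (
  let v19 := scale ⟨549755813888, 0, 0, 0⟩ v18; ok v19 && (
  let v20 := scale ⟨2199023255552, 0, 0, 0⟩ v9; ok v20 && (
  let v21 := mul v10 v10; ok v21 && (
  isLt v21 68719476736 && (
  let v22 := scale ⟨9162596898, 0, 0, 0⟩ v21; ok v22 && (
  let v23 := cst ⟨183251937962, 0, 0, 0⟩; ok v23 && (
  let v24 := add v22 v23; ok v24 && (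
  let v25 := mul v24 v21; ok v25 && (
  let v26 := cst ⟨1099511627776, 0, 0, 0⟩; ok v26 && (
  let v27 := add v25 v26; ok v27 && (
  let v28 := cst ⟨65536, 0, 0, 0⟩; ok v28 && (
  let v29 := rball v27 v28; ok v29 && (
  let v30 := mul v20 v29; ok v30 && (
  let v31 := add v12 v14; ok v31 && (
  let v32 := scale ⟨549755813888, 0, 0, 0⟩ v31; ok v32 && (
  let v33 := mul v30 v32; ok v33 && (
  let v34 := mul v30 v30; ok v34 && (
  let v35 := mul x0 v34; ok v35 && (
  let v36 := mul v33 v33; ok v36 && (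
  let v37 := mul x0 v36; ok v37 && (
  let v38 := neg v20; ok v38 && (
  let v39 := exp v38; ok v39 && (
  let v40 := add v39 v0; ok v40 && (
  isPos 3 v40 && (
  let v41 := log v40; ok v41 && (
  let v42 := cst ⟨45902462976, 0, 0, 0⟩; ok v42 && (
  let v43 := sub x0 v42; ok v43 && (
  let v44 := cst ⟨2886218022912, 0, 0, 0⟩; ok v44 && (
  let v45 := sub v9 v44; ok v45 && (
  let v46 := mul v45 v45; ok v46 && (
  let v47 := mul v46 v45; ok v47 && (
  let v48 := mul v43 v45; ok v48 && (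
  let v49 := mul v43 v43; ok v49 && (
  let v50 := scale ⟨1546457856, 0, 0, 0⟩ v45; ok v50 && (
  let v51 := scale ⟨85766848, 0, 0, 0⟩ v46; ok v51 && (
  let v52 := add v50 v51; ok v52 && (
  let v53 := scale ⟨38785472, 0, 0, 0⟩ v47; ok v53 && (
  let v54 := add v52 v53; ok v54 && (
  let v55 := scale ⟨3562866847936, 0, 0, 0⟩ v43; ok v55 && (
  let v56 := add v54 v55; ok v56 && (
  let v57 := scale ⟨65395527616, 0, 0, 0⟩ v48; ok v57 && (
  let v58 := add v56 v57; ok v58 && (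
  let v59 := scale ⟨0, 6674684209920, 0, 0⟩ v49; ok v59 && (
  let v60 := add v58 v59; ok v60 && (
  let v61 := cst ⟨552302844800, 0, 0, 0⟩; ok v61 && (
  let v62 := add v60 v61; ok v62 && (
  let v63 := scale ⟨5945574016, 0, 0, 0⟩ v45; ok v63 && (
  let v64 := scale ⟨81163520, 0, 0, 0⟩ v46; ok v64 && (
  let v65 := add v63 v64; ok v65 && (
  let v66 := scale ⟨0, 300493971264, 0, 0⟩ v43; ok v66 && (
  let v67 := add v65 v66; ok v67 && (
  let v68 := scale ⟨831512000, 0, 0, 0⟩ v48; ok v68 && (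
  let v69 := add v67 v68; ok v69 && (
  let v70 := cst ⟨16259053248, 0, 0, 0⟩; ok v70 && (
  let v71 := add v69 v70; ok v71 && (
  let v72 := scale ⟨0, 914677888, 0, 0⟩ v45; ok v72 && (
  let v73 := scale ⟨0, 5645568, 0, 0⟩ v46; ok v73 && (
  let v74 := add v72 v73; ok v74 && (
  let v75 := scale ⟨14693656832, 0, 0, 0⟩ v43; ok v75 && (
  let v76 := add v74 v75; ok v76 && (
  let v77 := cst ⟨0, 2854848512, 0, 0⟩; ok v77 && (
  let v78 := add v76 v77; ok v78 && (
  let v79 := scale ⟨62857856, 0, 0, 0⟩ v45; ok v79 && (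
  let v80 := scale ⟨0, 498615232, 0, 0⟩ v43; ok v80 && (
  let v81 := add v79 v80; ok v81 && (
  let v82 := cst ⟨271814976, 0, 0, 0⟩; ok v82 && (
  let v83 := add v81 v82; ok v83 && (
  let v84 := scale ⟨0, 1739456, 0, 0⟩ v45; ok v84 && (
  let v85 := cst ⟨0, 16286528, 0, 0⟩; ok v85 && (
  let v86 := add v84 v85; ok v86 && (
  let v87 := scale ⟨0, 0, 1099511627776, 0⟩ x2; ok v87 && (
  let v88 := scale ⟨549755813888, 0, 0, 0⟩ v87; ok v88 && (
  let v89 := add v88 v0; ok v89 && (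
  let v90 := inv v89; ok v90 && (
  let v91 := mul v87 v90; ok v91 && (
  let v92 := scale ⟨78243115020288, 0, 0, 0⟩ v91; ok v92 && (
  let v93 := cst ⟨0, 545728919360384, 0, 0⟩; ok v93 && (
  let v94 := add v92 v93; ok v94 && (
  let v95 := mul v91 v94; ok v95 && (
  let v96 := cst ⟨529641404022528, 0, 0, 0⟩; ok v96 && (
  let v97 := add v95 v96; ok v97 && (
  let v98 := mul v91 v97; ok v98 && (
  let v99 := cst ⟨0, 637010583920448, 0, 0⟩; ok v99 && (
  let v100 := add v98 v99; ok v100 && (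
  let v101 := mul v91 v100; ok v101 && (
  let v102 := cst ⟨319217452105152, 0, 0, 0⟩; ok v102 && (
  let v103 := add v101 v102; ok v103 && (
  let v104 := mul v91 v103; ok v104 && (
  let v105 := cst ⟨0, 201664583442048, 0, 0⟩; ok v105 && (
  let v106 := add v104 v105; ok v106 && (
  let v107 := mul v91 v106; ok v107 && (
  let v108 := scale ⟨644284736192, 0, 0, 0⟩ v45; ok v108 && (
  let v109 := scale ⟨258591836660032, 0, 0, 0⟩ v43; ok v109 && (
  let v110 := add v108 v109; ok v110 && (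
  let v111 := cst ⟨52845433392448, 0, 0, 0⟩; ok v111 && (
  let v112 := add v110 v111; ok v112 && (
  let v113 := add v107 v112; ok v113 && (
  let v114 := mul v91 v113; ok v114 && (
  let v115 := scale ⟨1879020556992, 0, 0, 0⟩ v45; ok v115 && (
  let v116 := scale ⟨0, 126724504875648, 0, 0⟩ v43; ok v116 && (
  let v117 := add v115 v116; ok v117 && (
  let v118 := cst ⟨0, 21782004267776, 0, 0⟩; ok v118 && (
  let v119 := add v117 v118; ok v119 && (
  let v120 := add v114 v119; ok v120 && (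
  let v121 := mul v91 v120; ok v121 && (
  let v122 := scale ⟨0, 233489624768, 0, 0⟩ v45; ok v122 && (
  let v123 := scale ⟨145601042082304, 0, 0, 0⟩ v43; ok v123 && (
  let v124 := add v122 v123; ok v124 && (
  let v125 := cst ⟨2460132632704, 0, 0, 0⟩; ok v125 && (
  let v126 := add v124 v125; ok v126 && (
  let v127 := add v121 v126; ok v127 && (
  let v128 := mul v91 v127; ok v128 && (
  let v129 := scale ⟨686103447232, 0, 0, 0⟩ v45; ok v129 && (
  let v130 := scale ⟨0, 29284297903808, 0, 0⟩ v43; ok v130 && (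
  let v131 := add v129 v130; ok v131 && (
  let v132 := cst ⟨0, 264405856832, 0, 0⟩; ok v132 && (
  let v133 := add v131 v132; ok v133 && (
  let v134 := add v128 v133; ok v134 && (
  let v135 := mul v91 v134; ok v135 && (
  let v136 := scale ⟨126101102080, 0, 0, 0⟩ v45; ok v136 && (
  let v137 := scale ⟨5782884673536, 0, 0, 0⟩ v43; ok v137 && (
  let v138 := add v136 v137; ok v138 && (
  let v139 := cst ⟨740668310144, 0, 0, 0⟩; ok v139 && (
  let v140 := add v138 v139; ok v140 && (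
  let v141 := add v135 v140; ok v141 && (
  let v142 := mul v91 v141; ok v142 && (
  let v143 := scale ⟨0, 248553755840, 0, 0⟩ v45; ok v143 && (
  let v144 := scale ⟨0, 10422407373312, 0, 0⟩ v43; ok v144 && (
  let v145 := add v143 v144; ok v145 && (
  let v146 := cst ⟨3571698245120, 0, 0, 0⟩; ok v146 && (
  let v147 := add v145 v146; ok v147 && (
  let v148 := add v142 v147; ok v148 && (
  let v149 := mul v91 v148; ok v149 && (
  let v150 := scale ⟨228786523968, 0, 0, 0⟩ v45; ok v150 && (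
  let v151 := scale ⟨0, 8384642368, 0, 0⟩ v46; ok v151 && (
  let v152 := add v150 v151; ok v152 && (
  let v153 := scale ⟨12526246684032, 0, 0, 0⟩ v43; ok v153 && (
  let v154 := add v152 v153; ok v154 && (
  let v155 := scale ⟨3994771670080, 0, 0, 0⟩ v48; ok v155 && (
  let v156 := add v154 v155; ok v156 && (
  let v157 := scale ⟨0, 41579879179200, 0, 0⟩ v49; ok v157 && (
  let v158 := add v156 v157; ok v158 && (
  let v159 := cst ⟨540235715840, 0, 0, 0⟩; ok v159 && (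
  let v160 := add v158 v159; ok v160 && (
  let v161 := mul v160 v9; ok v161 && (
  let v162 := add v149 v161; ok v162 && (
  let v163 := mul x0 x0; ok v163 && (
  let v164 := scale ⟨5703716569088, 0, 0, 0⟩ v163; ok v164 && (
  let v165 := cst ⟨1726576852992, 0, 0, 0⟩; ok v165 && (
  let v166 := add v164 v165; ok v166 && (
  let v167 := scale ⟨4398046511104, 0, 0, 0⟩ v9; ok v167 && (
  let v168 := mul v91 v166; ok v168 && (
  let v169 := scale ⟨4398046511104, 0, 0, 0⟩ v168; ok v169 && (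
  let v170 := add v167 v169; ok v170 && (
  let v171 := cst ⟨109951188992, 0, 0, 0⟩; ok v171 && (
  let v172 := mul v171 v170; ok v172 && (
  let v173 := scale ⟨439697276928, 0, 0, 0⟩ v170; ok v173 && (
  let v174 := add v173 v0; ok v174 && (
  isPos 3 v174 && (
  let v175 := inv v174; ok v175 && (
  let v176 := mul v172 v175; ok v176 && (
  let v177 := neg v162; ok v177 && (
  let v178 := exp v177; ok v178 && (
  let v179 := add v178 v0; ok v179 && (
  isPos 3 v179 && (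
  let v180 := log v179; ok v180 && (
  let v181 := mul v176 x3; ok v181 && (
  let v182 := sub v0 v181; ok v182 && (
  isPos 3 v182 && (
  let v183 := log v182; ok v183 && (
  let v184 := mul v178 v181; ok v184 && (
  let v185 := add v184 v0; ok v185 && (
  isPos 3 v185 && (
  let v186 := log v185; ok v186 && (
  let v187 := sub v180 v186; ok v187 && (
  let v188 := add v9 v41; ok v188 && (
  let v189 := sub v187 v188; ok v189 && (
  let v190 := mul v189 x0; ok v190 && (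
  let v191 := exp v190; ok v191 && (
  let v192 := sub v186 v183; ok v192 && (
  let v193 := add v192 v162; ok v193 && (
  let v194 := mul v193 x0; ok v194 && (
  let v195 := exp v194; ok v195 && (
  let v196 := mul v30 v30; ok v196 && (
  let v197 := scale ⟨274877906944, 0, 0, 0⟩ v196; ok v197 && (
  let v198 := mul v163 v197; ok v198 && (
  let v199 := scale ⟨1649267441664, 0, 0, 0⟩ v198; ok v199 && (
  let v200 := add v199 v0; ok v200 && (
  let v201 := mul v166 v200; ok v201 && (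
  let v202 := mul x2 v201; ok v202 && (
  let v203 := scale ⟨0, 0, 1099511627776, 0⟩ v202; ok v203 && (
  let v204 := mul v203 v203; ok v204 && (
  let v205 := sub v197 v204; ok v205 && (
  let v206 := mul v191 v191; ok v206 && (
  let v207 := mul v206 v205; ok v207 && (
  let v208 := mul v163 v207; ok v208 && (
  let v209 := scale ⟨4398046511104, 0, 0, 0⟩ v208; ok v209 && (
  let v210 := sub v0 v209; ok v210 && (
  isPos 3 v210 && (
  let v211 := log v210; ok v211 && (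
  let v212 := scale ⟨549755813888, 0, 0, 0⟩ v211; ok v212 && (
  let v213 := exp v212; ok v213 && (
  let v214 := mul x0 v206; ok v214 && (
  let v215 := mul v197 v195; ok v215 && (
  let v216 := scale ⟨2199023255552, 0, 0, 0⟩ v205; ok v216 && (
  let v217 := add v215 v216; ok v217 && (
  let v218 := mul v214 v217; ok v218 && (
  let v219 := mul v203 v213; ok v219 && (
  let v220 := mul v191 v219; ok v220 && (
  let v221 := add v218 v220; ok v221 && (
  let v222 := mul v195 v221; ok v222 && (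
  let v223 := scale ⟨4398046511104, 0, 0, 0⟩ v222; ok v223 && (
  let v224 := mul x0 v223; ok v224 && (
  let v225 := add v224 v0; ok v225 && (
  isPos 3 v225 && (
  let v226 := log v225; ok v226 && (
  let v227 := scale ⟨549755813888, 0, 0, 0⟩ v226; ok v227 && (
  let v228 := exp v227; ok v228 && (
  let v229 := add v228 v0; ok v229 && (
  isPos 3 v229 && (
  let v230 := inv v229; ok v230 && (
  let v231 := mul v223 v230; ok v231 && (
  let v232 := scale ⟨549755813888, 0, 0, 0⟩ v35; ok v232 && (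
  let v233 := sub v231 v232; ok v233 && (
  let v234 := cst ⟨12634720043008, 0, 0, 0⟩; ok v234 && (
  let v235 := add v36 v234; ok v235 && (
  isPos 3 v235 && (
  let v236 := mul v233 v233; ok v236 && (
  let v237 := sub v236 v36; ok v237 && (
  let v238 := inv v235; ok v238 && (
  let v239 := mul v237 v238; ok v239 && (
  isLt v239 1099510579200 && (
  let v240 := mul x0 v191; ok v240 && (
  let v241 := mul v240 v203; ok v241 && (
  let v242 := scale ⟨2199023255552, 0, 0, 0⟩ v241; ok v242 && (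
  let v243 := sub v213 v242; ok v243 && (
  isPos 3 v243 && (
  let v244 := add v12 v14; ok v244 && (
  let v245 := mul v203 v244; ok v245 && (
  let v246 := mul x0 v245; ok v246 && (
  let v247 := add v246 v19; ok v247 && (
  isPos 3 v247 && (
  let v248 := inv v247; ok v248 && (
  let v249 := mul v19 v245; ok v249 && (
  let v250 := add v249 v37; ok v250 && (
  let v251 := mul v248 v250; ok v251 && (
  isPos 3 x0 && (
  let v252 := inv x0; ok v252 && (
  let v253 := sub v233 v251; ok v253 && (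
  let v254 := mul v253 v252; ok v254 && (
  let v255 := add v245 v33; ok v255 && (
  let v256 := mul v16 v247; ok v256 && (
  let v257 := inv v255; ok v257 && (
  let v258 := mul v256 v257; ok v258 && (
  let v259 := mul v258 v254; ok v259 && (
  let v260 := mul x0 v259; ok v260 && (
  let v261 := add v260 v0; ok v261 && (
  let v262 := scale ⟨8896512000, 0, 0, 0⟩ v45; ok v262 && (
  let v263 := scale ⟨49953505280, 0, 0, 0⟩ v46; ok v263 && (
  let v264 := add v262 v263; ok v264 && (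
  let v265 := scale ⟨5328011264, 0, 0, 0⟩ v47; ok v265 && (
  let v266 := add v264 v265; ok v266 && (
  let v267 := scale ⟨3692475383808, 0, 0, 0⟩ v43; ok v267 && (
  let v268 := add v266 v267; ok v268 && (
  let v269 := scale ⟨4277154611200, 0, 0, 0⟩ v48; ok v269 && (
  let v270 := add v268 v269; ok v270 && (
  let v271 := cst ⟨774227099648, 0, 0, 0⟩; ok v271 && (
  let v272 := add v270 v271; ok v272 && (
  let v273 := scale ⟨2199023255552, 0, 0, 0⟩ v259; ok v273 && (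
  let v274 := inv v261; ok v274 && (
  let v275 := mul v258 v274; ok v275 && (
  let v276 := mul v273 v275; ok v276 && (
  let v277 := mul v15 v15; ok v277 && (
  let v278 := inv v272; ok v278 && (
  let v279 := mul v277 v278; ok v279 && (
  let v280 := mul v276 v279; ok v280 && (
  isLt v280 1099510579200 && (
  let v281 := mul x0 v233; ok v281 && (
  let v282 := add v281 v19; ok v282 && (
  isPos 3 v282 && (
  let v283 := inv v282; ok v283 && (
  let v284 := mul v16 v283; ok v284 && (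
  let v285 := sub v233 v33; ok v285 && (
  let v286 := add v16 v283; ok v286 && (
  let v287 := mul v285 v286; ok v287 && (
  let v288 := mul v284 v287; ok v288 && (
  let v289 := mul v16 v33; ok v289 && (
  let v290 := scale ⟨2199023255552, 0, 0, 0⟩ v289; ok v290 && (
  let v291 := add v288 v290; ok v291 && (
  let v292 := scale ⟨0, 60524679135232, 0, 0⟩ v43; ok v292 && (
  let v293 := cst ⟨0, 5053834330112, 0, 0⟩; ok v293 && (
  let v294 := add v292 v293; ok v294 && (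
  let v295 := sub v291 v294; ok v295 && (
  isPos 3 v295 && (
  let v296 := inv v295; ok v296 && (
  let v297 := scale ⟨31362867265536, 0, 0, 0⟩ v296; ok v297 && (
  let v298 := add v295 v297; ok v298 && (
  isPos 3 v298 && (
  let v299 := inv v298; ok v299 && (
  let v300 := scale ⟨0, 270527419008, 0, 0⟩ v45; ok v300 && (
  let v301 := scale ⟨0, 32461373761536, 0, 0⟩ v43; ok v301 && (
  let v302 := add v300 v301; ok v302 && (
  let v303 := cst ⟨0, 1060590521088, 0, 0⟩; ok v303 && (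
  let v304 := add v302 v303; ok v304 && (
  let v305 := scale ⟨918269146496, 0, 0, 0⟩ v45; ok v305 && (
  let v306 := scale ⟨68349684162112, 0, 0, 0⟩ v43; ok v306 && (
  let v307 := add v305 v306; ok v307 && (
  let v308 := cst ⟨6529253197056, 0, 0, 0⟩; ok v308 && (
  let v309 := add v307 v308; ok v309 && (
  let v310 := mul v296 v309; ok v310 && (
  let v311 := add v304 v310; ok v311 && (
  let v312 := mul v311 v299; ok v312 && (
  let v313 := scale ⟨0, 7168, 0, 0⟩ v291; ok v313 && (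
  let v314 := cst ⟨542272, 0, 0, 0⟩; ok v314 && (
  let v315 := add v313 v314; ok v315 && (
  let v316 := mul v291 v315; ok v316 && (
  let v317 := add v316 v86; ok v317 && (
  let v318 := mul v291 v317; ok v318 && (
  let v319 := add v318 v83; ok v319 && (
  let v320 := mul v291 v319; ok v320 && (
  let v321 := add v320 v78; ok v321 && (
  let v322 := mul v291 v321; ok v322 && (
  let v323 := add v322 v71; ok v323 && (
  let v324 := mul v291 v323; ok v324 && (
  let v325 := add v312 v62; ok v325 && (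
  let v326 := add v324 v325; ok v326 && (
  let v327 := mul v288 v326; ok v327 && (
  let v328 := add v327 v20; ok v328 && (
  let v329 := neg v328; ok v329 && (
  let v330 := exp v329; ok v330 && (
  let v331 := add v330 v0; ok v331 && (
  isPos 3 v331 && (
  let v332 := log v331; ok v332 && (
  let v333 := add v162 v180; ok v333 && (
  let v334 := sub v333 v332; ok v334 && (
  let v335 := scale ⟨549755813888, 0, 0, 0⟩ v226; ok v335 && (
  let v336 := mul v335 v252; ok v336 && (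
  let v337 := sub v334 v336; ok v337 && (
  let v338 := exp v337; ok v338 && (
  let v339 := scale ⟨0, 139128012800, 0, 0⟩ v91; ok v339 && (
  let v340 := cst ⟨140427067392, 0, 0, 0⟩; ok v340 && (
  let v341 := add v339 v340; ok v341 && (
  let v342 := mul v91 v341; ok v342 && (
  let v343 := cst ⟨0, 96231686144, 0, 0⟩; ok v343 && (
  let v344 := add v342 v343; ok v344 && (
  let v345 := mul v91 v344; ok v345 && (
  let v346 := scale ⟨0, 8753184768, 0, 0⟩ v45; ok v346 && (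
  let v347 := scale ⟨0, 16443965440, 0, 0⟩ v43; ok v347 && (
  let v348 := add v346 v347; ok v348 && (
  let v349 := cst ⟨70590136320, 0, 0, 0⟩; ok v349 && (
  let v350 := add v348 v349; ok v350 && (
  let v351 := add v345 v350; ok v351 && (
  let v352 := mul v91 v351; ok v352 && (
  let v353 := scale ⟨0, 1404567552, 0, 0⟩ v45; ok v353 && (
  let v354 := scale ⟨4050449989632, 0, 0, 0⟩ v43; ok v354 && (
  let v355 := add v353 v354; ok v355 && (
  let v356 := cst ⟨160479510528, 0, 0, 0⟩; ok v356 && (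
  let v357 := add v355 v356; ok v357 && (
  let v358 := add v352 v357; ok v358 && (
  let v359 := mul v91 v358; ok v359 && (
  let v360 := scale ⟨76597690368, 0, 0, 0⟩ v45; ok v360 && (
  let v361 := scale ⟨10845290496, 0, 0, 0⟩ v46; ok v361 && (
  let v362 := add v360 v361; ok v362 && (
  let v363 := scale ⟨4157502128128, 0, 0, 0⟩ v43; ok v363 && (
  let v364 := add v362 v363; ok v364 && (
  let v365 := scale ⟨3216017129472, 0, 0, 0⟩ v48; ok v365 && (
  let v366 := add v364 v365; ok v366 && (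
  let v367 := scale ⟨31905125040128, 0, 0, 0⟩ v49; ok v367 && (
  let v368 := add v366 v367; ok v368 && (
  let v369 := cst ⟨1172345847808, 0, 0, 0⟩; ok v369 && (
  let v370 := add v368 v369; ok v370 && (
  let v371 := add v359 v370; ok v371 && (
  let v372 := inv v172; ok v372 && (
  let v373 := mul v372 v174; ok v373 && (
  let v374 := scale ⟨879662989312, 0, 0, 0⟩ v233; ok v374 && (
  let v375 := add v374 v0; ok v375 && (
  isPos 3 v375 && (
  let v376 := scale ⟨1099511627776, 0, 0, 0⟩ v11; ok v376 && (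
  let v377 := neg v376; ok v377 && (
  let v378 := exp v377; ok v378 && (
  let v379 := scale ⟨65970700288, 0, 0, 0⟩ v378; ok v379 && (
  let v380 := scale ⟨2199023255552, 0, 0, 0⟩ v379; ok v380 && (
  let v381 := add v233 v33; ok v381 && (
  let v382 := mul v380 v381; ok v382 && (
  let v383 := inv v375; ok v383 && (
  let v384 := mul v382 v383; ok v384 && (
  let v385 := cst ⟨0, 0, 0, 0⟩; ok v385 && (
  let v386 := mul v371 v338; ok v386 && (
  let v387 := mul v386 v330; ok v387 && (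
  let v388 := mul v384 v373; ok v388 && (
  let v389 := mul v387 v388; ok v389 && (
  let v390 := rball v385 v389; ok v390 && (
  let v391 := sub v0 v371; ok v391 && (
  let v392 := mul x3 v391; ok v392 && (
  let v393 := sub v0 v338; ok v393 && (
  let v394 := mul v393 v373; ok v394 && (
  let v395 := mul v371 v394; ok v395 && (
  let v396 := add v392 v395; ok v396 && (
  let v397 := add v396 v390; ok v397 && (
  isLt v397 1099510579200 && (
  true)))))))))))))))))))))))))))))))))))))))))))))))))))))))))))))))))))))))))))))))))))))))))))))))))))))))))))))))))))))))))))))))))))))))))))))))))))))))))))))))))))))))))))))))))))))))))))))))))))))))))))))))))))))))))))))))))))))))))))))))))))))))))))))))))))))))))))))))))))))))))))))))))))))))))))))))))))))))))))))))))))))))))))))))))))))))))))))))))))))))))))))))))))))))))))))))))))))))))))))))))))))))))))))))))))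
  | _ => false

set_option maxRecDepth 1000000 in
theorem c_Z_0_eq (X : XOps) (m : List X.O.α)
    (h : c_Z_0 X.O.cst X.O.add X.O.sub X.O.mul X.O.scale X.O.neg X.O.inv X.O.exp X.O.log X.O.ok
      X.O.isPos X.O.isLt X.ball X.rball m = true) :
    runX X 3 p_Z_0 m = true := by
  match m, h with
  | [x0, x1, x2, x3], h => exact h

abbrev gZ : List (List Op) := [p_Z_0]

noncomputable abbrev kZ : List (List xE.O.α → Bool) := [c_Z_0 xE.O.cst xE.O.add xE.O.sub xE.O.mul xE.O.scale xE.O.neg xE.O.inv xE.O.exp xE.O.log xE.O.ok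
      xE.O.isPos xE.O.isLt xE.ball xE.rball]

theorem kZ_eq : List.Forall₂ (fun (ops : List Op) (chk : List xE.O.α → Bool) =>
    ∀ m, chk m = true → runX xE 3 ops m = true) gZ kZ :=
  List.Forall₂.cons (c_Z_0_eq xE) List.Forall₂.nil

theorem gZ_eq : gZ = [comp (PS0 tab) ρ4 4] := by decide +kernel

def p_T_0 : List Op := [
  .const ⟨1099511627776, 0, 0, 0⟩,
  .scale ⟨700938662707200, 0, 0, 0⟩ 1,
  .const ⟨0, 97049053757440, 0, 0⟩,
  .add 1 0,
  .mul 0 4,
  .const ⟨4198331580416, 0, 0, 0⟩,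
  .add 1 0,
  .mul 8 0,
  .const ⟨2199023255552, 0, 0, 0⟩,
  .add 1 0,
  .mul 10 0,
  .scale ⟨2199023255552, 0, 0, 0⟩ 0,
  .exp 1,
  .neg 2,
  .exp 0,
  .mul 2 2,
  .mul 1 1,
  .mul 0 0,
  .add 2 1,
  .scale ⟨549755813888, 0, 0, 0⟩ 0,
  .scale ⟨2199023255552, 0, 0, 0⟩ 10,
  .mul 10 10,
  .lt 0 68719476736,
  .scale ⟨9162596898, 0, 0, 0⟩ 0,
  .const ⟨183251937962, 0, 0, 0⟩,
  .add 1 0,
  .mul 0 3,
  .const ⟨1099511627776, 0, 0, 0⟩,
  .add 1 0,
  .const ⟨65536, 0, 0, 0⟩,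
  .rball 1 0,
  .mul 9 0,
  .add 18 16,
  .scale ⟨549755813888, 0, 0, 0⟩ 0,
  .mul 2 0,
  .mul 3 3,
  .mul 35 0,
  .mul 2 2,
  .mul 37 0,
  .neg 17,
  .exp 0,
  .add 0 39,
  .pos 0,
  .log 0,
  .const ⟨45902462976, 0, 0, 0⟩,
  .sub 43 0,
  .const ⟨2886218022912, 0, 0, 0⟩,
  .sub 35 0,
  .mul 0 0,
  .mul 0 1,
  .mul 4 2,
  .mul 5 5,
  .const ⟨769604452352, 0, 0, 0⟩,
  .scale ⟨0, 0, 1099511627776, 0⟩ 0,
  .scale ⟨549755813888, 0, 0, 0⟩ 0,
  .add 0 52,
  .inv 0,
  .mul 3 0,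
  .scale ⟨78243115020288, 0, 0, 0⟩ 0,
  .const ⟨0, 545728919360384, 0, 0⟩,
  .add 1 0,
  .mul 3 0,
  .const ⟨529641404022528, 0, 0, 0⟩,
  .add 1 0,
  .mul 6 0,
  .const ⟨0, 637010583920448, 0, 0⟩,
  .add 1 0,
  .mul 9 0,
  .const ⟨319217452105152, 0, 0, 0⟩,
  .add 1 0,
  .mul 12 0,
  .const ⟨0, 201664583442048, 0, 0⟩,
  .add 1 0,
  .mul 15 0,
  .scale ⟨644284736192, 0, 0, 0⟩ 26,
  .scale ⟨258591836660032, 0, 0, 0⟩ 29,
  .add 1 0,
  .const ⟨52845433392448, 0, 0, 0⟩,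
  .add 1 0,
  .add 5 0,
  .mul 22 0,
  .scale ⟨1879020556992, 0, 0, 0⟩ 33,
  .scale ⟨0, 126724504875648, 0, 0⟩ 36,
  .add 1 0,
  .const ⟨0, 21782004267776, 0, 0⟩,
  .add 1 0,
  .add 5 0,
  .mul 29 0,
  .scale ⟨0, 233489624768, 0, 0⟩ 40,
  .scale ⟨145601042082304, 0, 0, 0⟩ 43,
  .add 1 0,
  .const ⟨2460132632704, 0, 0, 0⟩,
  .add 1 0,
  .add 5 0,
  .mul 36 0,
  .scale ⟨686103447232, 0, 0, 0⟩ 47,
  .scale ⟨0, 29284297903808, 0, 0⟩ 50,
  .add 1 0,
  .const ⟨0, 264405856832, 0, 0⟩,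
  .add 1 0,
  .add 5 0,
  .mul 43 0,
  .scale ⟨126101102080, 0, 0, 0⟩ 54,
  .scale ⟨5782884673536, 0, 0, 0⟩ 57,
  .add 1 0,
  .const ⟨740668310144, 0, 0, 0⟩,
  .add 1 0,
  .add 5 0,
  .mul 50 0,
  .scale ⟨0, 248553755840, 0, 0⟩ 61,
  .scale ⟨0, 10422407373312, 0, 0⟩ 64,
  .add 1 0,
  .const ⟨3571698245120, 0, 0, 0⟩,
  .add 1 0,
  .add 5 0,
  .mul 57 0,
  .scale ⟨228786523968, 0, 0, 0⟩ 68,
  .scale ⟨0, 8384642368, 0, 0⟩ 68,
  .add 1 0,
  .scale ⟨12526246684032, 0, 0, 0⟩ 73,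
  .add 1 0,
  .scale ⟨3994771670080, 0, 0, 0⟩ 70,
  .add 1 0,
  .scale ⟨0, 41579879179200, 0, 0⟩ 71,
  .add 1 0,
  .const ⟨540235715840, 0, 0, 0⟩,
  .add 1 0,
  .mul 0 115,
  .add 12 0,
  .mul 127 127,
  .scale ⟨5703716569088, 0, 0, 0⟩ 0,
  .const ⟨1726576852992, 0, 0, 0⟩,
  .add 1 0,
  .scale ⟨4398046511104, 0, 0, 0⟩ 121,
  .mul 76 1,
  .scale ⟨4398046511104, 0, 0, 0⟩ 0,
  .add 2 0,
  .const ⟨109951188992, 0, 0, 0⟩,
  .mul 0 1,
  .scale ⟨439697276928, 0, 0, 0⟩ 2,
  .add 0 137,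
  .pos 0,
  .inv 0,
  .mul 3 0,
  .neg 14,
  .exp 0,
  .add 0 142,
  .pos 0,
  .log 0,
  .mul 4 147,
  .sub 145 0,
  .pos 0,
  .log 0,
  .mul 5 2,
  .add 0 148,
  .pos 0,
  .log 0,
  .sub 6 0,
  .add 142 110,
  .sub 1 0,
  .mul 0 154,
  .exp 0,
  .sub 5 8,
  .add 0 30,
  .mul 0 158,
  .exp 0,
  .mul 129 129,
  .scale ⟨274877906944, 0, 0, 0⟩ 0,
  .mul 34 0,
  .scale ⟨1649267441664, 0, 0, 0⟩ 0,
  .add 0 163,
  .mul 34 0,
  .mul 115 0,
  .scale ⟨0, 0, 1099511627776, 0⟩ 0,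
  .mul 0 0,
  .sub 7 0,
  .mul 14 14,
  .mul 0 1,
  .mul 44 0,
  .scale ⟨4398046511104, 0, 0, 0⟩ 0,
  .sub 173 0,
  .pos 0,
  .log 0,
  .scale ⟨549755813888, 0, 0, 0⟩ 0,
  .exp 0,
  .mul 178 22,
  .mul 0 11,
  .scale ⟨2199023255552, 0, 0, 0⟩ 0,
  .sub 3 0,
  .pos 0,
  .pos 182,
  .inv 182,
  .const ⟨549755813888, 0, 0, 0⟩,
  .sub 33 39,
  .log 3,
  .mul 0 3,
  .add 2 0,
  .exp 0,
  .sub 5 0,
  .pos 0]

set_option maxRecDepth 1000000 in
noncomputable def c_T_0 {α : Type} (cst : Z → α) (add sub mul : α → α → α) (scale : Z → α → α)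
    (neg inv exp log : α → α) (ok : α → Bool) (isPos : Nat → α → Bool) (isLt : α → Nat → Bool)
    (ball : Nat → α → α) (rball : α → α → α) : List α → Bool
  | [x0, x1, x2] =>
  let v0 := cst ⟨1099511627776, 0, 0, 0⟩; ok v0 && (
  let v1 := scale ⟨700938662707200, 0, 0, 0⟩ x0; ok v1 && (
  let v2 := cst ⟨0, 97049053757440, 0, 0⟩; ok v2 && (
  let v3 := add v1 v2; ok v3 && (
  let v4 := mul v3 x0; ok v4 && (
  let v5 := cst ⟨4198331580416, 0, 0, 0⟩; ok v5 && (
  let v6 := add v4 v5; ok v6 && (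
  let v7 := mul x1 v6; ok v7 && (
  let v8 := cst ⟨2199023255552, 0, 0, 0⟩; ok v8 && (
  let v9 := add v7 v8; ok v9 && (
  let v10 := mul x0 v9; ok v10 && (
  let v11 := scale ⟨2199023255552, 0, 0, 0⟩ v10; ok v11 && (
  let v12 := exp v10; ok v12 && (
  let v13 := neg v10; ok v13 && (
  let v14 := exp v13; ok v14 && (
  let v15 := mul v12 v12; ok v15 && (
  let v16 := mul v14 v14; ok v16 && (
  let v17 := mul v16 v16; ok v17 && (
  let v18 := add v15 v16; ok v18 && (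
  let v19 := scale ⟨549755813888, 0, 0, 0⟩ v18; ok v19 && (
  let v20 := scale ⟨2199023255552, 0, 0, 0⟩ v9; ok v20 && (
  let v21 := mul v10 v10; ok v21 && (
  isLt v21 68719476736 && (
  let v22 := scale ⟨9162596898, 0, 0, 0⟩ v21; ok v22 && (
  let v23 := cst ⟨183251937962, 0, 0, 0⟩; ok v23 && (
  let v24 := add v22 v23; ok v24 && (
  let v25 := mul v24 v21; ok v25 && (
  let v26 := cst ⟨1099511627776, 0, 0, 0⟩; ok v26 && (
  let v27 := add v25 v26; ok v27 && (
  let v28 := cst ⟨65536, 0, 0, 0⟩; ok v28 && (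
  let v29 := rball v27 v28; ok v29 && (
  let v30 := mul v20 v29; ok v30 && (
  let v31 := add v12 v14; ok v31 && (
  let v32 := scale ⟨549755813888, 0, 0, 0⟩ v31; ok v32 && (
  let v33 := mul v30 v32; ok v33 && (
  let v34 := mul v30 v30; ok v34 && (
  let v35 := mul x0 v34; ok v35 && (
  let v36 := mul v33 v33; ok v36 && (
  let v37 := mul x0 v36; ok v37 && (
  let v38 := neg v20; ok v38 && (
  let v39 := exp v38; ok v39 && (
  let v40 := add v39 v0; ok v40 && (
  isPos 2 v40 && (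
  let v41 := log v40; ok v41 && (
  let v42 := cst ⟨45902462976, 0, 0, 0⟩; ok v42 && (
  let v43 := sub x0 v42; ok v43 && (
  let v44 := cst ⟨2886218022912, 0, 0, 0⟩; ok v44 && (
  let v45 := sub v9 v44; ok v45 && (
  let v46 := mul v45 v45; ok v46 && (
  let v47 := mul v46 v45; ok v47 && (
  let v48 := mul v43 v45; ok v48 && (
  let v49 := mul v43 v43; ok v49 && (
  let v50 := cst ⟨769604452352, 0, 0, 0⟩; ok v50 && (
  let v51 := scale ⟨0, 0, 1099511627776, 0⟩ v50; ok v51 && (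
  let v52 := scale ⟨549755813888, 0, 0, 0⟩ v51; ok v52 && (
  let v53 := add v52 v0; ok v53 && (
  let v54 := inv v53; ok v54 && (
  let v55 := mul v51 v54; ok v55 && (
  let v56 := scale ⟨78243115020288, 0, 0, 0⟩ v55; ok v56 && (
  let v57 := cst ⟨0, 545728919360384, 0, 0⟩; ok v57 && (
  let v58 := add v56 v57; ok v58 && (
  let v59 := mul v55 v58; ok v59 && (
  let v60 := cst ⟨529641404022528, 0, 0, 0⟩; ok v60 && (
  let v61 := add v59 v60; ok v61 && (
  let v62 := mul v55 v61; ok v62 && (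
  let v63 := cst ⟨0, 637010583920448, 0, 0⟩; ok v63 && (
  let v64 := add v62 v63; ok v64 && (
  let v65 := mul v55 v64; ok v65 && (
  let v66 := cst ⟨319217452105152, 0, 0, 0⟩; ok v66 && (
  let v67 := add v65 v66; ok v67 && (
  let v68 := mul v55 v67; ok v68 && (
  let v69 := cst ⟨0, 201664583442048, 0, 0⟩; ok v69 && (
  let v70 := add v68 v69; ok v70 && (
  let v71 := mul v55 v70; ok v71 && (
  let v72 := scale ⟨644284736192, 0, 0, 0⟩ v45; ok v72 && (
  let v73 := scale ⟨258591836660032, 0, 0, 0⟩ v43; ok v73 && (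
  let v74 := add v72 v73; ok v74 && (
  let v75 := cst ⟨52845433392448, 0, 0, 0⟩; ok v75 && (
  let v76 := add v74 v75; ok v76 && (
  let v77 := add v71 v76; ok v77 && (
  let v78 := mul v55 v77; ok v78 && (
  let v79 := scale ⟨1879020556992, 0, 0, 0⟩ v45; ok v79 && (
  let v80 := scale ⟨0, 126724504875648, 0, 0⟩ v43; ok v80 && (
  let v81 := add v79 v80; ok v81 && (
  let v82 := cst ⟨0, 21782004267776, 0, 0⟩; ok v82 && (
  let v83 := add v81 v82; ok v83 && (
  let v84 := add v78 v83; ok v84 && (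
  let v85 := mul v55 v84; ok v85 && (
  let v86 := scale ⟨0, 233489624768, 0, 0⟩ v45; ok v86 && (
  let v87 := scale ⟨145601042082304, 0, 0, 0⟩ v43; ok v87 && (
  let v88 := add v86 v87; ok v88 && (
  let v89 := cst ⟨2460132632704, 0, 0, 0⟩; ok v89 && (
  let v90 := add v88 v89; ok v90 && (
  let v91 := add v85 v90; ok v91 && (
  let v92 := mul v55 v91; ok v92 && (
  let v93 := scale ⟨686103447232, 0, 0, 0⟩ v45; ok v93 && (
  let v94 := scale ⟨0, 29284297903808, 0, 0⟩ v43; ok v94 && (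
  let v95 := add v93 v94; ok v95 && (
  let v96 := cst ⟨0, 264405856832, 0, 0⟩; ok v96 && (
  let v97 := add v95 v96; ok v97 && (
  let v98 := add v92 v97; ok v98 && (
  let v99 := mul v55 v98; ok v99 && (
  let v100 := scale ⟨126101102080, 0, 0, 0⟩ v45; ok v100 && (
  let v101 := scale ⟨5782884673536, 0, 0, 0⟩ v43; ok v101 && (
  let v102 := add v100 v101; ok v102 && (
  let v103 := cst ⟨740668310144, 0, 0, 0⟩; ok v103 && (
  let v104 := add v102 v103; ok v104 && (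
  let v105 := add v99 v104; ok v105 && (
  let v106 := mul v55 v105; ok v106 && (
  let v107 := scale ⟨0, 248553755840, 0, 0⟩ v45; ok v107 && (
  let v108 := scale ⟨0, 10422407373312, 0, 0⟩ v43; ok v108 && (
  let v109 := add v107 v108; ok v109 && (
  let v110 := cst ⟨3571698245120, 0, 0, 0⟩; ok v110 && (
  let v111 := add v109 v110; ok v111 && (
  let v112 := add v106 v111; ok v112 && (
  let v113 := mul v55 v112; ok v113 && (
  let v114 := scale ⟨228786523968, 0, 0, 0⟩ v45; ok v114 && (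
  let v115 := scale ⟨0, 8384642368, 0, 0⟩ v46; ok v115 && (
  let v116 := add v114 v115; ok v116 && (
  let v117 := scale ⟨12526246684032, 0, 0, 0⟩ v43; ok v117 && (
  let v118 := add v116 v117; ok v118 && (
  let v119 := scale ⟨3994771670080, 0, 0, 0⟩ v48; ok v119 && (
  let v120 := add v118 v119; ok v120 && (
  let v121 := scale ⟨0, 41579879179200, 0, 0⟩ v49; ok v121 && (
  let v122 := add v120 v121; ok v122 && (
  let v123 := cst ⟨540235715840, 0, 0, 0⟩; ok v123 && (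
  let v124 := add v122 v123; ok v124 && (
  let v125 := mul v124 v9; ok v125 && (
  let v126 := add v113 v125; ok v126 && (
  let v127 := mul x0 x0; ok v127 && (
  let v128 := scale ⟨5703716569088, 0, 0, 0⟩ v127; ok v128 && (
  let v129 := cst ⟨1726576852992, 0, 0, 0⟩; ok v129 && (
  let v130 := add v128 v129; ok v130 && (
  let v131 := scale ⟨4398046511104, 0, 0, 0⟩ v9; ok v131 && (
  let v132 := mul v55 v130; ok v132 && (
  let v133 := scale ⟨4398046511104, 0, 0, 0⟩ v132; ok v133 && (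
  let v134 := add v131 v133; ok v134 && (
  let v135 := cst ⟨109951188992, 0, 0, 0⟩; ok v135 && (
  let v136 := mul v135 v134; ok v136 && (
  let v137 := scale ⟨439697276928, 0, 0, 0⟩ v134; ok v137 && (
  let v138 := add v137 v0; ok v138 && (
  isPos 2 v138 && (
  let v139 := inv v138; ok v139 && (
  let v140 := mul v136 v139; ok v140 && (
  let v141 := neg v126; ok v141 && (
  let v142 := exp v141; ok v142 && (
  let v143 := add v142 v0; ok v143 && (
  isPos 2 v143 && (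
  let v144 := log v143; ok v144 && (
  let v145 := mul v140 x2; ok v145 && (
  let v146 := sub v0 v145; ok v146 && (
  isPos 2 v146 && (
  let v147 := log v146; ok v147 && (
  let v148 := mul v142 v145; ok v148 && (
  let v149 := add v148 v0; ok v149 && (
  isPos 2 v149 && (
  let v150 := log v149; ok v150 && (
  let v151 := sub v144 v150; ok v151 && (
  let v152 := add v9 v41; ok v152 && (
  let v153 := sub v151 v152; ok v153 && (
  let v154 := mul v153 x0; ok v154 && (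
  let v155 := exp v154; ok v155 && (
  let v156 := sub v150 v147; ok v156 && (
  let v157 := add v156 v126; ok v157 && (
  let v158 := mul v157 x0; ok v158 && (
  let v159 := exp v158; ok v159 && (
  let v160 := mul v30 v30; ok v160 && (
  let v161 := scale ⟨274877906944, 0, 0, 0⟩ v160; ok v161 && (
  let v162 := mul v127 v161; ok v162 && (
  let v163 := scale ⟨1649267441664, 0, 0, 0⟩ v162; ok v163 && (
  let v164 := add v163 v0; ok v164 && (
  let v165 := mul v130 v164; ok v165 && (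
  let v166 := mul v50 v165; ok v166 && (
  let v167 := scale ⟨0, 0, 1099511627776, 0⟩ v166; ok v167 && (
  let v168 := mul v167 v167; ok v168 && (
  let v169 := sub v161 v168; ok v169 && (
  let v170 := mul v155 v155; ok v170 && (
  let v171 := mul v170 v169; ok v171 && (
  let v172 := mul v127 v171; ok v172 && (
  let v173 := scale ⟨4398046511104, 0, 0, 0⟩ v172; ok v173 && (
  let v174 := sub v0 v173; ok v174 && (
  isPos 2 v174 && (
  let v175 := log v174; ok v175 && (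
  let v176 := scale ⟨549755813888, 0, 0, 0⟩ v175; ok v176 && (
  let v177 := exp v176; ok v177 && (
  let v178 := mul x0 v155; ok v178 && (
  let v179 := mul v178 v167; ok v179 && (
  let v180 := scale ⟨2199023255552, 0, 0, 0⟩ v179; ok v180 && (
  let v181 := sub v177 v180; ok v181 && (
  isPos 2 v181 && (
  isPos 2 x0 && (
  let v182 := inv x0; ok v182 && (
  let v183 := cst ⟨549755813888, 0, 0, 0⟩; ok v183 && (
  let v184 := sub v150 v144; ok v184 && (
  let v185 := log v181; ok v185 && (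
  let v186 := mul v185 v182; ok v186 && (
  let v187 := add v184 v186; ok v187 && (
  let v188 := exp v187; ok v188 && (
  let v189 := sub v183 v188; ok v189 && (
  isPos 2 v189 && (
  true))))))))))))))))))))))))))))))))))))))))))))))))))))))))))))))))))))))))))))))))))))))))))))))))))))))))))))))))))))))))))))))))))))))))))))))))))))))))))))))))))))))))))))))))))))))))))))))))))))))))
  | _ => false

set_option maxRecDepth 1000000 in
theorem c_T_0_eq (X : XOps) (m : List X.O.α)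
    (h : c_T_0 X.O.cst X.O.add X.O.sub X.O.mul X.O.scale X.O.neg X.O.inv X.O.exp X.O.log X.O.ok
      X.O.isPos X.O.isLt X.ball X.rball m = true) :
    runX X 2 p_T_0 m = true := by
  match m, h with
  | [x0, x1, x2], h => exact h

abbrev gT : List (List Op) := [p_T_0]

noncomputable abbrev kT : List (List xE.O.α → Bool) := [c_T_0 xE.O.cst xE.O.add xE.O.sub xE.O.mul xE.O.scale xE.O.neg xE.O.inv xE.O.exp xE.O.log xE.O.ok
      xE.O.isPos xE.O.isLt xE.ball xE.rball]

theorem kT_eq : List.Forall₂ (fun (ops : List Op) (chk : List xE.O.α → Bool) =>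
    ∀ m, chk m = true → runX xE 2 ops m = true) gT kT :=
  List.Forall₂.cons (c_T_0_eq xE) List.Forall₂.nil

theorem gT_eq : gT = [comp (PST tab 769604452352) ρ3 3] := by decide +kernel

def p_S_0 : List Op := [
  .const ⟨1099511627776, 0, 0, 0⟩,
  .scale ⟨700938662707200, 0, 0, 0⟩ 1,
  .const ⟨0, 97049053757440, 0, 0⟩,
  .add 1 0,
  .mul 0 4,
  .const ⟨4198331580416, 0, 0, 0⟩,
  .add 1 0,
  .mul 8 0,
  .const ⟨2199023255552, 0, 0, 0⟩,
  .add 1 0,
  .mul 10 0,
  .exp 0,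
  .neg 1,
  .exp 0,
  .mul 3 3,
  .lt 0 68719476736,
  .scale ⟨9162596898, 0, 0, 0⟩ 0,
  .const ⟨183251937962, 0, 0, 0⟩,
  .add 1 0,
  .mul 0 3,
  .const ⟨1099511627776, 0, 0, 0⟩,
  .add 1 0,
  .const ⟨65536, 0, 0, 0⟩,
  .rball 1 0,
  .scale ⟨2199023255552, 0, 0, 0⟩ 13,
  .mul 0 1,
  .add 13 11,
  .scale ⟨549755813888, 0, 0, 0⟩ 0,
  .mul 2 0,
  .mul 0 0,
  .const ⟨45902462976, 0, 0, 0⟩,
  .sub 30 0,
  .const ⟨2886218022912, 0, 0, 0⟩,
  .sub 22 0,
  .mul 0 0,
  .mul 0 1,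
  .mul 4 2,
  .scale ⟨8896512000, 0, 0, 0⟩ 3,
  .scale ⟨49953505280, 0, 0, 0⟩ 3,
  .add 1 0,
  .scale ⟨5328011264, 0, 0, 0⟩ 4,
  .add 1 0,
  .scale ⟨3692475383808, 0, 0, 0⟩ 10,
  .add 1 0,
  .scale ⟨4277154611200, 0, 0, 0⟩ 7,
  .add 1 0,
  .const ⟨774227099648, 0, 0, 0⟩,
  .add 1 0,
  .pos 0,
  .const ⟨12634720043008, 0, 0, 0⟩,
  .add 19 0,
  .pos 0,
  .const ⟨45902462976, 0, 0, 0⟩,
  .sub 50 0,
  .const ⟨2886218022912, 0, 0, 0⟩,
  .sub 42 0,
  .mul 0 0,
  .mul 0 1,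
  .mul 4 2,
  .mul 42 42,
  .mul 0 0,
  .scale ⟨4398046511104, 0, 0, 0⟩ 47,
  .neg 0,
  .exp 0,
  .scale ⟨8896512000, 0, 0, 0⟩ 8,
  .scale ⟨49953505280, 0, 0, 0⟩ 8,
  .add 1 0,
  .scale ⟨5328011264, 0, 0, 0⟩ 9,
  .add 1 0,
  .scale ⟨3692475383808, 0, 0, 0⟩ 15,
  .add 1 0,
  .scale ⟨4277154611200, 0, 0, 0⟩ 12,
  .add 1 0,
  .const ⟨774227099648, 0, 0, 0⟩,
  .add 1 0,
  .mul 72 44,
  .mul 0 1,
  .add 0 73,
  .mul 14 0,
  .scale ⟨2199023255552, 0, 0, 0⟩ 19,
  .mul 5 16,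
  .sub 1 0,
  .pos 0,
  .scale ⟨106308501504, 0, 0, 0⟩ 26,
  .scale ⟨0, 4096458752, 0, 0⟩ 26,
  .add 1 0,
  .scale ⟨0, 92012544, 0, 0⟩ 27,
  .add 1 0,
  .scale ⟨4241451057152, 0, 0, 0⟩ 33,
  .add 1 0,
  .scale ⟨1273076645888, 0, 0, 0⟩ 30,
  .add 1 0,
  .const ⟨602501218304, 0, 0, 0⟩,
  .add 1 0,
  .pos 0,
  .const ⟨16039555366912, 0, 0, 0⟩,
  .add 62 0,
  .pos 0,
  .const ⟨45902462976, 0, 0, 0⟩,
  .sub 93 0,
  .const ⟨2886218022912, 0, 0, 0⟩,
  .sub 85 0,
  .mul 0 0,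
  .mul 0 1,
  .mul 4 2,
  .mul 85 85,
  .mul 0 0,
  .scale ⟨8796093022208, 0, 0, 0⟩ 90,
  .neg 0,
  .exp 0,
  .scale ⟨115205013504, 0, 0, 0⟩ 8,
  .scale ⟨45857046528, 0, 0, 0⟩ 8,
  .add 1 0,
  .scale ⟨5235998720, 0, 0, 0⟩ 9,
  .add 1 0,
  .scale ⟨7933926440960, 0, 0, 0⟩ 15,
  .add 1 0,
  .scale ⟨5550231257088, 0, 0, 0⟩ 12,
  .add 1 0,
  .const ⟨1376728317952, 0, 0, 0⟩,
  .add 1 0,
  .mul 115 87,
  .mul 0 1,
  .add 0 116,
  .mul 14 0,
  .scale ⟨1099511627776, 0, 0, 0⟩ 18,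
  .add 0 119,
  .mul 21 0,
  .scale ⟨2199023255552, 0, 0, 0⟩ 0,
  .mul 8 19,
  .sub 1 0,
  .pos 0,
  .scale ⟨61989453824, 0, 0, 0⟩ 29,
  .scale ⟨0, 12800557056, 0, 0⟩ 29,
  .add 1 0,
  .scale ⟨2795962368, 0, 0, 0⟩ 30,
  .add 1 0,
  .scale ⟨2750755176448, 0, 0, 0⟩ 36,
  .add 1 0,
  .scale ⟨118749462528, 0, 0, 0⟩ 33,
  .add 1 0,
  .const ⟨560567222272, 0, 0, 0⟩,
  .add 1 0,
  .pos 0,
  .const ⟨17551383855104, 0, 0, 0⟩,
  .add 108 0,
  .pos 0,
  .const ⟨45902462976, 0, 0, 0⟩,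
  .sub 139 0,
  .const ⟨2886218022912, 0, 0, 0⟩,
  .sub 131 0,
  .mul 0 0,
  .mul 0 1,
  .mul 4 2,
  .mul 131 131,
  .mul 0 0,
  .scale ⟨13194139533312, 0, 0, 0⟩ 136,
  .neg 0,
  .exp 0,
  .scale ⟨177194467328, 0, 0, 0⟩ 8,
  .scale ⟨33056489472, 0, 0, 0⟩ 8,
  .add 1 0,
  .scale ⟨8031961088, 0, 0, 0⟩ 9,
  .add 1 0,
  .scale ⟨10684681617408, 0, 0, 0⟩ 15,
  .add 1 0,
  .scale ⟨5668980719616, 0, 0, 0⟩ 12,
  .add 1 0,
  .const ⟨1937295540224, 0, 0, 0⟩,
  .add 1 0,
  .mul 161 133,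
  .mul 0 1,
  .add 0 162,
  .mul 14 0,
  .scale ⟨1099511627776, 0, 0, 0⟩ 18,
  .add 0 165,
  .mul 20 0,
  .add 0 167,
  .mul 23 0,
  .scale ⟨2199023255552, 0, 0, 0⟩ 0,
  .mul 10 21,
  .sub 1 0,
  .pos 0,
  .scale ⟨39507787776, 0, 0, 0⟩ 31,
  .scale ⟨0, 16165175296, 0, 0⟩ 31,
  .add 1 0,
  .scale ⟨6496714752, 0, 0, 0⟩ 32,
  .add 1 0,
  .scale ⟨2437213782016, 0, 0, 0⟩ 38,
  .add 1 0,
  .scale ⟨160644595712, 0, 0, 0⟩ 35,
  .add 1 0,
  .const ⟨533913206784, 0, 0, 0⟩,
  .add 1 0,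
  .pos 0,
  .const ⟨16743930003456, 0, 0, 0⟩,
  .add 156 0,
  .pos 0,
  .const ⟨45902462976, 0, 0, 0⟩,
  .sub 187 0,
  .const ⟨2886218022912, 0, 0, 0⟩,
  .sub 179 0,
  .mul 0 0,
  .mul 0 1,
  .mul 4 2,
  .mul 179 179,
  .mul 0 0,
  .scale ⟨17592186044416, 0, 0, 0⟩ 184,
  .neg 0,
  .exp 0,
  .scale ⟨216702255104, 0, 0, 0⟩ 8,
  .scale ⟨16891314176, 0, 0, 0⟩ 8,
  .add 1 0,
  .scale ⟨14528675840, 0, 0, 0⟩ 9,
  .add 1 0,
  .scale ⟨13121895399424, 0, 0, 0⟩ 15,
  .add 1 0,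
  .scale ⟨5829625315328, 0, 0, 0⟩ 12,
  .add 1 0,
  .const ⟨2471208747008, 0, 0, 0⟩,
  .add 1 0,
  .mul 209 181,
  .mul 0 1,
  .add 0 210,
  .mul 14 0,
  .scale ⟨1099511627776, 0, 0, 0⟩ 18,
  .add 0 213,
  .mul 20 0,
  .add 0 215,
  .mul 22 0,
  .add 0 217,
  .mul 25 0,
  .scale ⟨2199023255552, 0, 0, 0⟩ 0,
  .mul 12 23,
  .sub 1 0,
  .pos 0,
  .scale ⟨51377602560, 0, 0, 0⟩ 33,
  .scale ⟨0, 11459493888, 0, 0⟩ 33,
  .add 1 0,
  .scale ⟨8282898432, 0, 0, 0⟩ 34,
  .add 1 0,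
  .scale ⟨4289800175616, 0, 0, 0⟩ 40,
  .add 1 0,
  .scale ⟨2674042798080, 0, 0, 0⟩ 37,
  .add 1 0,
  .const ⟨555134943232, 0, 0, 0⟩,
  .add 1 0,
  .pos 0,
  .const ⟨13894219202560, 0, 0, 0⟩,
  .add 206 0,
  .pos 0,
  .const ⟨45902462976, 0, 0, 0⟩,
  .sub 237 0,
  .const ⟨2886218022912, 0, 0, 0⟩,
  .sub 229 0,
  .mul 0 0,
  .mul 0 1,
  .mul 4 2,
  .mul 229 229,
  .mul 0 0,
  .scale ⟨21990232555520, 0, 0, 0⟩ 234,
  .neg 0,
  .exp 0,
  .scale ⟨268079857664, 0, 0, 0⟩ 8,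
  .scale ⟨5431820288, 0, 0, 0⟩ 8,
  .add 1 0,
  .scale ⟨22811574272, 0, 0, 0⟩ 9,
  .add 1 0,
  .scale ⟨17411695575040, 0, 0, 0⟩ 15,
  .add 1 0,
  .scale ⟨8503668113408, 0, 0, 0⟩ 12,
  .add 1 0,
  .const ⟨3026343690240, 0, 0, 0⟩,
  .add 1 0,
  .mul 259 231,
  .mul 0 1,
  .add 0 260,
  .mul 14 0,
  .scale ⟨1099511627776, 0, 0, 0⟩ 18,
  .add 0 263,
  .mul 20 0,
  .add 0 265,
  .mul 22 0,
  .add 0 267,
  .mul 24 0,
  .add 0 269,
  .mul 27 0,
  .scale ⟨2199023255552, 0, 0, 0⟩ 0,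
  .mul 14 25,
  .sub 1 0,
  .pos 0,
  .mul 275 247,
  .mul 0 17,
  .add 0 276,
  .scale ⟨4837850742784, 0, 0, 0⟩ 267,
  .neg 0,
  .exp 0,
  .mul 3 0,
  .lt 0 1099511627520]

set_option maxRecDepth 1000000 in
noncomputable def c_S_0 {α : Type} (cst : Z → α) (add sub mul : α → α → α) (scale : Z → α → α)
    (neg inv exp log : α → α) (ok : α → Bool) (isPos : Nat → α → Bool) (isLt : α → Nat → Bool)
    (ball : Nat → α → α) (rball : α → α → α) : List α → Bool
  | [x0, x1] =>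
  let v0 := cst ⟨1099511627776, 0, 0, 0⟩; ok v0 && (
  let v1 := scale ⟨700938662707200, 0, 0, 0⟩ x0; ok v1 && (
  let v2 := cst ⟨0, 97049053757440, 0, 0⟩; ok v2 && (
  let v3 := add v1 v2; ok v3 && (
  let v4 := mul v3 x0; ok v4 && (
  let v5 := cst ⟨4198331580416, 0, 0, 0⟩; ok v5 && (
  let v6 := add v4 v5; ok v6 && (
  let v7 := mul x1 v6; ok v7 && (
  let v8 := cst ⟨2199023255552, 0, 0, 0⟩; ok v8 && (
  let v9 := add v7 v8; ok v9 && (
  let v10 := mul x0 v9; ok v10 && (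
  let v11 := exp v10; ok v11 && (
  let v12 := neg v10; ok v12 && (
  let v13 := exp v12; ok v13 && (
  let v14 := mul v10 v10; ok v14 && (
  isLt v14 68719476736 && (
  let v15 := scale ⟨9162596898, 0, 0, 0⟩ v14; ok v15 && (
  let v16 := cst ⟨183251937962, 0, 0, 0⟩; ok v16 && (
  let v17 := add v15 v16; ok v17 && (
  let v18 := mul v17 v14; ok v18 && (
  let v19 := cst ⟨1099511627776, 0, 0, 0⟩; ok v19 && (
  let v20 := add v18 v19; ok v20 && (
  let v21 := cst ⟨65536, 0, 0, 0⟩; ok v21 && (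
  let v22 := rball v20 v21; ok v22 && (
  let v23 := scale ⟨2199023255552, 0, 0, 0⟩ v9; ok v23 && (
  let v24 := mul v23 v22; ok v24 && (
  let v25 := add v11 v13; ok v25 && (
  let v26 := scale ⟨549755813888, 0, 0, 0⟩ v25; ok v26 && (
  let v27 := mul v24 v26; ok v27 && (
  let v28 := mul v27 v27; ok v28 && (
  let v29 := cst ⟨45902462976, 0, 0, 0⟩; ok v29 && (
  let v30 := sub x0 v29; ok v30 && (
  let v31 := cst ⟨2886218022912, 0, 0, 0⟩; ok v31 && (
  let v32 := sub v9 v31; ok v32 && (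
  let v33 := mul v32 v32; ok v33 && (
  let v34 := mul v33 v32; ok v34 && (
  let v35 := mul v30 v32; ok v35 && (
  let v36 := scale ⟨8896512000, 0, 0, 0⟩ v32; ok v36 && (
  let v37 := scale ⟨49953505280, 0, 0, 0⟩ v33; ok v37 && (
  let v38 := add v36 v37; ok v38 && (
  let v39 := scale ⟨5328011264, 0, 0, 0⟩ v34; ok v39 && (
  let v40 := add v38 v39; ok v40 && (
  let v41 := scale ⟨3692475383808, 0, 0, 0⟩ v30; ok v41 && (
  let v42 := add v40 v41; ok v42 && (
  let v43 := scale ⟨4277154611200, 0, 0, 0⟩ v35; ok v43 && (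
  let v44 := add v42 v43; ok v44 && (
  let v45 := cst ⟨774227099648, 0, 0, 0⟩; ok v45 && (
  let v46 := add v44 v45; ok v46 && (
  isPos 2 v46 && (
  let v47 := cst ⟨12634720043008, 0, 0, 0⟩; ok v47 && (
  let v48 := add v28 v47; ok v48 && (
  isPos 2 v48 && (
  let v49 := cst ⟨45902462976, 0, 0, 0⟩; ok v49 && (
  let v50 := sub x0 v49; ok v50 && (
  let v51 := cst ⟨2886218022912, 0, 0, 0⟩; ok v51 && (
  let v52 := sub v9 v51; ok v52 && (
  let v53 := mul v52 v52; ok v53 && (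
  let v54 := mul v53 v52; ok v54 && (
  let v55 := mul v50 v52; ok v55 && (
  let v56 := mul v13 v13; ok v56 && (
  let v57 := mul v56 v56; ok v57 && (
  let v58 := scale ⟨4398046511104, 0, 0, 0⟩ v10; ok v58 && (
  let v59 := neg v58; ok v59 && (
  let v60 := exp v59; ok v60 && (
  let v61 := scale ⟨8896512000, 0, 0, 0⟩ v52; ok v61 && (
  let v62 := scale ⟨49953505280, 0, 0, 0⟩ v53; ok v62 && (
  let v63 := add v61 v62; ok v63 && (
  let v64 := scale ⟨5328011264, 0, 0, 0⟩ v54; ok v64 && (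
  let v65 := add v63 v64; ok v65 && (
  let v66 := scale ⟨3692475383808, 0, 0, 0⟩ v50; ok v66 && (
  let v67 := add v65 v66; ok v67 && (
  let v68 := scale ⟨4277154611200, 0, 0, 0⟩ v55; ok v68 && (
  let v69 := add v67 v68; ok v69 && (
  let v70 := cst ⟨774227099648, 0, 0, 0⟩; ok v70 && (
  let v71 := add v69 v70; ok v71 && (
  let v72 := mul x0 v27; ok v72 && (
  let v73 := mul v72 v71; ok v73 && (
  let v74 := add v73 v0; ok v74 && (
  let v75 := mul v60 v74; ok v75 && (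
  let v76 := scale ⟨2199023255552, 0, 0, 0⟩ v56; ok v76 && (
  let v77 := mul v71 v60; ok v77 && (
  let v78 := sub v76 v77; ok v78 && (
  isPos 2 v78 && (
  let v79 := scale ⟨106308501504, 0, 0, 0⟩ v52; ok v79 && (
  let v80 := scale ⟨0, 4096458752, 0, 0⟩ v53; ok v80 && (
  let v81 := add v79 v80; ok v81 && (
  let v82 := scale ⟨0, 92012544, 0, 0⟩ v54; ok v82 && (
  let v83 := add v81 v82; ok v83 && (
  let v84 := scale ⟨4241451057152, 0, 0, 0⟩ v50; ok v84 && (
  let v85 := add v83 v84; ok v85 && (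
  let v86 := scale ⟨1273076645888, 0, 0, 0⟩ v55; ok v86 && (
  let v87 := add v85 v86; ok v87 && (
  let v88 := cst ⟨602501218304, 0, 0, 0⟩; ok v88 && (
  let v89 := add v87 v88; ok v89 && (
  isPos 2 v89 && (
  let v90 := cst ⟨16039555366912, 0, 0, 0⟩; ok v90 && (
  let v91 := add v28 v90; ok v91 && (
  isPos 2 v91 && (
  let v92 := cst ⟨45902462976, 0, 0, 0⟩; ok v92 && (
  let v93 := sub x0 v92; ok v93 && (
  let v94 := cst ⟨2886218022912, 0, 0, 0⟩; ok v94 && (
  let v95 := sub v9 v94; ok v95 && (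
  let v96 := mul v95 v95; ok v96 && (
  let v97 := mul v96 v95; ok v97 && (
  let v98 := mul v93 v95; ok v98 && (
  let v99 := mul v13 v13; ok v99 && (
  let v100 := mul v99 v99; ok v100 && (
  let v101 := scale ⟨8796093022208, 0, 0, 0⟩ v10; ok v101 && (
  let v102 := neg v101; ok v102 && (
  let v103 := exp v102; ok v103 && (
  let v104 := scale ⟨115205013504, 0, 0, 0⟩ v95; ok v104 && (
  let v105 := scale ⟨45857046528, 0, 0, 0⟩ v96; ok v105 && (
  let v106 := add v104 v105; ok v106 && (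
  let v107 := scale ⟨5235998720, 0, 0, 0⟩ v97; ok v107 && (
  let v108 := add v106 v107; ok v108 && (
  let v109 := scale ⟨7933926440960, 0, 0, 0⟩ v93; ok v109 && (
  let v110 := add v108 v109; ok v110 && (
  let v111 := scale ⟨5550231257088, 0, 0, 0⟩ v98; ok v111 && (
  let v112 := add v110 v111; ok v112 && (
  let v113 := cst ⟨1376728317952, 0, 0, 0⟩; ok v113 && (
  let v114 := add v112 v113; ok v114 && (
  let v115 := mul x0 v27; ok v115 && (
  let v116 := mul v115 v114; ok v116 && (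
  let v117 := add v116 v0; ok v117 && (
  let v118 := mul v103 v117; ok v118 && (
  let v119 := scale ⟨1099511627776, 0, 0, 0⟩ v100; ok v119 && (
  let v120 := add v119 v0; ok v120 && (
  let v121 := mul v99 v120; ok v121 && (
  let v122 := scale ⟨2199023255552, 0, 0, 0⟩ v121; ok v122 && (
  let v123 := mul v114 v103; ok v123 && (
  let v124 := sub v122 v123; ok v124 && (
  isPos 2 v124 && (
  let v125 := scale ⟨61989453824, 0, 0, 0⟩ v95; ok v125 && (
  let v126 := scale ⟨0, 12800557056, 0, 0⟩ v96; ok v126 && (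
  let v127 := add v125 v126; ok v127 && (
  let v128 := scale ⟨2795962368, 0, 0, 0⟩ v97; ok v128 && (
  let v129 := add v127 v128; ok v129 && (
  let v130 := scale ⟨2750755176448, 0, 0, 0⟩ v93; ok v130 && (
  let v131 := add v129 v130; ok v131 && (
  let v132 := scale ⟨118749462528, 0, 0, 0⟩ v98; ok v132 && (
  let v133 := add v131 v132; ok v133 && (
  let v134 := cst ⟨560567222272, 0, 0, 0⟩; ok v134 && (
  let v135 := add v133 v134; ok v135 && (
  isPos 2 v135 && (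
  let v136 := cst ⟨17551383855104, 0, 0, 0⟩; ok v136 && (
  let v137 := add v28 v136; ok v137 && (
  isPos 2 v137 && (
  let v138 := cst ⟨45902462976, 0, 0, 0⟩; ok v138 && (
  let v139 := sub x0 v138; ok v139 && (
  let v140 := cst ⟨2886218022912, 0, 0, 0⟩; ok v140 && (
  let v141 := sub v9 v140; ok v141 && (
  let v142 := mul v141 v141; ok v142 && (
  let v143 := mul v142 v141; ok v143 && (
  let v144 := mul v139 v141; ok v144 && (
  let v145 := mul v13 v13; ok v145 && (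
  let v146 := mul v145 v145; ok v146 && (
  let v147 := scale ⟨13194139533312, 0, 0, 0⟩ v10; ok v147 && (
  let v148 := neg v147; ok v148 && (
  let v149 := exp v148; ok v149 && (
  let v150 := scale ⟨177194467328, 0, 0, 0⟩ v141; ok v150 && (
  let v151 := scale ⟨33056489472, 0, 0, 0⟩ v142; ok v151 && (
  let v152 := add v150 v151; ok v152 && (
  let v153 := scale ⟨8031961088, 0, 0, 0⟩ v143; ok v153 && (
  let v154 := add v152 v153; ok v154 && (
  let v155 := scale ⟨10684681617408, 0, 0, 0⟩ v139; ok v155 && (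
  let v156 := add v154 v155; ok v156 && (
  let v157 := scale ⟨5668980719616, 0, 0, 0⟩ v144; ok v157 && (
  let v158 := add v156 v157; ok v158 && (
  let v159 := cst ⟨1937295540224, 0, 0, 0⟩; ok v159 && (
  let v160 := add v158 v159; ok v160 && (
  let v161 := mul x0 v27; ok v161 && (
  let v162 := mul v161 v160; ok v162 && (
  let v163 := add v162 v0; ok v163 && (
  let v164 := mul v149 v163; ok v164 && (
  let v165 := scale ⟨1099511627776, 0, 0, 0⟩ v146; ok v165 && (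
  let v166 := add v165 v0; ok v166 && (
  let v167 := mul v146 v166; ok v167 && (
  let v168 := add v167 v0; ok v168 && (
  let v169 := mul v145 v168; ok v169 && (
  let v170 := scale ⟨2199023255552, 0, 0, 0⟩ v169; ok v170 && (
  let v171 := mul v160 v149; ok v171 && (
  let v172 := sub v170 v171; ok v172 && (
  isPos 2 v172 && (
  let v173 := scale ⟨39507787776, 0, 0, 0⟩ v141; ok v173 && (
  let v174 := scale ⟨0, 16165175296, 0, 0⟩ v142; ok v174 && (
  let v175 := add v173 v174; ok v175 && (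
  let v176 := scale ⟨6496714752, 0, 0, 0⟩ v143; ok v176 && (
  let v177 := add v175 v176; ok v177 && (
  let v178 := scale ⟨2437213782016, 0, 0, 0⟩ v139; ok v178 && (
  let v179 := add v177 v178; ok v179 && (
  let v180 := scale ⟨160644595712, 0, 0, 0⟩ v144; ok v180 && (
  let v181 := add v179 v180; ok v181 && (
  let v182 := cst ⟨533913206784, 0, 0, 0⟩; ok v182 && (
  let v183 := add v181 v182; ok v183 && (
  isPos 2 v183 && (
  let v184 := cst ⟨16743930003456, 0, 0, 0⟩; ok v184 && (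
  let v185 := add v28 v184; ok v185 && (
  isPos 2 v185 && (
  let v186 := cst ⟨45902462976, 0, 0, 0⟩; ok v186 && (
  let v187 := sub x0 v186; ok v187 && (
  let v188 := cst ⟨2886218022912, 0, 0, 0⟩; ok v188 && (
  let v189 := sub v9 v188; ok v189 && (
  let v190 := mul v189 v189; ok v190 && (
  let v191 := mul v190 v189; ok v191 && (
  let v192 := mul v187 v189; ok v192 && (
  let v193 := mul v13 v13; ok v193 && (
  let v194 := mul v193 v193; ok v194 && (
  let v195 := scale ⟨17592186044416, 0, 0, 0⟩ v10; ok v195 && (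
  let v196 := neg v195; ok v196 && (
  let v197 := exp v196; ok v197 && (
  let v198 := scale ⟨216702255104, 0, 0, 0⟩ v189; ok v198 && (
  let v199 := scale ⟨16891314176, 0, 0, 0⟩ v190; ok v199 && (
  let v200 := add v198 v199; ok v200 && (
  let v201 := scale ⟨14528675840, 0, 0, 0⟩ v191; ok v201 && (
  let v202 := add v200 v201; ok v202 && (
  let v203 := scale ⟨13121895399424, 0, 0, 0⟩ v187; ok v203 && (
  let v204 := add v202 v203; ok v204 && (
  let v205 := scale ⟨5829625315328, 0, 0, 0⟩ v192; ok v205 && (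
  let v206 := add v204 v205; ok v206 && (
  let v207 := cst ⟨2471208747008, 0, 0, 0⟩; ok v207 && (
  let v208 := add v206 v207; ok v208 && (
  let v209 := mul x0 v27; ok v209 && (
  let v210 := mul v209 v208; ok v210 && (
  let v211 := add v210 v0; ok v211 && (
  let v212 := mul v197 v211; ok v212 && (
  let v213 := scale ⟨1099511627776, 0, 0, 0⟩ v194; ok v213 && (
  let v214 := add v213 v0; ok v214 && (
  let v215 := mul v194 v214; ok v215 && (
  let v216 := add v215 v0; ok v216 && (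
  let v217 := mul v194 v216; ok v217 && (
  let v218 := add v217 v0; ok v218 && (
  let v219 := mul v193 v218; ok v219 && (
  let v220 := scale ⟨2199023255552, 0, 0, 0⟩ v219; ok v220 && (
  let v221 := mul v208 v197; ok v221 && (
  let v222 := sub v220 v221; ok v222 && (
  isPos 2 v222 && (
  let v223 := scale ⟨51377602560, 0, 0, 0⟩ v189; ok v223 && (
  let v224 := scale ⟨0, 11459493888, 0, 0⟩ v190; ok v224 && (
  let v225 := add v223 v224; ok v225 && (
  let v226 := scale ⟨8282898432, 0, 0, 0⟩ v191; ok v226 && (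
  let v227 := add v225 v226; ok v227 && (
  let v228 := scale ⟨4289800175616, 0, 0, 0⟩ v187; ok v228 && (
  let v229 := add v227 v228; ok v229 && (
  let v230 := scale ⟨2674042798080, 0, 0, 0⟩ v192; ok v230 && (
  let v231 := add v229 v230; ok v231 && (
  let v232 := cst ⟨555134943232, 0, 0, 0⟩; ok v232 && (
  let v233 := add v231 v232; ok v233 && (
  isPos 2 v233 && (
  let v234 := cst ⟨13894219202560, 0, 0, 0⟩; ok v234 && (
  let v235 := add v28 v234; ok v235 && (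
  isPos 2 v235 && (
  let v236 := cst ⟨45902462976, 0, 0, 0⟩; ok v236 && (
  let v237 := sub x0 v236; ok v237 && (
  let v238 := cst ⟨2886218022912, 0, 0, 0⟩; ok v238 && (
  let v239 := sub v9 v238; ok v239 && (
  let v240 := mul v239 v239; ok v240 && (
  let v241 := mul v240 v239; ok v241 && (
  let v242 := mul v237 v239; ok v242 && (
  let v243 := mul v13 v13; ok v243 && (
  let v244 := mul v243 v243; ok v244 && (
  let v245 := scale ⟨21990232555520, 0, 0, 0⟩ v10; ok v245 && (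
  let v246 := neg v245; ok v246 && (
  let v247 := exp v246; ok v247 && (
  let v248 := scale ⟨268079857664, 0, 0, 0⟩ v239; ok v248 && (
  let v249 := scale ⟨5431820288, 0, 0, 0⟩ v240; ok v249 && (
  let v250 := add v248 v249; ok v250 && (
  let v251 := scale ⟨22811574272, 0, 0, 0⟩ v241; ok v251 && (
  let v252 := add v250 v251; ok v252 && (
  let v253 := scale ⟨17411695575040, 0, 0, 0⟩ v237; ok v253 && (
  let v254 := add v252 v253; ok v254 && (
  let v255 := scale ⟨8503668113408, 0, 0, 0⟩ v242; ok v255 && (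
  let v256 := add v254 v255; ok v256 && (
  let v257 := cst ⟨3026343690240, 0, 0, 0⟩; ok v257 && (
  let v258 := add v256 v257; ok v258 && (
  let v259 := mul x0 v27; ok v259 && (
  let v260 := mul v259 v258; ok v260 && (
  let v261 := add v260 v0; ok v261 && (
  let v262 := mul v247 v261; ok v262 && (
  let v263 := scale ⟨1099511627776, 0, 0, 0⟩ v244; ok v263 && (
  let v264 := add v263 v0; ok v264 && (
  let v265 := mul v244 v264; ok v265 && (
  let v266 := add v265 v0; ok v266 && (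
  let v267 := mul v244 v266; ok v267 && (
  let v268 := add v267 v0; ok v268 && (
  let v269 := mul v244 v268; ok v269 && (
  let v270 := add v269 v0; ok v270 && (
  let v271 := mul v243 v270; ok v271 && (
  let v272 := scale ⟨2199023255552, 0, 0, 0⟩ v271; ok v272 && (
  let v273 := mul v258 v247; ok v273 && (
  let v274 := sub v272 v273; ok v274 && (
  isPos 2 v274 && (
  let v275 := mul x0 v27; ok v275 && (
  let v276 := mul v275 v258; ok v276 && (
  let v277 := add v276 v0; ok v277 && (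
  let v278 := scale ⟨4837850742784, 0, 0, 0⟩ v10; ok v278 && (
  let v279 := neg v278; ok v279 && (
  let v280 := exp v279; ok v280 && (
  let v281 := mul v277 v280; ok v281 && (
  isLt v281 1099511627520 && (
  true)))))))))))))))))))))))))))))))))))))))))))))))))))))))))))))))))))))))))))))))))))))))))))))))))))))))))))))))))))))))))))))))))))))))))))))))))))))))))))))))))))))))))))))))))))))))))))))))))))))))))))))))))))))))))))))))))))))))))))))))))))))))))))))))))))))))))))))))))))))))))))))))))))))))))))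
  | _ => false

set_option maxRecDepth 1000000 in
theorem c_S_0_eq (X : XOps) (m : List X.O.α)
    (h : c_S_0 X.O.cst X.O.add X.O.sub X.O.mul X.O.scale X.O.neg X.O.inv X.O.exp X.O.log X.O.ok
      X.O.isPos X.O.isLt X.ball X.rball m = true) :
    runX X 2 p_S_0 m = true := by
  match m, h with
  | [x0, x1], h => exact h

abbrev gS : List (List Op) := [p_S_0]

noncomputable abbrev kS : List (List xE.O.α → Bool) := [c_S_0 xE.O.cst xE.O.add xE.O.sub xE.O.mul xE.O.scale xE.O.neg xE.O.inv xE.O.exp xE.O.log xE.O.ok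
      xE.O.isPos xE.O.isLt xE.ball xE.rball]

theorem kS_eq : List.Forall₂ (fun (ops : List Op) (chk : List xE.O.α → Bool) =>
    ∀ m, chk m = true → runX xE 2 ops m = true) gS kS :=
  List.Forall₂.cons (c_S_0_eq xE) List.Forall₂.nil

theorem gS_eq : gS = [PSS tab 5] := by decide +kernel

end Pool.Agent.helper14.NS.Q20e
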