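import Pool.Agent.helper14.NS.Cert

/-!
Generated: table Q20e.
-/

namespace Pool.Agent.helper14.NS.Q20e

open Pool.Agent.helper63.NF Pool.Agent.helper4.NS

def tab : TD where
  strip := false
  bm := some (700938662707200, -97049053757440, 4198331580416, 2199023255552)
  ec := 45902462976
  bc := 2886218022912
  H := [[[2547030912, 1546457856, 85766848, 38785472], [3562866847936, 65395527616], [-6674684209920]], [[16259053248, 5945574016, 81163520], [-300493971264, 831512000]], [[-2854848512, -914677888, -5645568], [14693656832]], [[271814976, 62857856], [-498615232]], [[-16286528, -1739456]], [[542272]], [[-7168]]]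
  pol := some ⟨-5053834330112, -60524679135232, 5872294035456, 31362867265536, [[-1060590521088, -270527419008], [-32461373761536, 0]], [[6529253197056, 918269146496], [68349684162112, 0]]⟩
  a := [[[109951188992, 0, 0, 0], [0, 0]], [[65970700288, 0, 0, 0], [0, 0]], [[65970700288, 0, 0, 0], [0, 0]], [[65970700288, 0, 0, 0], [0, 0]], [[65970700288, 0, 0, 0], [0, 0]]]
  j := [0, 1099511627776, 2199023255552, 3298534883328, 4398046511104]
  c := [439697276928, 879662989312, 659814350848, 549755813888, 439697276928]
  M := [[[[1172345847808, 76597690368, 10845290496], [4157502128128, 3216017129472], [31905125040128]], [[160479510528, -1404567552], [4050449989632]], [[70590136320, -8753184768], [-16443965440]], [[-96231686144]], [[140427067392]], [[-139128012800]]], [[[1171985399808, 43369627648, -11886329856], [2723464216576]], [[25644367872, 928055296], [623770009600]], [[-263651328]], [[8781824]]], [[[1176270077952, 45136281600, -12360351744], [2951477460992]], [[24242814976, 892928000], [582272090112]], [[-67567616]], [[-327680]]], [[[1178452557824, 46231519232, -13387759616], [3131847147520]], [[23689560064, 738656256], [557798850560]], [[-14680064]], [[-2228224]]], [[[1179825471488, 47177859072,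 -13568507904], [3171222421504]], [[23269081088, 608894976], [552657879040]], [[25296896]], [[-3342336]]]]
  l0 := [[[3571698245120, -248553755840], [-10422407373312]], [[740668310144, 126101102080], [5782884673536]], [[-264405856832, 686103447232], [-29284297903808]], [[2460132632704, -233489624768], [145601042082304]], [[-21782004267776, 1879020556992], [-126724504875648]], [[52845433392448, 644284736192], [258591836660032]], [[-201664583442048]], [[319217452105152]], [[-637010583920448]], [[529641404022528]], [[-545728919360384]], [[78243115020288]]]
  q0 := [[540235715840, 228786523968, -8384642368], [12526246684032, 3994771670080], [-41579879179200]]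
  t := [[[774227099648, 8896512000, 49953505280, 5328011264], [3692475383808, 4277154611200]], [[602501218304, 106308501504, -4096458752, -92012544], [4241451057152, 1273076645888]], [[560567222272, 61989453824, -12800557056, 2795962368], [2750755176448, 118749462528]], [[533913206784, 39507787776, -16165175296, 6496714752], [2437213782016, 160644595712]], [[555134943232, 51377602560, -11459493888, 8282898432], [4289800175616, 2674042798080]]]
  y := [12634720043008, 16039555366912, 17551383855104, 16743930003456, 13894219202560]
  sc := [0, 0, 0, 0, 0]
  L := [(0, 2), (0, 3), (1, 1), (2, 0)]
  Lt := [(0, 2), (0, 3), (1, 1)]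
  far := 3
  x2 := 10775214161920
  B1 := 879608463360
  C2 := 1379779086336
  f1 := 0
  f2 := 0
  f3 := 0
  is1 := 8796093022208
  s1 := 137438953472

end Pool.Agent.helper14.NS.Q20e
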